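import Pool.Agent.P.MP_8f87b2_lc.Lang

/-!
# Compilation of the structured language to the word-RAM
-/

namespace Pool.Agent.P.MP_8f87b2_lc

def BOp.toOp : BOp → Op
  | .add => .add | .radd => .add | .sub => .sub | .rsub => .sub | .mul => .mul | .rmul => .mul
  | .band => .band | .shr => .shr | .lt => .lt

/-- turns the index in temporary `k` into the physical address in bank `b` -/
def addrCode (b k : ℕ) : List Instr :=
  [.const (2 * k + 5) 16, .op .mul (2 * k + 3) (2 * k + 3) (2 * k + 5), .const (2 * k + 5) b,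
    .op .add (2 * k + 3) (2 * k + 3) (2 * k + 5), .op .add (2 * k + 3) (2 * k + 3) 1]

def compE : Expr → ℕ → List Instr
  | .c n, k => [.const (2 * k + 3) n]
  | .v x, k => [.op .band (2 * k + 3) (2 * x) (2 * x)]
  | .bin o a b, k =>
      compE a k ++ (compE b (k + 1) ++ [.op o.toOp (2 * k + 3) (2 * k + 3) (2 * (k + 1) + 3)])
  | .ld b a, k => compE a k ++ (addrCode b k ++ [.load (2 * k + 3) (2 * k + 3)])
  | .inp a, k => compE a k ++ [.load (2 * k + 3) (2 * k + 3)]

def Expr.len : Expr → ℕ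
  | .c _ => 1
  | .v _ => 1
  | .bin _ a b => a.len + (b.len + 1)
  | .ld _ a => a.len + 6
  | .inp a => a.len + 1

def Expr.wf : Expr → Bool
  | .c _ => true
  | .v _ => true
  | .bin _ a b => a.wf && b.wf
  | .ld b a => decide (b < 16) && a.wf
  | .inp a => a.wf

theorem compE_length (e : Expr) (k : ℕ) : (compE e k).length = e.len := by
  induction e generalizing k <;> simp_all [compE, Expr.len, addrCode]

def Stmt.len : Stmt → ℕ
  | .skip => 0
  | .set _ e => e.len + 1
  | .st _ a e => a.len + (5 + (e.len + 1))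
  | .rnd _ => 1
  | .seq s₁ s₂ => s₁.len + s₂.len
  | .ite e s₁ s₂ => e.len + (1 + (s₁.len + (1 + s₂.len)))
  | .wh e s => e.len + (1 + (s.len + 1))

def comp : Stmt → ℕ → List Instr
  | .skip, _ => []
  | .set x e, _ => compE e 0 ++ [.op .band (2 * x) 3 3]
  | .st b a e, _ => compE a 0 ++ (addrCode b 0 ++ (compE e 1 ++ [.store 3 5]))
  | .rnd x, _ => [.rand (2 * x)]
  | .seq s₁ s₂, p => comp s₁ p ++ comp s₂ (p + s₁.len)
  | .ite e s₁ s₂, p =>
      compE e 0 ++ (.jz 3 (p + e.len + 1 + s₁.len + 1) :: (comp s₁ (p + e.len + 1) ++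
        (.jmp (p + e.len + 1 + s₁.len + 1 + s₂.len) :: comp s₂ (p + e.len + 1 + s₁.len + 1))))
  | .wh e s, p =>
      compE e 0 ++ (.jz 3 (p + e.len + 1 + s.len + 1) :: (comp s (p + e.len + 1) ++ [.jmp p]))

theorem comp_length (s : Stmt) (p : ℕ) : (comp s p).length = s.len := by
  induction s generalizing p <;> simp_all [comp, Stmt.len, compE_length, addrCode] <;> omega

def Stmt.wf : Stmt → Bool
  | .skip => true
  | .set _ e => e.wf
  | .st b a e => decide (b < 16) && a.wf && e.wf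
  | .rnd _ => true
  | .seq s₁ s₂ => s₁.wf && s₂.wf
  | .ite e s₁ s₂ => e.wf && s₁.wf && s₂.wf
  | .wh e s => e.wf && s.wf

/-- machine steps per unit of the cost semantics -/
def Stmt.K : Stmt → ℕ
  | .skip => 0
  | .set _ e => e.len + 1
  | .st _ a e => a.len + e.len + 6
  | .rnd _ => 1
  | .seq s₁ s₂ => max s₁.K s₂.K
  | .ite e s₁ s₂ => max (e.len + 2) (max s₁.K s₂.K)
  | .wh e s => max (e.len + 2) s.K

def At (P : List Instr) (p : ℕ) (l : List Instr) : Prop :=
  ∀ i, i < l.length → P[p + i]? = l[i]?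

theorem At.left {P : List Instr} {p : ℕ} {l₁ l₂ : List Instr} (h : At P p (l₁ ++ l₂)) :
    At P p l₁ := fun i hi => by
  rw [h i (by simp; omega), List.getElem?_append_left hi]

theorem At.right {P : List Instr} {p : ℕ} {l₁ l₂ : List Instr} (h : At P p (l₁ ++ l₂)) :
    At P (p + l₁.length) l₂ := fun i hi => by
  rw [Nat.add_assoc, h _ (by simp; omega), List.getElem?_append_right (by omega)]
  simp

theorem At.head {P : List Instr} {p : ℕ} {a : Instr} {l : List Instr} (h : At P p (a :: l)) :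
    P[p]? = some a := by
  simpa using h 0 (by simp)

theorem At.tail {P : List Instr} {p : ℕ} {a : Instr} {l : List Instr} (h : At P p (a :: l)) :
    At P (p + 1) l := by
  have : At P p ([a] ++ l) := h
  exact this.right

structure EnvOK (w : ℕ) (E : Env) : Prop where
  hW : E.W = 2 ^ w
  h16 : 16 < E.W
  hLim : E.n1 + E.Lim * 16 ≤ E.W
  hinp : ∀ a, E.inp a < E.W

structure Sim (E : Env) (σ : St) (c : Config) : Prop where
  var : ∀ x, c.reg (2 * x) = σ.var x
  base : c.reg 1 = E.n1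
  bank : ∀ b a, b < 16 → c.mem (a * 16 + b + E.n1) = σ.bank b a
  inp : ∀ a, a < E.n1 → c.mem a = E.inp a
  pos : c.pos = σ.pos
  bv : ∀ x, σ.var x < E.W
  bb : ∀ b a, σ.bank b a < E.W

variable {w : ℕ} {E : Env} {P : List Instr}

theorem Expr.eval_lt (hE : EnvOK w E) {σ : St} (bv : ∀ x, σ.var x < E.W)
    (bb : ∀ b a, σ.bank b a < E.W) {e : Expr} (hs : e.safe E σ) : e.eval E σ < E.W := by
  have h16 := hE.h16
  induction e with
  | c n => exact hs
  | v x => exact bv x
  | bin o a b iha ihb =>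
    obtain ⟨ha, hb, ho⟩ := hs
    have h1 := iha ha
    have h2 := ihb hb
    cases o <;> simp only [Expr.eval, BOp.eval, BOp.safe] at *
    · exact ho
    · omega
    · exact ho
    · exact Nat.mod_lt _ (by omega)
    · exact Nat.mod_lt _ (by omega)
    · exact Nat.mod_lt _ (by omega)
    · exact lt_of_le_of_lt Nat.and_le_left h1
    · exact lt_of_le_of_lt (Nat.shiftRight_le _ _) h1
    · split_ifs <;> omega
  | ld k a _ => exact bb _ _
  | inp a _ => exact hE.hinp _

theorem BOp.toOp_eval (hE : EnvOK w E) (o : BOp) {a b : ℕ} (ha : a < E.W)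
    (hs : o.safe E.W a b) : o.toOp.eval w a b = o.eval E.W a b := by
  have hW := hE.hW
  cases o <;> simp only [BOp.toOp, Op.eval, BOp.eval, BOp.safe, ← hW] at *
  · exact Nat.mod_eq_of_lt hs
  · have hb : b % E.W = b := Nat.mod_eq_of_lt (by omega)
    rw [hb, show a + (E.W - b) = (a - b) + E.W by omega, Nat.add_mod_right]
    exact Nat.mod_eq_of_lt (by omega)
  · exact Nat.mod_eq_of_lt hs

/-- `c'` is reached from `c` in `t` steps. -/
def Reach (w : ℕ) (P : List Instr) (ω : ℕ → Bool) (t : ℕ) (c c' : Config) : Prop :=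
  (step w P ω)^[t] c = c'

theorem Reach.trans {ω : ℕ → Bool} {t₁ t₂ : ℕ} {c c' c'' : Config} (h₁ : Reach w P ω t₁ c c')
    (h₂ : Reach w P ω t₂ c' c'') : Reach w P ω (t₁ + t₂) c c'' := by
  unfold Reach at *
  rw [Nat.add_comm, Function.iterate_add_apply, h₁, h₂]

theorem Reach.one (ω : ℕ → Bool) (c : Config) : Reach w P ω 1 c (step w P ω c) := rfl

theorem Reach.zero (ω : ℕ → Bool) (c : Config) : Reach w P ω 0 c c := rfl

/-- the effect of straight-line code that only writes temporaries from `k` on -/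
structure Keep (k : ℕ) (c c' : Config) : Prop where
  reg : ∀ r, r % 2 = 0 ∨ r < 2 * k + 3 → c'.reg r = c.reg r
  mem : c'.mem = c.mem
  pos : c'.pos = c.pos

theorem Keep.trans {k k' : ℕ} {c c' c'' : Config} (h₁ : Keep k c c') (h₂ : Keep k' c' c'')
    (hk : k ≤ k') : Keep k c c'' :=
  ⟨fun r hr => (h₂.reg r (by omega)).trans (h₁.reg r hr), h₂.mem.trans h₁.mem,
    h₂.pos.trans h₁.pos⟩

theorem Sim.keep {σ : St} {c c' : Config} {k : ℕ} (h : Sim E σ c) (hk : Keep k c c') :
    Sim E σ c' :=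
  ⟨fun x => (hk.reg _ (by omega)).trans (h.var x), (hk.reg _ (by omega)).trans h.base,
    fun b a hb => hk.mem ▸ h.bank b a hb, fun a ha => hk.mem ▸ h.inp a ha, hk.pos.trans h.pos,
    h.bv, h.bb⟩

theorem addr_ok (hE : EnvOK w E) {ω : ℕ → Bool} {b k p : ℕ} {c : Config} (hb : b < 16)
    (hat : At P p (addrCode b k)) (hpc : c.pc = p) (hbase : c.reg 1 = E.n1)
    (hl : c.reg (2 * k + 3) < E.Lim) :
    ∃ c', Reach w P ω 5 c c' ∧ c'.pc = p + 5 ∧
      c'.reg (2 * k + 3) = c.reg (2 * k + 3) * 16 + b + E.n1 ∧ Keep k c c' := by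
  have h1 := hat.head
  have h2 := hat.tail.head
  have h3 := hat.tail.tail.head
  have h4 := hat.tail.tail.tail.head
  have h5 := hat.tail.tail.tail.tail.head
  have hW := hE.hW
  have h16 := hE.h16
  have hLim := hE.hLim
  subst hpc
  refine ⟨_, rfl, ?_⟩
  have e1 : 16 % 2 ^ w = 16 := Nat.mod_eq_of_lt (by omega)
  have e2 : b % 2 ^ w = b := Nat.mod_eq_of_lt (by omega)
  have e3 : c.reg (2 * k + 3) * 16 % 2 ^ w = c.reg (2 * k + 3) * 16 := Nat.mod_eq_of_lt (by omega)
  have e4 : (c.reg (2 * k + 3) * 16 + b) % 2 ^ w = c.reg (2 * k + 3) * 16 + b :=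
    Nat.mod_eq_of_lt (by omega)
  have e5 : (c.reg (2 * k + 3) * 16 + b + E.n1) % 2 ^ w = c.reg (2 * k + 3) * 16 + b + E.n1 :=
    Nat.mod_eq_of_lt (by omega)
  have n1 : (1 : ℕ) ≠ 2 * k + 3 := by omega
  have n2 : (1 : ℕ) ≠ 2 * k + 5 := by omega
  have n3 : 2 * k + 3 ≠ 2 * k + 5 := by omega
  have n4 : 2 * k + 5 ≠ 2 * k + 3 := by omega
  simp only [Function.iterate_succ, Function.iterate_zero, Function.comp, id, step, h1, h2, h3,
    h4, h5, Op.eval, Function.update_apply, n1, n2, n3, n4, if_true, if_false, e1, e2, e3, e4,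
    hbase, e5]
  refine ⟨trivial, trivial, fun r hr => ?_, rfl, rfl⟩
  have : r ≠ 2 * k + 3 := by omega
  have : r ≠ 2 * k + 5 := by omega
  simp [*]

theorem compE_ok (hE : EnvOK w E) {σ : St} (e : Expr) :
    ∀ {k p : ℕ} {c : Config}, e.wf = true → At P p (compE e k) → c.pc = p → Sim E σ c →
      e.safe E σ → ∃ c', Reach w P E.ω e.len c c' ∧ c'.pc = p + e.len ∧
        c'.reg (2 * k + 3) = e.eval E σ ∧ Keep k c c' := by
  induction e with
  | c n =>
    intro k p c _ hat hpc hS hs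
    have h1 := hat.head
    subst hpc
    refine ⟨_, Reach.one _ _, ?_⟩
    have : n % 2 ^ w = n := Nat.mod_eq_of_lt (hE.hW ▸ hs)
    simp only [step, h1, Expr.len, Expr.eval, Function.update_self, this, true_and]
    refine ⟨fun r hr => ?_, rfl, rfl⟩
    have : r ≠ 2 * k + 3 := by omega
    simp [*]
  | v x =>
    intro k p c _ hat hpc hS hs
    have h1 := hat.head
    subst hpc
    refine ⟨_, Reach.one _ _, ?_⟩
    simp only [step, h1, Expr.len, Expr.eval, Function.update_self, Op.eval, Nat.and_self,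
      hS.var, true_and]
    refine ⟨fun r hr => ?_, rfl, rfl⟩
    have : r ≠ 2 * k + 3 := by omega
    simp [*]
  | bin o a b iha ihb =>
    intro k p c hwf hat hpc hS hs
    simp only [Expr.wf, Bool.and_eq_true] at hwf
    obtain ⟨sa, sb, so⟩ := hs
    obtain ⟨c₁, r₁, p₁, v₁, k₁⟩ := iha hwf.1 hat.left hpc hS sa
    have hat2 := hat.right
    rw [compE_length] at hat2
    obtain ⟨c₂, r₂, p₂, v₂, k₂⟩ := ihb hwf.2 hat2.left p₁ (hS.keep k₁) sb
    have hat3 := hat2.right
    rw [compE_length] at hat3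
    have h1 := hat3.head
    rw [← p₂] at h1
    refine ⟨_, r₁.trans (r₂.trans (Reach.one _ _)), ?_⟩
    have v₁' : c₂.reg (2 * k + 3) = a.eval E σ := (k₂.reg _ (by omega)).trans v₁
    simp only [step, h1, Expr.len, Expr.eval, Function.update_self, v₁', v₂]
    refine ⟨by omega, BOp.toOp_eval hE o (Expr.eval_lt hE hS.bv hS.bb sa) so, ?_⟩
    refine (k₁.trans k₂ (by omega)).trans (k' := k) ⟨fun r hr => ?_, rfl, rfl⟩ le_rfl
    have : r ≠ 2 * k + 3 := by omega
    simp [*]
  | ld b a iha =>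
    intro k p c hwf hat hpc hS hs
    simp only [Expr.wf, Bool.and_eq_true, decide_eq_true_eq] at hwf
    obtain ⟨sa, hl⟩ := hs
    obtain ⟨c₁, r₁, p₁, v₁, k₁⟩ := iha hwf.2 hat.left hpc hS sa
    have hat2 := hat.right
    rw [compE_length] at hat2
    obtain ⟨c₂, r₂, p₂, v₂, k₂⟩ := addr_ok hE (ω := E.ω) hwf.1 hat2.left p₁ (hS.keep k₁).base
      (v₁ ▸ hl)
    have h1 := hat2.right.head
    rw [show (addrCode b k).length = 5 from rfl, ← p₂] at h1
    refine ⟨_, r₁.trans (r₂.trans (Reach.one _ _)), ?_⟩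
    simp only [step, h1, Expr.len, Expr.eval, Function.update_self, v₁, v₂]
    refine ⟨by omega, ((hS.keep k₁).keep k₂).bank _ _ hwf.1, ?_⟩
    refine (k₁.trans k₂ le_rfl).trans (k' := k) ⟨fun r hr => ?_, rfl, rfl⟩ le_rfl
    have : r ≠ 2 * k + 3 := by omega
    simp [*]
  | inp a iha =>
    intro k p c hwf hat hpc hS hs
    obtain ⟨sa, hl⟩ := hs
    obtain ⟨c₁, r₁, p₁, v₁, k₁⟩ := iha hwf hat.left hpc hS sa
    have h1 := hat.right.head
    rw [compE_length, ← p₁] at h1
    refine ⟨_, r₁.trans (Reach.one _ _), ?_⟩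
    simp only [step, h1, Expr.len, Expr.eval, Function.update_self, v₁]
    refine ⟨by omega, (hS.keep k₁).inp _ hl, ?_⟩
    refine k₁.trans (k' := k) ⟨fun r hr => ?_, rfl, rfl⟩ le_rfl
    have : r ≠ 2 * k + 3 := by omega
    simp [*]

theorem Exec.compile (hE : EnvOK w E) (K : ℕ) {s : Stmt} {σ σ' : St} {t : ℕ}
    (h : Exec E s σ σ' t) :
    ∀ {p : ℕ} {c : Config}, s.wf = true → s.K ≤ K → At P p (comp s p) → c.pc = p → Sim E σ c →
      ∃ c' t', t' ≤ K * t ∧ Reach w P E.ω t' c c' ∧ c'.pc = p + s.len ∧ Sim E σ' c' := by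
  induction h with
  | skip σ =>
    intro p c _ _ _ hpc hS
    exact ⟨c, 0, by simp, Reach.zero _ _, by simp [Stmt.len, hpc], hS⟩
  | set σ x e hs =>
    intro p c hwf hK hat hpc hS
    obtain ⟨c₁, r₁, p₁, v₁, k₁⟩ := compE_ok hE e hwf hat.left hpc hS hs
    have h1 := hat.right.head
    rw [compE_length, ← p₁] at h1
    have hS₁ := hS.keep k₁
    refine ⟨_, _, by simpa [Stmt.K] using hK, r₁.trans (Reach.one _ _), ?_⟩
    simp only [Nat.mul_zero, Nat.zero_add] at v₁
    simp only [step, h1, Stmt.len, Op.eval, Nat.and_self, v₁]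
    refine ⟨by omega, fun y => ?_, ?_, hS₁.bank, hS₁.inp, hS₁.pos, fun y => ?_, hS₁.bb⟩
    · by_cases hy : y = x
      · simp [hy]
      · have : 2 * y ≠ 2 * x := by omega
        simp [hy, this, hS₁.var]
    · have : 1 ≠ 2 * x := by omega
      simp [this, hS₁.base]
    · by_cases hy : y = x
      · simpa [hy] using Expr.eval_lt hE hS.bv hS.bb hs
      · simpa [hy] using hS.bv y
  | st σ b a e ha he hl =>
    intro p c hwf hK hat hpc hS
    simp only [Stmt.wf, Bool.and_eq_true, decide_eq_true_eq] at hwf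
    obtain ⟨c₁, r₁, p₁, v₁, k₁⟩ := compE_ok hE a hwf.1.2 hat.left hpc hS ha
    have hat2 := hat.right
    rw [compE_length] at hat2
    obtain ⟨c₂, r₂, p₂, v₂, k₂⟩ := addr_ok hE (ω := E.ω) hwf.1.1 hat2.left p₁ (hS.keep k₁).base
      (v₁ ▸ hl)
    have hat3 := hat2.right
    rw [show (addrCode b 0).length = 5 from rfl] at hat3
    obtain ⟨c₃, r₃, p₃, v₃, k₃⟩ := compE_ok hE e hwf.2 hat3.left p₂ ((hS.keep k₁).keep k₂) he
    have h1 := hat3.right.head
    rw [compE_length, ← p₃] at h1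
    have hS₃ := ((hS.keep k₁).keep k₂).keep k₃
    have v₂' : c₃.reg 3 = a.eval E σ * 16 + b + E.n1 := by
      rw [k₃.reg 3 (by omega), ← v₁]; exact v₂
    have v₃' : c₃.reg 5 = e.eval E σ := v₃
    refine ⟨_, _, ?_, r₁.trans (r₂.trans (r₃.trans (Reach.one _ _))), ?_⟩
    · simp only [Stmt.K] at hK; omega
    simp only [step, h1, Stmt.len, v₂', v₃']
    refine ⟨by omega, hS₃.var, hS₃.base, fun b' a' hb' => ?_, fun a' ha' => ?_, hS₃.pos, hS₃.bv,
      fun b' a' => ?_⟩
    · have hb := hwf.1.1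
      by_cases h1 : b' = b
      · subst h1
        by_cases h2 : a' = a.eval E σ
        · simp [h2]
        · have : a' * 16 + b' + E.n1 ≠ a.eval E σ * 16 + b' + E.n1 := by omega
          simp only [Function.update_of_ne this]
          simp [h2, hS₃.bank _ _ hb']
      · have : a' * 16 + b' + E.n1 ≠ a.eval E σ * 16 + b + E.n1 := by omega
        simp only [Function.update_of_ne this]
        simp [h1, hS₃.bank _ _ hb']
    · have : a' ≠ a.eval E σ * 16 + b + E.n1 := by omega
      simp [this, hS₃.inp _ ha']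
    · by_cases h1 : b' = b
      · by_cases h2 : a' = a.eval E σ
        · simpa [h1, h2] using Expr.eval_lt hE hS.bv hS.bb he
        · simpa [h1, h2] using hS.bb b a'
      · simpa [h1] using hS.bb b' a'
  | rnd σ x =>
    intro p c hwf hK hat hpc hS
    have h1 := hat.head
    rw [← hpc] at h1
    have h16 := hE.h16
    refine ⟨_, _, by simpa [Stmt.K] using hK, Reach.one _ _, ?_⟩
    simp only [step, h1, Stmt.len]
    refine ⟨by omega, fun y => ?_, ?_, hS.bank, hS.inp, by simp [hS.pos], fun y => ?_, hS.bb⟩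
    · by_cases hy : y = x
      · simp [hy, hS.pos]
      · have : 2 * y ≠ 2 * x := by omega
        simp [hy, this, hS.var]
    · have : 1 ≠ 2 * x := by omega
      simp [this, hS.base]
    · by_cases hy : y = x
      · simp only [hy, St.draw_var, if_true]; split_ifs <;> omega
      · simpa [hy] using hS.bv y
  | seq h₁ h₂ ih₁ ih₂ =>
    intro p c hwf hK hat hpc hS
    simp only [Stmt.wf, Bool.and_eq_true] at hwf
    simp only [Stmt.K, max_le_iff] at hK
    obtain ⟨c₁, t₁, b₁, r₁, p₁, S₁⟩ := ih₁ hwf.1 hK.1 hat.left hpc hS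
    have hat2 := hat.right
    rw [comp_length] at hat2
    obtain ⟨c₂, t₂, b₂, r₂, p₂, S₂⟩ := ih₂ hwf.2 hK.2 hat2 p₁ S₁
    refine ⟨_, _, ?_, r₁.trans r₂, by simp [p₂, Stmt.len, Nat.add_assoc], S₂⟩
    rw [Nat.mul_add]; omega
  | @iteT e s₁ s₂ σ σ' t hs hc h₁ ih =>
    intro p c hwf hK hat hpc hS
    simp only [Stmt.wf, Bool.and_eq_true] at hwf
    simp only [Stmt.K, max_le_iff] at hK
    obtain ⟨c₁, r₁, p₁, v₁, k₁⟩ := compE_ok hE e hwf.1.1 hat.left hpc hS hs
    have hat2 := hat.right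
    rw [compE_length] at hat2
    have h1 := hat2.head
    rw [← p₁] at h1
    have v₁' : c₁.reg 3 ≠ 0 := by rw [show c₁.reg 3 = e.eval E σ from v₁]; exact hc
    have hat3 : At P (p + e.len + 1) _ := hat2.tail
    obtain ⟨c₂, t₂, b₂, r₂, p₂, S₂⟩ := ih (p := p + e.len + 1) (c := step w P E.ω c₁) hwf.1.2 hK.2.1 hat3.left
      (by simp only [step, h1, v₁', if_true, if_false]; omega)
      ((hS.keep k₁).keep (k := 0) (by simp only [step, h1]; exact ⟨fun _ _ => rfl, rfl, rfl⟩))
    have h2 := hat3.right.head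
    rw [comp_length, ← p₂] at h2
    refine ⟨_, _, ?_, r₁.trans ((Reach.one _ _).trans (r₂.trans (Reach.one _ _))), ?_, ?_⟩
    · rw [Nat.mul_add]; omega
    · simp only [step, h2, Stmt.len]; omega
    · exact S₂.keep (k := 0) (by simp only [step, h2]; exact ⟨fun _ _ => rfl, rfl, rfl⟩)
  | @iteF e s₁ s₂ σ σ' t hs hc h₁ ih =>
    intro p c hwf hK hat hpc hS
    simp only [Stmt.wf, Bool.and_eq_true] at hwf
    simp only [Stmt.K, max_le_iff] at hK
    obtain ⟨c₁, r₁, p₁, v₁, k₁⟩ := compE_ok hE e hwf.1.1 hat.left hpc hS hs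
    have hat2 := hat.right
    rw [compE_length] at hat2
    have h1 := hat2.head
    rw [← p₁] at h1
    have v₁' : c₁.reg 3 = 0 := by rw [show c₁.reg 3 = e.eval E σ from v₁]; exact hc
    have hat3 : At P (p + e.len + 1) _ := hat2.tail
    have hat4 := hat3.right.tail
    rw [comp_length] at hat4
    obtain ⟨c₂, t₂, b₂, r₂, p₂, S₂⟩ := ih (c := step w P E.ω c₁) hwf.2 hK.2.2 hat4
      (by simp only [step, h1, v₁', if_true, if_false]; omega)
      ((hS.keep k₁).keep (k := 0) (by simp only [step, h1]; exact ⟨fun _ _ => rfl, rfl, rfl⟩))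
    refine ⟨_, _, ?_, r₁.trans ((Reach.one _ _).trans r₂), ?_, S₂⟩
    · rw [Nat.mul_add]; omega
    · simp only [p₂, Stmt.len]; omega
  | @whF e s σ hs hc =>
    intro p c hwf hK hat hpc hS
    simp only [Stmt.wf, Bool.and_eq_true] at hwf
    simp only [Stmt.K, max_le_iff] at hK
    obtain ⟨c₁, r₁, p₁, v₁, k₁⟩ := compE_ok hE e hwf.1 hat.left hpc hS hs
    have hat2 := hat.right
    rw [compE_length] at hat2
    have h1 := hat2.head
    rw [← p₁] at h1
    have v₁' : c₁.reg 3 = 0 := by rw [show c₁.reg 3 = e.eval E σ from v₁]; exact hc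
    refine ⟨_, _, ?_, r₁.trans (Reach.one _ _), ?_, ?_⟩
    · omega
    · simp only [step, h1, v₁', if_true, Stmt.len]; omega
    · exact (hS.keep k₁).keep (k := 0) (by simp only [step, h1]; exact ⟨fun _ _ => rfl, rfl, rfl⟩)
  | @whT e s σ σ' σ'' t₁ t₂ hs hc h₁ h₂ ih₁ ih₂ =>
    intro p c hwf hK hat hpc hS
    have hwf' := hwf
    have hK' := hK
    simp only [Stmt.wf, Bool.and_eq_true] at hwf
    simp only [Stmt.K, max_le_iff] at hK
    obtain ⟨c₁, r₁, p₁, v₁, k₁⟩ := compE_ok hE e hwf.1 hat.left hpc hS hs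
    have hat2 := hat.right
    rw [compE_length] at hat2
    have h1 := hat2.head
    rw [← p₁] at h1
    have v₁' : c₁.reg 3 ≠ 0 := by rw [show c₁.reg 3 = e.eval E σ from v₁]; exact hc
    have hat3 : At P (p + e.len + 1) _ := hat2.tail
    obtain ⟨c₂, u₂, b₂, r₂, p₂, S₂⟩ := ih₁ (c := step w P E.ω c₁) hwf.2 hK.2 hat3.left
      (by simp only [step, h1, v₁', if_true, if_false]; omega)
      ((hS.keep k₁).keep (k := 0) (by simp only [step, h1]; exact ⟨fun _ _ => rfl, rfl, rfl⟩))
    have h2 := hat3.right.head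
    rw [comp_length, ← p₂] at h2
    obtain ⟨c₃, u₃, b₃, r₃, p₃, S₃⟩ := ih₂ (c := step w P E.ω c₂) hwf' hK' hat
      (by simp [step, h2])
      (S₂.keep (k := 0) (by simp only [step, h2]; exact ⟨fun _ _ => rfl, rfl, rfl⟩))
    refine ⟨_, _, ?_, r₁.trans ((Reach.one _ _).trans (r₂.trans ((Reach.one _ _).trans r₃))),
      p₃, S₃⟩
    rw [Nat.mul_add, Nat.mul_add]; omega

/-- The full machine program of a structured program. -/
def program (s : Stmt) : List Instr :=
  [.const 3 0, .load 1 3, .const 3 1, .op .add 1 1 3] ++ comp s 4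

/-- The environment of a run on input `xs`. -/
def envOf (w Lim : ℕ) (xs : List ℤ) (ω : ℕ → Bool) : Env where
  W := 2 ^ w
  Lim := Lim
  n1 := xs.length + 1
  inp := (start w xs).mem
  ω := ω

def St.zero : St := ⟨fun _ => 0, fun _ _ => 0, 0⟩

theorem step_halted {ω : ℕ → Bool} {c : Config} (h : P.length ≤ c.pc) (t : ℕ) :
    (step w P ω)^[t] c = c := by
  apply Function.iterate_fixed
  simp [step, List.getElem?_eq_none h]

theorem program_ok {s : Stmt} (hwf : s.wf = true) {Lim : ℕ} {xs : List ℤ} {ω : ℕ → Bool}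
    (h16 : 16 < 2 ^ w) (hLim : xs.length + 1 + Lim * 16 < 2 ^ w) {σ' : St} {t T : ℕ}
    (hx : Exec (envOf w Lim xs ω) s St.zero σ' t) (hT : s.K * t + 4 ≤ T) :
    (program s).length ≤ (run w (program s) ω xs T).pc ∧
      (run w (program s) ω xs T).reg 0 = σ'.var 0 := by
  have hE : EnvOK w (envOf w Lim xs ω) := by
    refine ⟨rfl, h16, hLim.le, fun a => ?_⟩
    simp only [envOf, start]
    split_ifs
    · exact Nat.mod_lt _ (by omega)
    · have h0 : (0 : ℤ) < 2 ^ w := by positivity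
      have h1 := Int.emod_lt_of_pos (xs.getD (a - 1) 0) h0
      have h2 := Int.emod_nonneg (xs.getD (a - 1) 0) h0.ne'
      zify
      rw [Int.toNat_of_nonneg h2]; exact h1
  have e0 : xs.length % 2 ^ w = xs.length := Nat.mod_eq_of_lt (by omega)
  have e1 : 1 % 2 ^ w = 1 := Nat.mod_eq_of_lt (by omega)
  have e2 : (xs.length + 1) % 2 ^ w = xs.length + 1 := Nat.mod_eq_of_lt (by omega)
  set c₀ := (step w (program s) ω)^[4] (start w xs) with hc₀
  have hc : c₀.pc = 4 ∧ c₀.mem = (start w xs).mem ∧ c₀.pos = 0 ∧ c₀.reg 1 = xs.length + 1 ∧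
      ∀ x, c₀.reg (2 * x) = 0 := by
    simp only [hc₀, Function.iterate_succ, Function.iterate_zero, Function.comp, id, step,
      program, start, List.cons_append, List.getElem?_cons_zero, List.getElem?_cons_succ,
      Nat.zero_add, Op.eval]
    refine ⟨trivial, trivial, trivial, by simp [e0, e1, e2], fun x => ?_⟩
    have : 2 * x ≠ 1 := by omega
    have : 2 * x ≠ 3 := by omega
    simp [*]
  have hS : Sim (envOf w Lim xs ω) St.zero c₀ := by
    refine ⟨fun x => hc.2.2.2.2 x, hc.2.2.2.1, fun b a hb => ?_, fun a _ => by rw [hc.2.1]; rfl,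
      hc.2.2.1, fun _ => by simp [St.zero, envOf], fun _ _ => by simp [St.zero, envOf]⟩
    rw [hc.2.1]
    simp only [start, envOf, St.zero]
    rw [if_neg (by omega), List.getD_eq_default _ _ (by omega)]
    simp
  have hat : At (program s) 4 (comp s 4) := by
    have : At (program s) 0 (program s) := fun i _ => by simp
    exact this.right
  obtain ⟨c', t', hb, hr, hp, hS'⟩ := hx.compile (P := program s) hE s.K hwf le_rfl hat hc.1 hS
  have hlen : (program s).length = 4 + s.len := by simp [program, comp_length]; omega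
  have hrun : run w (program s) ω xs T = c' := by
    obtain ⟨u, rfl⟩ : ∃ u, T = u + (t' + 4) := ⟨T - (t' + 4), by omega⟩
    unfold run
    rw [Function.iterate_add_apply, Function.iterate_add_apply, ← hc₀]
    have hr' : (step w (program s) ω)^[t'] c₀ = c' := hr
    rw [hr']
    exact step_halted (by omega) _
  rw [hrun]
  exact ⟨by omega, by simpa using hS'.var 0⟩

end Pool.Agent.P.MP_8f87b2_lc
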