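import Pool.Agent.P.MP_8f87b2_lc.Setup

/-!
# Soundness and completeness of the test
-/

namespace Pool.Agent.P.MP_8f87b2_lc

open Finset

variable {c : Ctx} {γ : ℕ}

/-- the colliding pairs in the output `g, g', j` -/
def Ctx.coll (c : Ctx) (R : ℕ → ℕ) (r u g g' j : ℕ) : Finset (Finset ℕ × ℕ × ℕ) :=
  ((range c.l).powersetCard c.h ×ˢ range c.n ×ˢ range c.n).filter fun q =>
    (¬ c.isC u q.2.1 ∧ c.γ r q.2.1 + side u q.2.1 * c.M =
      (R (c.l * 1024 + g) + Hn c R (msk c.l q.1 j)) % c.M) ∧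
    (¬ c.isC u q.2.2 ∧ c.γ r q.2.2 + side u q.2.2 * c.M =
      (R (c.l * 1024 + (c.G + g')) + Hn c R (msk c.l (range c.l \ q.1) j)) % c.M + c.M)

theorem Ctx.l_eq (c : Ctx) : c.l = 2 * c.h := by unfold Ctx.l Ctx.h; omega

theorem zval_coll (c : Ctx) (R : ℕ → ℕ) (r u : ℕ) {g : ℕ} (g' : ℕ) {j : ℕ} (hg : g < c.G)
    (hj : j ∈ J c.l) :
    zval (c.Pz R r u g g') c.l c.s j =
      ∑ q ∈ c.coll R r u g g' j, wt c.T (c.x q.2.1) * wt c.T (c.x q.2.2) := by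
  rw [mem_J] at hj
  have h := zval_eq (c.Xz R r u g) (c.Xz R r u (c.G + g')) c.s c.l_eq hj.1 hj.2
    (fun p hp => if_neg hp) (fun p hp => if_neg hp)
  refine Eq.trans h ?_
  rw [Ctx.coll, sum_filter, sum_product]
  refine sum_congr rfl fun S hS => ?_
  rw [mem_powersetCard] at hS
  have c1 : cnt c.l (msk c.l S j) = c.h := by rw [cnt_msk hj.2 hS.1, hS.2]
  have c2 : cnt c.l (msk c.l (range c.l \ S) j) = c.h := by
    rw [cnt_msk hj.2 sdiff_subset, card_sdiff_of_subset hS.1, card_range, hS.2]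
    have := c.l_eq
    omega
  rw [Ctx.Xz, Ctx.Xz, if_pos c1, if_pos c2, if_pos hg, if_neg (by omega), Ctx.WT, Ctx.WT,
    sum_mul_sum, sum_product]
  refine sum_congr rfl fun a _ => sum_congr rfl fun b _ => ?_
  simp only [add_zero, ite_zero_mul_ite_zero]

theorem test_iff (hS : Sz c γ) (hx : ∀ i < c.n, 4 * |c.x i| ≤ c.V) (R : ℕ → ℕ) (r u : ℕ)
    {g : ℕ} (g' : ℕ) {j i : ℕ} (hg : g < c.G) (hj : j ∈ J c.l) (hi : i < c.n) :
    c.test R r u g g' j i ↔ (c.coll R r u g g' j).Nonempty ∧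
      ∀ q ∈ c.coll R r u g g' j, c.x q.2.1 + c.x q.2.2 + c.x i = 0 := by
  have hcard : (c.coll R r u g g' j).card ≤ 2 ^ (230 * c.s) := by
    refine (card_filter_le _ _).trans ?_
    simp only [card_product, card_powersetCard, card_range]
    exact Sz.mul_bd (p := 20) (Nat.choose_le_two_pow _ _) (Sz.mul_bd hS.n_bd hS.n_bd)
  refine finger (c.coll R r u g g' j) (fun q => c.x q.2.1) (fun q => c.x q.2.2) (c.x i) c.T
    (2 ^ (230 * c.s)) c.V (by exact_mod_cast hcard) (fun q hq => ?_)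
    (by exact_mod_cast c.V_pos) ?_ _ (by rw [zval_coll c R r u g' hg hj, sum_mul])
  · simp only [Ctx.coll, mem_filter, mem_product, mem_range] at hq
    have := hx _ hq.1.2.1
    have := hx _ hq.1.2.2
    have := hx _ hi
    have := abs_add_three (c.x q.2.1) (c.x q.2.2) (c.x i)
    have := abs_nonneg (c.x i)
    linarith
  · have h1 := hS.lt_bd (Sz.mul_bd (Sz.mul_bd (hS.const_bd (a := 8) (p := 3) (by norm_num))
      (le_refl (2 ^ (230 * c.s)))) (Sz.mul_bd hS.V_bd hS.V_bd)) (show _ < 1200 by norm_num)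
    have h2 : 0 < 8 * 2 ^ (230 * c.s) * (c.V * c.V) := by have := c.V_pos; positivity
    have h3 : 8 * 2 ^ (230 * c.s) * (c.V * c.V) < c.T := by unfold Ctx.T; omega
    rw [sq]
    exact_mod_cast h3

theorem side_le (u i : ℕ) : side u i = 0 ∨ side u i = 1 := by unfold side; omega

theorem sound (hS : Sz c γ) (hx : ∀ i < c.n, 4 * |c.x i| ≤ c.V) {R : ℕ → ℕ} {r : ℕ}
    (h : c.Found R r) : ∃ a < c.n, ∃ b < c.n, ∃ i < c.n, a ≠ b ∧ a ≠ i ∧ b ≠ i ∧
      c.x a + c.x b + c.x i = 0 := by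
  obtain ⟨u, g, g', j, i, hg, -, hj, hi, hC, ht⟩ := h
  obtain ⟨⟨q, hq⟩, h0⟩ := (test_iff hS hx R r u g' hg hj hi).mp ht
  have h1 := h0 q hq
  simp only [Ctx.coll, mem_filter, mem_product, mem_range] at hq
  obtain ⟨⟨-, ha, hb⟩, ⟨a1, a2⟩, b1, b2⟩ := hq
  refine ⟨_, ha, _, hb, i, hi, fun e => ?_, fun e => a1 (e ▸ hC), fun e => b1 (e ▸ hC), h1⟩
  rw [e] at a2
  have := Nat.mod_lt (R (c.l * 1024 + g) + Hn c R (msk c.l q.1 j)) c.M_pos
  omega

section translate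

variable {R : ℕ → ℕ} {Rz : ℕ → ZMod c.M} (hR : ∀ i < c.nR, (R i : ZMod c.M) = Rz i)

include hR

theorem cast_Hn (p : ℕ) : (Hn c R p : ZMod c.M) = Hf c.l Rz p := by
  rw [Hn, ZMod.natCast_mod, Hf, Hf, Nat.cast_sum]
  refine sum_congr rfl fun t ht => hR _ ?_
  have := dig_lt t p
  have := mem_range.mp ht
  unfold Ctx.nR
  omega

theorem key_iff {o : ℕ} (ho : o < 2 * c.G) (p r a : ℕ) :
    c.γ r a = (R (c.l * 1024 + o) + Hn c R p) % c.M ↔ kv c.l o p Rz = gz c.M c.V r c.x a := by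
  rw [kv, ← hR _ (by unfold Ctx.nR; omega), ← cast_Hn hR, ← Nat.cast_add, gz,
    ZMod.natCast_eq_natCast_iff', Nat.mod_eq_of_lt (gam_lt c.M_pos c.V_pos _ _), eq_comm]
  rfl

theorem need_iff (hlt : ∀ i < c.nR, R i < c.M) {g m : ℕ} (hg : g < c.G) (hm : c.eg m < c.G)
    (r j : ℕ) : c.vn R r m = c.qn R g j ↔
      need c.l c.G (gz c.M c.V r c.x) (g, j, c.eg m, c.ei m, m % 3) Rz := by
  have h1 := hlt (c.l * 1024 + g) (by unfold Ctx.nR; omega)
  have h2 := Hn_lt c R j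
  have h3 := Hn_lt c R 0
  rw [Ctx.vn, Ctx.qn, ← ZMod.natCast_eq_natCast_iff', Nat.cast_sub (by omega)]
  push_cast
  rw [ZMod.natCast_self, cast_Hn hR, cast_Hn hR, hR _ (by unfold Ctx.nR; omega),
    hR _ (by unfold Ctx.nR; omega)]
  simp only [need, kv, gz, Ctx.γ, mul_zero, zero_sub]

theorem cum_le (hlt : ∀ i < c.nR, R i < c.M) (r : ℕ) :
    c.cum R r c.G ≤ nneed c.l c.G c.n (gz c.M c.V r c.x) Rz := by
  classical
  have h1 : c.cum R r c.G = ((range c.G ×ˢ J c.l ×ˢ range (c.G * c.n * 3)).filter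
      fun q => c.vn R r q.2.2 = c.qn R q.1 q.2.1).card := by
    rw [card_filter, sum_product, Ctx.cum]
    refine sum_congr rfl fun a _ => ?_
    rw [sum_product, J, sum_filter]
    refine sum_congr rfl fun j _ => ?_
    rw [Ctx.qw, Ctx.qlen, length_Lst, card_filter]
  rw [h1, nneed]
  refine card_le_card_of_injOn (fun q => (q.1, q.2.1, c.eg q.2.2, c.ei q.2.2, q.2.2 % 3)) ?_ ?_
  · rintro ⟨g, j, m⟩ hq
    simp only [coe_filter, mem_product, mem_range, Set.mem_ofPred_eq] at hq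
    obtain ⟨⟨hg, hj, hm⟩, hq⟩ := hq
    have hn : 0 < c.n := Nat.pos_of_ne_zero fun h => by simp [h] at hm
    have he : c.eg m < c.G := by
      rw [Ctx.eg, Nat.div_lt_iff_lt_mul hn]; omega
    simp only [coe_filter, Nd, mem_product, mem_range, Set.mem_ofPred_eq]
    exact ⟨⟨hg, hj, he, Nat.mod_lt _ hn, Nat.mod_lt _ (by norm_num)⟩,
      (need_iff hR hlt hg he r j).mp hq⟩
  · rintro ⟨g, j, m⟩ - ⟨g', j', m'⟩ - h
    simp only [Prod.mk.injEq, Ctx.eg, Ctx.ei] at h ⊢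
    obtain ⟨h1, h2, h3, h4, h5⟩ := h
    refine ⟨h1, h2, ?_⟩
    have a := Nat.div_add_mod (m / 3) c.n
    have b := Nat.div_add_mod (m' / 3) c.n
    rw [h3, h4] at a
    omega

theorem complete (hS : Sz c γ) (hx : ∀ i < c.n, 4 * |c.x i| ≤ c.V)
    (hlt : ∀ i < c.nR, R i < c.M) {r u ia ib ic : ℕ} (ha : ia < c.n) (hb : ib < c.n)
    (hc : ic < c.n) (h0 : c.x ia + c.x ib + c.x ic = 0) (ca : ¬ c.isC u ia) (cb : ¬ c.isC u ib)
    (cc : c.isC u ic) (sa : side u ia = 0) (sb : side u ib = 1)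
    (hG : Good c.l c.h c.G c.n c.Bud (gz c.M c.V r c.x) c.x ia ib Rz) :
    c.cum R r c.G * c.M ≤ c.Bud ∧ ∃ g < c.G, ∃ j ∈ J c.l, c.Hit R r u g j := by
  obtain ⟨⟨⟨g, g', j, S⟩, he, hcov, hcl⟩, hB⟩ := hG
  refine ⟨(Nat.mul_le_mul_right _ (cum_le hR hlt r)).trans hB, ?_⟩
  simp only [mem_Ev] at he
  obtain ⟨hg, hg', hj, hS1, hS2⟩ := he
  have hj' := mem_J.mpr hj
  obtain ⟨κ, hκ, hsum⟩ := gam_sum c.M_pos c.V_pos r h0
  have e1 : ((g' * c.n + ic) * 3 + κ) / 3 = g' * c.n + ic := by omega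
  have eg : c.eg ((g' * c.n + ic) * 3 + κ) = g' := by
    rw [Ctx.eg, e1, add_comm, Nat.add_mul_div_right _ _ (by omega), Nat.div_eq_of_lt hc, zero_add]
  have ei : c.ei ((g' * c.n + ic) * 3 + κ) = ic := by
    rw [Ctx.ei, e1, add_comm, Nat.add_mul_mod_self_right, Nat.mod_eq_of_lt hc]
  have h1 := mul_add_lt hg' hc
  refine ⟨g, hg, j, hj', (g' * c.n + ic) * 3 + κ, by omega, ?_, by rwa [ei], ?_⟩
  · rw [need_iff hR hlt hg (by rwa [eg]), eg, ei, show ((g' * c.n + ic) * 3 + κ) % 3 = κ by omega]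
    have := cov_total hcov
    simp only [need, gz] at this ⊢
    linear_combination hsum - this
  · rw [eg, ei, test_iff hS hx R r u g' hg hj' hc]
    refine ⟨⟨(S, ia, ib), ?_⟩, fun q hq => ?_⟩
    · simp only [Ctx.coll, mem_filter, mem_product, mem_range, mem_powersetCard, sa, sb]
      refine ⟨⟨⟨hS1, hS2⟩, ha, hb⟩, ⟨ca, ?_⟩, cb, ?_⟩
      · rw [zero_mul, add_zero, key_iff hR (by omega)]; exact hcov.1
      · rw [one_mul, Nat.add_right_cancel_iff, key_iff hR (by omega)]; exact hcov.2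
    · simp only [Ctx.coll, mem_filter, mem_product, mem_range] at hq
      obtain ⟨⟨q1, q2, q3⟩, ⟨-, a2⟩, -, b2⟩ := hq
      have m1 := Nat.mod_lt (R (c.l * 1024 + g) + Hn c R (msk c.l q.1 j)) c.M_pos
      have m2 := c.γ_lt r q.2.2
      have m3 := Nat.mod_lt (R (c.l * 1024 + (c.G + g')) +
        Hn c R (msk c.l (range c.l \ q.1) j)) c.M_pos
      have k1 : c.γ r q.2.1 = (R (c.l * 1024 + g) + Hn c R (msk c.l q.1 j)) % c.M := by
        rcases side_le u q.2.1 with h | h <;> rw [h] at a2 <;> omega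
      have k2 : c.γ r q.2.2 = (R (c.l * 1024 + (c.G + g')) +
          Hn c R (msk c.l (range c.l \ q.1) j)) % c.M := by
        rcases side_le u q.2.2 with h | h <;> rw [h] at b2 <;> omega
      rw [hcl _ q2 _ q3 _ q1 ⟨(key_iff hR (show g < 2 * c.G by omega) _ _ _).mp k1,
        (key_iff hR (show c.G + g' < 2 * c.G by omega) _ _ _).mp k2⟩, h0]

end translate

theorem exists_bit {a b K : ℕ} (ha : a < 2 ^ K) (hb : b < 2 ^ K) (h : a ≠ b) :
    ∃ t < K, a / 2 ^ t % 2 ≠ b / 2 ^ t % 2 := by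
  by_contra hc
  push Not at hc
  refine h (Nat.eq_of_testBit_eq fun t => ?_)
  by_cases ht : t < K
  · rw [Nat.testBit_eq_decide_div_mod_eq, Nat.testBit_eq_decide_div_mod_eq, hc t ht]
  · have : 2 ^ K ≤ 2 ^ t := Nat.pow_le_pow_right (by norm_num) (by omega)
    rw [Nat.testBit_eq_false_of_lt (by omega), Nat.testBit_eq_false_of_lt (by omega)]

theorem exists_inst (hS : Sz c γ) {a b i : ℕ} (ha : a < c.n) (hb : b < c.n)
    (hab : a ≠ b) (h1 : c.neg a ≠ c.neg i) (h2 : c.neg b ≠ c.neg i) :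
    ∃ u < 220 * c.s, ¬ c.isC u a ∧ ¬ c.isC u b ∧ c.isC u i ∧ side u a ≠ side u b := by
  have hn := hS.n_bd
  obtain ⟨t, ht, hd⟩ := exists_bit (K := 105 * c.s) (a := a) (b := b) (by omega) (by omega) hab
  have b1 : ∀ j, c.neg j ≤ 1 := fun j => by unfold Ctx.neg; split_ifs <;> omega
  have := b1 a
  have := b1 b
  have := b1 i
  refine ⟨2 * t + c.neg i, by omega, by unfold Ctx.isC; omega, by unfold Ctx.isC; omega,
    by unfold Ctx.isC; omega, ?_⟩
  unfold side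
  rwa [show (2 * t + c.neg i) / 2 = t by omega]

/-- every solution is split by some instance -/
theorem exists_split (hS : Sz c γ) {a b i : ℕ} (ha : a < c.n) (hb : b < c.n) (hi : i < c.n)
    (hab : a ≠ b) (hai : a ≠ i) (hbi : b ≠ i) (hx : c.x a ≠ c.x b)
    (h0 : c.x a + c.x b + c.x i = 0) :
    ∃ u < 220 * c.s, ∃ ia < c.n, ∃ ib < c.n, ∃ ic < c.n, c.x ia + c.x ib + c.x ic = 0 ∧
      ¬ c.isC u ia ∧ ¬ c.isC u ib ∧ c.isC u ic ∧ side u ia = 0 ∧ side u ib = 1 := by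
  have key : ∀ a b i, a < c.n → b < c.n → i < c.n → a ≠ b → c.neg a ≠ c.neg i →
      c.neg b ≠ c.neg i → c.x a + c.x b + c.x i = 0 →
      ∃ u < 220 * c.s, ∃ ia < c.n, ∃ ib < c.n, ∃ ic < c.n, c.x ia + c.x ib + c.x ic = 0 ∧
      ¬ c.isC u ia ∧ ¬ c.isC u ib ∧ c.isC u ic ∧ side u ia = 0 ∧ side u ib = 1 := by
    intro a b i ha hb hi hab h1 h2 h0
    obtain ⟨u, hu, c1, c2, c3, c4⟩ := exists_inst hS ha hb hab h1 h2
    rcases side_le u a with h | h
    · exact ⟨u, hu, a, ha, b, hb, i, hi, h0, c1, c2, c3, h, by have := side_le u b; omega⟩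
    · exact ⟨u, hu, b, hb, a, ha, i, hi, by linarith, c2, c1, c3,
        by have := side_le u b; omega, h⟩
  by_cases h1 : c.neg a = c.neg b
  · refine key a b i ha hb hi hab ?_ ?_ h0 <;>
      (unfold Ctx.neg at h1 ⊢; split_ifs at h1 ⊢ <;> omega)
  · by_cases h2 : c.neg a = c.neg i
    · exact key a i b ha hi hb hai h1 (h2 ▸ h1) (by linarith)
    · refine key b i a hb hi ha hbi (Ne.symm h1) (Ne.symm h2) (by linarith)

theorem good_hyp (hS : Sz c γ) (hx : ∀ i < c.n, 4 * |c.x i| ≤ c.V) {ia ib : ℕ} (ha : ia < c.n)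
    (hb : ib < c.n) :
    2 * (c.M * c.V * c.M ^ c.nR) ≤ 3 * ∑ r ∈ range (c.M * c.V),
      num c.nR (Good c.l c.h c.G c.n c.Bud (gz c.M c.V r c.x) c.x ia ib) := by
  have h10 := hS.h10
  have hM1 := hS.M1
  have hG1 := hS.G1
  have hG2 := hS.G2
  have hnN := hS.nN
  have hG0 := hS.G_pos
  have hNe := Sz.N_eq c
  have hN0 : 0 < c.N := by rw [hNe]; positivity
  have hch : c.l.choose c.h ≤ 2 ^ c.h * 2 ^ c.h := by
    rw [← pow_add, ← two_mul, ← c.l_eq]; exact Nat.choose_le_two_pow _ _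
  have hch2 : 2 ^ c.h * 2 ^ c.h ≤ 2 * c.h * c.l.choose c.h := by
    rw [← mul_pow, c.l_eq, ← Nat.centralBinom_eq_two_mul_choose]
    exact Nat.four_pow_le_two_mul_self_mul_centralBinom _ (by omega)
  have h2h : 40 * c.h ≤ 2 ^ c.h := by
    obtain ⟨d, hd⟩ := Nat.exists_eq_add_of_le h10
    have := Nat.lt_two_pow_self (n := d)
    rw [hd, pow_add]
    omega
  have h2N : 2 ^ c.h ≤ c.N := by rw [hNe]; exact Nat.pow_le_pow_left (by norm_num) _
  have hl2 : 1023 ^ c.l = 1023 ^ c.h * 1023 ^ c.h := by rw [c.l_eq, two_mul, pow_add]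
  rw [show 2046 = 1023 * 2 from rfl, mul_pow, ← mul_assoc] at hG1 hG2
  have hBud : c.Bud = 60 * c.N * c.G * c.G * 1023 ^ c.l := rfl
  have hP0 : 0 < 2 ^ c.h := by positivity
  have hNP : 0 < c.N * 2 ^ c.h := by positivity
  have hM3 : 2000 * (c.N * 2 ^ c.h) ≤ c.M := by nlinarith
  refine good_count c.x ha hb c.l_eq (by omega) c.V_pos hx ?_ ?_ ?_ ?_ ?_ ?_
  · have a1 : c.G * 1023 ^ c.h * (40 * c.h) ≤ 10 * c.h * c.M :=
      (Nat.mul_le_mul_left _ h2h).trans hG2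
    have a2 : c.G * 1023 ^ c.h * 4 ≤ c.M := by
      refine Nat.le_of_mul_le_mul_right ?_ (show 0 < 10 * c.h by omega)
      linarith
    have a3 : 2 ^ c.h * 2 ^ c.h ≤ c.N * 2 ^ c.h := Nat.mul_le_mul_right _ h2N
    linarith
  · rw [card_Ev, hl2]
    generalize c.l.choose c.h = C at *
    generalize 2 ^ c.h = P at *
    have a1 : (5 * c.h * c.M) * (5 * c.h * c.M) ≤
        (c.G * 1023 ^ c.h * P) * (c.G * 1023 ^ c.h * P) := Nat.mul_le_mul hG1 hG1
    have a2 : (c.G * 1023 ^ c.h) * (c.G * 1023 ^ c.h) * (P * P) ≤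
        (c.G * 1023 ^ c.h) * (c.G * 1023 ^ c.h) * (2 * c.h * C) := Nat.mul_le_mul_left _ hch2
    refine Nat.le_of_mul_le_mul_right ?_ (show 0 < 2 * c.h by omega)
    have a3 : 200 * (c.h * c.M ^ 2) ≤ 25 * c.h * (c.h * c.M ^ 2) :=
      Nat.mul_le_mul_right _ (by omega)
    linarith
  · rw [hBud]
    gcongr
  · rw [hBud]; positivity
  · have : 2 ^ 1 ≤ 2 ^ c.h := Nat.pow_le_pow_right (by norm_num) (by omega)
    nlinarith
  · rw [card_Ev, hl2]
    generalize c.l.choose c.h = C at *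
    generalize 2 ^ c.h = P at *
    have a1 : (c.G * 1023 ^ c.h * P) * (c.G * 1023 ^ c.h * P) ≤
        (10 * c.h * c.M) * (10 * c.h * c.M) := Nat.mul_le_mul hG2 hG2
    have a2 : (200 * c.h * c.N * P) * (200 * c.h * c.N * P) ≤ c.M * c.M := Nat.mul_le_mul hM1 hM1
    calc 120 * (c.G * c.G * (1023 ^ c.h * 1023 ^ c.h) * C) * C * c.n ^ 2
        ≤ 120 * (c.G * c.G * (1023 ^ c.h * 1023 ^ c.h) * (P * P)) * (P * P) * c.N ^ 2 := by
          gcongr
      _ = 120 * ((c.G * 1023 ^ c.h * P) * (c.G * 1023 ^ c.h * P)) * (P * P) * c.N ^ 2 := by ring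
      _ ≤ 400 * ((10 * c.h * c.M) * (10 * c.h * c.M)) * (P * P) * c.N ^ 2 := by gcongr; norm_num
      _ = (200 * c.h * c.N * P) * (200 * c.h * c.N * P) * c.M ^ 2 := by ring
      _ ≤ c.M * c.M * c.M ^ 2 := Nat.mul_le_mul_right _ a2
      _ = c.M ^ 4 := by ring

end Pool.Agent.P.MP_8f87b2_lc
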