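import Mathlib

/-!
# The fingerprint weights and the multiply-shift hash
-/

namespace Pool.Agent.P.MP_8f87b2_lc

open Finset

/-- truncated exponential weight -/
def wt (T x : ℤ) : ℤ := 2 + 2 * x * T + x * x * (T * T)

theorem wt_mul (T a b c : ℤ) : ∃ k, wt T a * wt T b * wt T c =
    8 + 8 * (a + b + c) * T + 4 * (a + b + c) ^ 2 * T ^ 2 + T ^ 3 * k := by
  refine ⟨8 * a * b * c + 4 * (a * a * b + a * a * c + b * b * a + b * b * c + c * c * a + c * c * b)
    + T * (2 * (a * a * b * b + a * a * c * c + b * b * c * c) + 4 * a * b * c * (a + b + c))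
    + T ^ 2 * (2 * a * b * c * (a * b + b * c + a * c)) + T ^ 3 * (a * b * c) ^ 2, ?_⟩
  unfold wt; ring

theorem finger {ι : Type*} (C : Finset ι) (a b : ι → ℤ) (c T N e : ℤ)
    (hN : (C.card : ℤ) ≤ N) (he : ∀ i ∈ C, |a i + b i + c| ≤ e) (he1 : 1 ≤ e)
    (hT : 8 * N * e ^ 2 < T) (y : ℤ)
    (hy : y = (∑ i ∈ C, wt T (a i) * wt T (b i) * wt T c) % T ^ 3) :
    (0 < y ∧ y < T) ↔ (C.Nonempty ∧ ∀ i ∈ C, a i + b i + c = 0) := by
  have hc0 : (0 : ℤ) ≤ C.card := Nat.cast_nonneg _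
  have hN0 : 0 ≤ N := hc0.trans hN
  have he2 : e ≤ e ^ 2 := by nlinarith
  have he3 : 1 ≤ e ^ 2 := he1.trans he2
  have hNT : 8 * (C.card : ℤ) < T := by nlinarith
  have hT0 : 0 < T := by linarith
  set E1 := ∑ i ∈ C, (a i + b i + c) with hE1
  set E2 := ∑ i ∈ C, (a i + b i + c) ^ 2 with hE2
  obtain ⟨k, hk⟩ : ∃ k, ∑ i ∈ C, wt T (a i) * wt T (b i) * wt T c =
      8 * (C.card : ℤ) + 8 * E1 * T + 4 * E2 * T ^ 2 + T ^ 3 * k := by
    choose k hk using fun i => wt_mul T (a i) (b i) c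
    refine ⟨∑ i ∈ C, k i, ?_⟩
    rw [sum_congr rfl fun i _ => hk i]
    simp only [sum_add_distrib, hE1, hE2, mul_sum, sum_mul, sum_const, nsmul_eq_mul, mul_add,
      add_mul]
    ring
  have hb1 : |E1| ≤ N * e := by
    refine (abs_sum_le_sum_abs _ _).trans ((sum_le_card_nsmul _ _ _ he).trans ?_)
    rw [nsmul_eq_mul]; nlinarith
  have hb2 : E2 ≤ N * e ^ 2 := by
    refine (sum_le_card_nsmul _ _ (e ^ 2) fun i hi => ?_).trans ?_
    · rw [← sq_abs]; exact pow_le_pow_left₀ (abs_nonneg _) (he i hi) 2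
    · rw [nsmul_eq_mul]; nlinarith
  have hb3 : 0 ≤ E2 := sum_nonneg fun i _ => sq_nonneg _
  rw [hk, Int.add_mul_emod_self_left] at hy
  constructor
  · rintro ⟨h0, h1⟩
    obtain ⟨q, hq⟩ : T ^ 3 ∣ 8 * (C.card : ℤ) + 8 * E1 * T + 4 * E2 * T ^ 2 - y := by
      rw [hy]; exact Int.dvd_self_sub_emod
    have d1 : T ∣ 8 * (C.card : ℤ) - y := ⟨T ^ 2 * q - 8 * E1 - 4 * E2 * T, by linarith⟩
    have z1 : 8 * (C.card : ℤ) - y = 0 :=
      Int.eq_zero_of_abs_lt_dvd d1 (abs_lt.mpr ⟨by linarith, by linarith⟩)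
    have q2 : 8 * E1 + 4 * E2 * T = T ^ 2 * q := by
      apply mul_left_cancel₀ hT0.ne'; linarith
    have d2 : T ∣ 8 * E1 := ⟨T * q - 4 * E2, by linarith⟩
    have z2 : 8 * E1 = 0 := by
      refine Int.eq_zero_of_abs_lt_dvd d2 ?_
      rw [abs_mul, show |(8 : ℤ)| = 8 by norm_num]; nlinarith
    have q3 : 4 * E2 = T * q := by
      apply mul_left_cancel₀ hT0.ne'; linarith
    have z3 : 4 * E2 = 0 :=
      Int.eq_zero_of_abs_lt_dvd ⟨q, q3⟩ (abs_lt.mpr ⟨by linarith, by nlinarith⟩)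
    refine ⟨card_pos.mp (by zify; linarith), fun i hi => ?_⟩
    have : E2 = 0 := by linarith
    rw [hE2, sum_eq_zero_iff_of_nonneg fun i _ => sq_nonneg _] at this
    exact pow_eq_zero_iff (two_ne_zero) |>.mp (this i hi)
  · rintro ⟨h0, h1⟩
    have z1 : E1 = 0 := sum_eq_zero h1
    have z2 : E2 = 0 := sum_eq_zero fun i hi => by rw [h1 i hi]; ring
    have hc : (0 : ℤ) < C.card := by exact_mod_cast card_pos.mpr h0
    have hT3 : T ≤ T ^ 3 := by nlinarith [sq_nonneg (T - 1), mul_pos hT0 hT0]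
    rw [z1, z2] at hy
    simp only [mul_zero, zero_mul, add_zero] at hy
    rw [Int.emod_eq_of_lt (by linarith) (by linarith)] at hy
    exact ⟨by linarith, by linarith⟩

/-- multiply-shift hash: the top part of `r x mod M V` -/
def gam (M V r : ℕ) (x : ℤ) : ℕ := ((r * x) % (M * V : ℕ)).toNat / V

theorem gam_lt {M V : ℕ} (hM : 0 < M) (hV : 0 < V) (r : ℕ) (x : ℤ) : gam M V r x < M := by
  unfold gam
  have h0 : (0 : ℤ) < (M * V : ℕ) := by positivity
  have h1 := Int.emod_lt_of_pos (r * x) h0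
  have h2 := Int.emod_nonneg (r * x) h0.ne'
  rw [Nat.div_lt_iff_lt_mul hV]
  omega

theorem gam_spec {M V : ℕ} (hM : 0 < M) (hV : 0 < V) (r : ℕ) (x : ℤ) :
    ∃ lo k : ℤ, 0 ≤ lo ∧ lo < V ∧ r * x = gam M V r x * V + lo + M * V * k := by
  have h0 : (0 : ℤ) < (M * V : ℕ) := by positivity
  have h2 := Int.emod_nonneg (r * x) h0.ne'
  have h3 := Int.emod_add_mul_ediv (r * x) (M * V : ℕ)
  have h4 := Nat.div_add_mod ((r * x) % (M * V : ℕ)).toNat V
  refine ⟨(((r * x) % (M * V : ℕ)).toNat % V : ℕ), (r * x) / (M * V : ℕ), Nat.cast_nonneg _,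
    by exact_mod_cast Nat.mod_lt _ hV, ?_⟩
  unfold gam
  generalize hz : ((r * x) % (M * V : ℕ)).toNat = z at h4
  have hz' : (z : ℤ) = (r * x) % (M * V : ℕ) := by rw [← hz, Int.toNat_of_nonneg h2]
  have h5 : (V : ℤ) * (z / V : ℕ) + (z % V : ℕ) = z := by exact_mod_cast h4
  have h6 : ((M * V : ℕ) : ℤ) = M * V := by push_cast; rfl
  rw [← hz'] at h3
  rw [← h6]
  linarith

theorem gam_sum {M V : ℕ} (hM : 0 < M) (hV : 0 < V) (r : ℕ) {a b c : ℤ} (h : a + b + c = 0) :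
    ∃ κ : ℕ, κ < 3 ∧
      ((gam M V r a : ZMod M) + gam M V r b + gam M V r c + κ = 0) := by
  obtain ⟨la, ka, a1, a2, a3⟩ := gam_spec hM hV r a
  obtain ⟨lb, kb, b1, b2, b3⟩ := gam_spec hM hV r b
  obtain ⟨lc, kc, c1, c2, c3⟩ := gam_spec hM hV r c
  have hV' : (0 : ℤ) < V := by exact_mod_cast hV
  set κ : ℤ := -((gam M V r a : ℤ) + gam M V r b + gam M V r c + M * (ka + kb + kc)) with hκ
  have e : κ * V = la + lb + lc := by
    have : (r : ℤ) * a + r * b + r * c = 0 := by rw [← mul_add, ← mul_add, h, mul_zero]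
    rw [hκ]; linarith
  have k0 : 0 ≤ κ := by by_contra h1; nlinarith
  have k3 : κ < 3 := by by_contra h1; nlinarith
  refine ⟨κ.toNat, by omega, ?_⟩
  have : (((gam M V r a : ℤ) + gam M V r b + gam M V r c + (κ.toNat : ℕ) : ℤ) : ZMod M) = 0 := by
    rw [ZMod.intCast_zmod_eq_zero_iff_dvd, Int.toNat_of_nonneg k0]
    exact ⟨-(ka + kb + kc), by rw [hκ]; ring⟩
  exact_mod_cast this

open Classical in
theorem window_pos {Wd V : ℕ} (hW : 2 * V ≤ Wd) {f : ℤ} (hf : 0 < f) (hfV : f ≤ V) :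
    ((range Wd).filter fun r : ℕ => ∃ y k : ℤ, |y| < 2 * V ∧ r * f = y + Wd * k).card ≤ 12 * V := by
  obtain ⟨g, rfl⟩ : ∃ g : ℕ, f = g := ⟨f.toNat, by omega⟩
  have hg : 0 < g := by exact_mod_cast hf
  have hgV : g ≤ V := by exact_mod_cast hfV
  have hW0 : (0 : ℤ) < Wd := by exact_mod_cast (by omega : 0 < Wd)
  have hW' : 2 * (V : ℤ) ≤ Wd := by exact_mod_cast hW
  have sub : ((range Wd).filter fun r : ℕ => ∃ y k : ℤ, |y| < 2 * V ∧ r * (g : ℤ) = y + Wd * k) ⊆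
      (range (g + 1)).biUnion fun k => Icc ((Wd * k - 2 * V) / g) ((Wd * k + 2 * V) / g) := by
    intro r hr
    simp only [mem_filter, mem_range] at hr
    obtain ⟨hr, y, k, hy, e⟩ := hr
    rw [abs_lt] at hy
    have hr' : (r : ℤ) < Wd := by exact_mod_cast hr
    have hr0 : (0 : ℤ) ≤ r * g := by positivity
    have k0 : 0 ≤ k := by by_contra h1; nlinarith
    have k1 : k < g + 1 := by by_contra h1; nlinarith
    obtain ⟨k, rfl⟩ : ∃ k' : ℕ, k = k' := ⟨k.toNat, by omega⟩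
    simp only [mem_biUnion, mem_range, mem_Icc]
    refine ⟨k, by exact_mod_cast k1, ?_, ?_⟩
    · apply Nat.div_le_of_le_mul
      have : (Wd * k : ℤ) ≤ g * r + 2 * V := by linarith
      have : Wd * k ≤ g * r + 2 * V := by exact_mod_cast this
      omega
    · rw [Nat.le_div_iff_mul_le hg]
      have : (r * g : ℤ) ≤ Wd * k + 2 * V := by linarith
      exact_mod_cast this
  refine (card_le_card sub).trans ((card_biUnion_le_card_mul _ _ (4 * V / g + 2) ?_).trans ?_)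
  · intro k _
    rw [Nat.card_Icc]
    have h1 : (Wd * k + 2 * V) / g ≤ (Wd * k - 2 * V) / g + 4 * V / g + 1 := by
      calc (Wd * k + 2 * V) / g ≤ ((Wd * k - 2 * V) + 4 * V) / g := Nat.div_le_div_right (by omega)
        _ ≤ _ := by rw [Nat.add_div hg]; split_ifs <;> omega
    generalize (Wd * k + 2 * V) / g = x at *
    generalize (Wd * k - 2 * V) / g = y at *
    generalize 4 * V / g = z at *
    omega
  · rw [card_range]
    have h1 : 4 * V / g * g ≤ 4 * V := Nat.div_mul_le_self _ _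
    have h2 : 4 * V / g ≤ 4 * V := Nat.div_le_self _ _
    nlinarith

theorem gam_coll {M V : ℕ} (hM : 2 ≤ M) (hV : 0 < V) {a b a' b' : ℤ}
    (hf : a' + b' - a - b ≠ 0) (hfV : |a' + b' - a - b| ≤ V) :
    ((range (M * V)).filter fun r : ℕ =>
      (gam M V r a' : ZMod M) + gam M V r b' = gam M V r a + gam M V r b).card ≤ 12 * V := by
  classical
  have hM0 : 0 < M := by omega
  refine le_trans (card_le_card fun r hr => ?_)
    (window_pos (Wd := M * V) (Nat.mul_le_mul_right _ hM) (abs_pos.mpr hf) hfV)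
  simp only [mem_filter] at hr ⊢
  refine ⟨hr.1, ?_⟩
  obtain ⟨la, ka, a1, a2, a3⟩ := gam_spec hM0 hV r a
  obtain ⟨lb, kb, b1, b2, b3⟩ := gam_spec hM0 hV r b
  obtain ⟨la', ka', a1', a2', a3'⟩ := gam_spec hM0 hV r a'
  obtain ⟨lb', kb', b1', b2', b3'⟩ := gam_spec hM0 hV r b'
  have h1 : (((gam M V r a' : ℤ) + gam M V r b' - gam M V r a - gam M V r b : ℤ) : ZMod M) = 0 := by
    push_cast; rw [hr.2]; ring
  rw [ZMod.intCast_zmod_eq_zero_iff_dvd] at h1
  obtain ⟨m, hm⟩ := h1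
  have e : (r : ℤ) * (a' + b' - a - b) =
      (la' + lb' - la - lb) + (M * V : ℕ) * (m + ka' + kb' - ka - kb) := by
    have : ((gam M V r a' : ℤ) + gam M V r b' - gam M V r a - gam M V r b) * V = M * m * V := by
      rw [hm]
    push_cast; linarith
  rcases abs_choice (a' + b' - a - b) with h | h
  · exact ⟨la' + lb' - la - lb, _, abs_lt.mpr ⟨by linarith, by linarith⟩, by rw [h]; exact e⟩
  · refine ⟨-(la' + lb' - la - lb), -(m + ka' + kb' - ka - kb),
      abs_lt.mpr ⟨by linarith, by linarith⟩, ?_⟩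
    rw [h]; linarith

end Pool.Agent.P.MP_8f87b2_lc
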