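import Pool.Agent.P.MP_8f87b2_lc.Forms
import Pool.Agent.P.MP_8f87b2_lc.Hash

/-!
# The probability that a fixed solution is covered by a clean output
-/

namespace Pool.Agent.P.MP_8f87b2_lc

open Finset

/-- blank-free strings -/
def J (l : ℕ) : Finset ℕ := (range (1024 ^ l)).filter fun j => cnt l j = 0

theorem mem_J {l j : ℕ} : j ∈ J l ↔ j < 1024 ^ l ∧ cnt l j = 0 := by simp [J]

theorem card_agree {l : ℕ} {S : Finset ℕ} (hS : S ⊆ range l) (j : ℕ) :
    ((J l).filter fun j' => msk l S j' = msk l S j).card ≤ 1023 ^ S.card := by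
  have h := sum_prod_dig (R := ℕ)
    (fun t d => if t ∈ S then (if d = 0 then 0 else 1) else (if d = dig t j then 1 else 0)) l
  have h2 : ∏ t ∈ range l, ∑ d ∈ range 1024,
      (if t ∈ S then (if d = 0 then 0 else 1) else (if d = dig t j then 1 else 0)) =
      1023 ^ S.card := by
    have : ∀ t ∈ range l, ∑ d ∈ range 1024,
        (if t ∈ S then (if d = 0 then 0 else 1) else (if d = dig t j then 1 else 0)) =
        if t ∈ S then 1023 else 1 := by
      intro t _
      split_ifs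
      · rw [sum_range_succ']; simp
      · simp [dig_lt]
    rw [prod_congr rfl this, prod_ite, prod_const, prod_const_one, mul_one, filter_mem_eq_inter,
      inter_eq_right.mpr hS]
  rw [← h2, ← h, J, filter_filter, card_filter]
  refine sum_le_sum fun p _ => ?_
  split_ifs with hp
  · refine le_of_eq (prod_eq_one fun t ht => ?_).symm
    have ht' := mem_range.mp ht
    have h1 := cnt_eq_zero.mp hp.1 t ht'
    have h3 := congrArg (dig t) hp.2
    rw [dig_msk ht', dig_msk ht'] at h3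
    by_cases h4 : t ∈ S
    · simp [h4, h1]
    · simpa [h4] using h3
  · exact Nat.zero_le _

theorem card_J (l : ℕ) : (J l).card = 1023 ^ l := by
  have h := sum_prod_dig (R := ℕ) (fun _ d => if d = 0 then 0 else 1) l
  have h2 : ∑ d ∈ range 1024, (if d = 0 then 0 else 1) = 1023 := by rw [sum_range_succ']; simp
  rw [h2, prod_const, card_range] at h
  rw [← h, J, card_filter]
  refine sum_congr rfl fun p _ => ?_
  split_ifs with hp
  · exact (prod_eq_one fun t ht => by simp [cnt_eq_zero.mp hp t (mem_range.mp ht)]).symm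
  · rw [cnt_eq_zero] at hp
    push Not at hp
    obtain ⟨t, ht, h0⟩ := hp
    exact (prod_eq_zero (mem_range.mpr ht) (by simp [h0])).symm

theorem msk_inj {l j j' : ℕ} (hj : cnt l j = 0) (hj' : cnt l j' = 0) {S S' : Finset ℕ}
    (hS : S ⊆ range l) (hS' : S' ⊆ range l) (h : msk l S j = msk l S' j') : S = S' := by
  ext t
  by_cases ht : t < l
  · have h1 := congrArg (dig t) h
    rw [dig_msk ht, dig_msk ht] at h1
    have h2 := cnt_eq_zero.mp hj t ht
    have h3 := cnt_eq_zero.mp hj' t ht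
    by_cases a : t ∈ S <;> by_cases b : t ∈ S' <;> simp_all
  · exact ⟨fun h => absurd (mem_range.mp (hS h)) ht, fun h => absurd (mem_range.mp (hS' h)) ht⟩

theorem eq_of_msk {l j j' : ℕ} (hj : j < 1024 ^ l) (hj' : j' < 1024 ^ l) {S : Finset ℕ}
    (h1 : msk l S j = msk l S j') (h2 : msk l (range l \ S) j = msk l (range l \ S) j') :
    j = j' := by
  refine dig_ext hj hj' fun t ht => ?_
  have a := congrArg (dig t) h1
  have b := congrArg (dig t) h2
  rw [dig_msk ht, dig_msk ht] at a b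
  by_cases h : t ∈ S
  · simpa [h] using b
  · simpa [h] using a

abbrev Evt := ℕ × ℕ × ℕ × Finset ℕ

def Ev (l h G : ℕ) : Finset Evt := range G ×ˢ range G ×ˢ J l ×ˢ (range l).powersetCard h

theorem mem_Ev {l h G : ℕ} {e : Evt} : e ∈ Ev l h G ↔
    e.1 < G ∧ e.2.1 < G ∧ (e.2.2.1 < 1024 ^ l ∧ cnt l e.2.2.1 = 0) ∧
      e.2.2.2 ⊆ range l ∧ e.2.2.2.card = h := by
  simp [Ev, mem_J, mem_powersetCard]

theorem card_Ev (l h G : ℕ) : (Ev l h G).card = G * G * 1023 ^ l * l.choose h := by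
  simp [Ev, card_J, mul_assoc]

variable {M : ℕ} [NeZero M]

def cov (l G : ℕ) (α β : ZMod M) (e : Evt) (R : ℕ → ZMod M) : Prop :=
  kv l e.1 (msk l e.2.2.2 e.2.2.1) R = α ∧
    kv l (G + e.2.1) (msk l (range l \ e.2.2.2) e.2.2.1) R = β

theorem num_le_div {nR : ℕ} {P : (ℕ → ZMod M) → Prop} {k : ℕ} (h : num nR P * M ^ k = M ^ nR) :
    (num nR P : ℝ) = (M : ℝ) ^ nR / M ^ k := by
  have hM : (0 : ℝ) < M := by exact_mod_cast Nat.pos_of_ne_zero (NeZero.ne M)
  rw [eq_div_iff (by positivity)]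
  exact_mod_cast h

section cover

variable {l h G : ℕ} (α β : ZMod M)

theorem num_cov {e : Evt} (he : e ∈ Ev l h G) :
    (num (l * 1024 + 2 * G) (cov l G α β e) : ℝ) = (M : ℝ) ^ (l * 1024 + 2 * G) / M ^ 2 := by
  rw [mem_Ev] at he
  exact num_le_div (num_two (by omega) (by omega) (msk_lt _ _ _) (msk_lt _ _ _) (by omega) α β)

/-- pairs of events that are not in general position -/
def Near (l : ℕ) (e e' : Evt) : Prop :=
  (e'.1 = e.1 ∧ msk l e'.2.2.2 e'.2.2.1 = msk l e.2.2.2 e.2.2.1) ∨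
  (e'.2.1 = e.2.1 ∧ msk l (range l \ e'.2.2.2) e'.2.2.1 = msk l (range l \ e.2.2.2) e.2.2.1) ∨
  (e'.1 = e.1 ∧ e'.2.1 = e.2.1 ∧ e'.2.2.1 = e.2.2.1)

theorem num_cov_three {e e' : Evt} (he : e ∈ Ev l h G) (he' : e' ∈ Ev l h G) (hne : e' ≠ e) :
    (num (l * 1024 + 2 * G) fun R => cov l G α β e R ∧ cov l G α β e' R : ℝ) ≤
      (M : ℝ) ^ (l * 1024 + 2 * G) / M ^ 3 := by
  obtain ⟨g, g', j, S⟩ := e
  obtain ⟨u, u', i, T⟩ := e'
  simp only [mem_Ev] at he he'
  by_cases h1 : g = u ∧ msk l S j = msk l T i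
  · have hST : S = T := msk_inj he.2.2.1.2 he'.2.2.1.2 he.2.2.2.1 he'.2.2.2.1 h1.2
    subst hST
    have h2 : ¬ (G + g' = G + u' ∧ msk l (range l \ S) j = msk l (range l \ S) i) := by
      rintro ⟨a, b⟩
      apply hne
      rw [← h1.1, ← eq_of_msk he.2.2.1.1 he'.2.2.1.1 h1.2 b, show u' = g' by omega]
    rw [← num_le_div (num_three (o₃ := g) (by omega) (by omega) (by omega) (msk_lt _ _ _)
      (msk_lt _ _ _) h2 (by omega) (by omega) (msk l S j) β β α)]
    exact Nat.cast_le.mpr <| num_mono fun R hR => ⟨⟨hR.1.2, hR.2.2⟩, hR.1.1⟩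
  · rw [← num_le_div (num_three (o₃ := G + g') (by omega) (by omega) (by omega) (msk_lt _ _ _)
      (msk_lt _ _ _) h1 (by omega) (by omega) (msk l (range l \ S) j) α α β)]
    exact Nat.cast_le.mpr <| num_mono fun R hR => ⟨⟨hR.1.1, hR.2.1⟩, hR.1.2⟩

theorem num_cov_four {e e' : Evt} (he : e ∈ Ev l h G) (he' : e' ∈ Ev l h G)
    (hne : ¬ Near l e e') :
    (num (l * 1024 + 2 * G) fun R => cov l G α β e R ∧ cov l G α β e' R : ℝ) ≤
      (M : ℝ) ^ (l * 1024 + 2 * G) / M ^ 4 := by
  obtain ⟨g, g', j, S⟩ := e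
  obtain ⟨u, u', i, T⟩ := e'
  simp only [mem_Ev] at he he'
  simp only [Near, not_or] at hne
  obtain ⟨n1, n2, n3⟩ := hne
  have hL : ¬ (g = u ∧ msk l S j = msk l T i) := fun h => n1 ⟨h.1.symm, h.2.symm⟩
  have hR : ¬ (G + g' = G + u' ∧ msk l (range l \ S) j = msk l (range l \ T) i) :=
    fun h => n2 ⟨by omega, h.2.symm⟩
  by_cases a : u' = g'
  · by_cases b : u = g
    · have hij : i ≠ j := fun h => n3 ⟨b, a, h⟩
      obtain ⟨t, ht, hd⟩ : ∃ t < l, dig t i ≠ dig t j := by
        by_contra h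
        push Not at h
        exact hij (dig_ext he'.2.2.1.1 he.2.2.1.1 h)
      have hi0 := cnt_eq_zero.mp he'.2.2.1.2 t ht
      have d1 : ∀ X, dig t i ≠ dig t (msk l X j) := fun X => by
        rw [dig_msk ht]; split_ifs; exacts [hi0, hd]
      by_cases c : t ∈ T
      · have e1 : dig t (msk l (range l \ T) i) = dig t i := by rw [dig_msk ht]; simp [c]
        have e2 : dig t (msk l T i) = 0 := by rw [dig_msk ht]; simp [c]
        rw [← num_le_div (num_four_dig (o₃ := G + g') (p₃ := msk l (range l \ S) j)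
          (p₄ := msk l (range l \ T) i) (G + u') (by omega) (by omega) (by omega) (msk_lt _ _ _)
          (msk_lt _ _ _) hL (by omega) (by omega) ht (by rw [e1]; exact d1 _)
          (by rw [e1, e2]; exact hi0) (by rw [e1]; exact d1 _) α α β β)]
        exact Nat.cast_le.mpr <| num_mono fun R hR => ⟨⟨⟨hR.1.1, hR.2.1⟩, hR.1.2⟩, hR.2.2⟩
      · have e1 : dig t (msk l T i) = dig t i := by rw [dig_msk ht]; simp [c]
        have e2 : dig t (msk l (range l \ T) i) = 0 := by rw [dig_msk ht]; simp [c, ht]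
        rw [← num_le_div (num_four_dig (o₃ := g) (p₃ := msk l S j)
          (p₄ := msk l T i) u (by omega) (by omega) (by omega) (msk_lt _ _ _)
          (msk_lt _ _ _) hR (by omega) (by omega) ht (by rw [e1]; exact d1 _)
          (by rw [e1, e2]; exact hi0) (by rw [e1]; exact d1 _) β β α α)]
        exact Nat.cast_le.mpr <| num_mono fun R hR => ⟨⟨⟨hR.1.2, hR.2.2⟩, hR.1.1⟩, hR.2.1⟩
    · rw [← num_le_div (num_four_off (o₃ := g) (o₄ := u) (by omega) (by omega) (by omega)
        (by omega) (msk_lt _ _ _) (msk_lt _ _ _) hR (by omega) (by omega) (by omega) (by omega)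
        b (msk l S j) (msk l T i) β β α α)]
      exact Nat.cast_le.mpr <| num_mono fun R hR => ⟨⟨⟨hR.1.2, hR.2.2⟩, hR.1.1⟩, hR.2.1⟩
  · rw [← num_le_div (num_four_off (o₃ := G + g') (o₄ := G + u') (by omega) (by omega) (by omega)
      (by omega) (msk_lt _ _ _) (msk_lt _ _ _) hL (by omega) (by omega) (by omega) (by omega)
      (by omega) (msk l (range l \ S) j) (msk l (range l \ T) i) α α β β)]
    exact Nat.cast_le.mpr <| num_mono fun R hR => ⟨⟨⟨hR.1.1, hR.2.1⟩, hR.1.2⟩, hR.2.2⟩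

open Classical in
theorem card_near (hl : l = 2 * h) {e : Evt} (he : e ∈ Ev l h G) :
    ((Ev l h G).filter (Near l e)).card ≤ 2 * G * 1023 ^ h + l.choose h := by
  obtain ⟨g, g', j, S⟩ := e
  simp only [mem_Ev] at he
  have sub : (Ev l h G).filter (Near l (g, g', j, S)) ⊆
      ({g} ×ˢ range G ×ˢ ((J l).filter fun j' => msk l S j' = msk l S j) ×ˢ {S}) ∪
      ((range G ×ˢ {g'} ×ˢ
        ((J l).filter fun j' => msk l (range l \ S) j' = msk l (range l \ S) j) ×ˢ {S}) ∪
      ({g} ×ˢ {g'} ×ˢ {j} ×ˢ (range l).powersetCard h)) := by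
    rintro ⟨u, u', i, T⟩ hx
    simp only [mem_filter, mem_Ev, Near] at hx
    simp only [mem_union, mem_product, mem_singleton, mem_range, mem_filter, mem_J,
      mem_powersetCard]
    obtain ⟨he', h1 | h1 | h1⟩ := hx
    · have hST : T = S := msk_inj he'.2.2.1.2 he.2.2.1.2 he'.2.2.2.1 he.2.2.2.1 h1.2
      subst hST
      exact Or.inl ⟨h1.1, he'.2.1, ⟨he'.2.2.1, h1.2⟩, rfl⟩
    · have hST : range l \ T = range l \ S :=
        msk_inj he'.2.2.1.2 he.2.2.1.2 sdiff_subset sdiff_subset h1.2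
      have hST' : T = S := by
        rw [← Finset.sdiff_sdiff_eq_self he'.2.2.2.1, hST, Finset.sdiff_sdiff_eq_self he.2.2.2.1]
      subst hST'
      exact Or.inr (Or.inl ⟨he'.1, h1.1, ⟨he'.2.2.1, h1.2⟩, rfl⟩)
    · exact Or.inr (Or.inr ⟨h1.1, h1.2.1, h1.2.2, he'.2.2.2⟩)
  have c1 := card_agree he.2.2.2.1 j
  have c2 := card_agree (S := range l \ S) sdiff_subset j
  rw [he.2.2.2.2] at c1
  rw [card_sdiff_of_subset he.2.2.2.1, card_range, he.2.2.2.2, show l - h = h by omega] at c2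
  refine (card_le_card sub).trans ((card_union_le _ _).trans ?_)
  refine (Nat.add_le_add_left (card_union_le _ _) _).trans ?_
  simp only [card_product, card_singleton, card_range, card_powersetCard, one_mul, mul_one]
  nlinarith

theorem num_uncovered (hl : l = 2 * h) (hρ : 2 * G * 1023 ^ h + l.choose h ≤ M)
    (hμ : 100 * M ^ 2 ≤ (Ev l h G).card) :
    50 * (num (l * 1024 + 2 * G) fun R => ∀ e ∈ Ev l h G, ¬ cov l G α β e R : ℝ) ≤
      (M : ℝ) ^ (l * 1024 + 2 * G) := by
  classical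
  have hM : (0 : ℝ) < M := by exact_mod_cast Nat.pos_of_ne_zero (NeZero.ne M)
  set Z : ℝ := (M : ℝ) ^ (l * 1024 + 2 * G) with hZ
  have hZ0 : 0 < Z := by positivity
  have hμ' : (100 : ℝ) ≤ (Ev l h G).card * (1 / M ^ 2) := by
    rw [mul_one_div, le_div_iff₀ (by positivity)]; exact_mod_cast hμ
  have key := num_none (nR := l * 1024 + 2 * G) (Ev l h G) (cov l G α β) (1 / M ^ 2) 2
    (by linarith) (fun e he => by rw [num_cov α β he]; ring) (fun e he => by
      have b : ∀ e' ∈ Ev l h G,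
          (num (l * 1024 + 2 * G) fun R => cov l G α β e R ∧ cov l G α β e' R : ℝ) ≤
          (if e' = e then Z / M ^ 2 else 0) + (if Near l e e' then Z / M ^ 3 else 0) +
            Z / M ^ 4 := by
        intro e' he'
        have p3 : 0 ≤ Z / M ^ 3 := by positivity
        have p4 : 0 ≤ Z / M ^ 4 := by positivity
        by_cases h1 : e' = e
        · subst h1
          rw [if_pos rfl, num_congr (Q := cov l G α β e') fun R => and_self_iff, num_cov α β he]
          split_ifs <;> linarith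
        · rw [if_neg h1]
          by_cases h2 : Near l e e'
          · rw [if_pos h2]; have := num_cov_three α β he he' h1; linarith
          · rw [if_neg h2]; have := num_cov_four α β he he' h2; linarith
      refine (sum_le_sum b).trans ?_
      rw [sum_add_distrib, sum_add_distrib, sum_ite_eq' _ e, if_pos he, ← sum_filter, sum_const,
        sum_const, nsmul_eq_mul, nsmul_eq_mul]
      have c : (((Ev l h G).filter (Near l e)).card : ℝ) ≤ M := by
        exact_mod_cast (card_near hl he).trans hρ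
      have c2 : (((Ev l h G).filter (Near l e)).card : ℝ) * (Z / M ^ 3) ≤ Z / M ^ 2 := by
        refine (mul_le_mul_of_nonneg_right c (by positivity)).trans (le_of_eq ?_)
        field_simp
      have c3 : (2 + ((Ev l h G).card : ℝ) * (1 / M ^ 2)) * (1 / M ^ 2) * Z =
          Z / M ^ 2 + Z / M ^ 2 + (Ev l h G).card * (Z / M ^ 4) := by
        field_simp; ring
      rw [c3]; linarith)
  have h0 : (0 : ℝ) ≤ (num (l * 1024 + 2 * G) fun R => ∀ e ∈ Ev l h G, ¬ cov l G α β e R : ℝ) :=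
    Nat.cast_nonneg _
  nlinarith

end cover

/-- the index set of potential needed outputs: `g, j, g', i, κ` -/
def Nd (l G n : ℕ) : Finset (ℕ × ℕ × ℕ × ℕ × ℕ) :=
  range G ×ˢ J l ×ˢ range G ×ˢ range n ×ˢ range 3

def need (l G : ℕ) (γ : ℕ → ZMod M) (e : ℕ × ℕ × ℕ × ℕ × ℕ) (R : ℕ → ZMod M) : Prop :=
  R (l * 1024 + (G + e.2.2.1)) + γ e.2.2.2.1 + e.2.2.2.2 = -(kv l e.1 e.2.1 R + Hf l R 0)

open Classical in
/-- the number of needed outputs -/
noncomputable def nneed (l G n : ℕ) (γ : ℕ → ZMod M) (R : ℕ → ZMod M) : ℕ :=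
  ((Nd l G n).filter fun e => need l G γ e R).card

theorem num_need {l G n : ℕ} (γ : ℕ → ZMod M) {e : ℕ × ℕ × ℕ × ℕ × ℕ} (he : e ∈ Nd l G n) :
    num (l * 1024 + 2 * G) (need l G γ e) * M = M ^ (l * 1024 + 2 * G) := by
  obtain ⟨g, j, g', i, κ⟩ := e
  simp only [Nd, mem_product, mem_range] at he
  rw [← num_true (M := M), ← num_step (i := l * 1024 + g) (by omega) (P := fun _ => True)
    (φ := fun R => kv l g j R + Hf l R 0 + R (l * 1024 + (G + g'))) (fun _ _ => Iff.rfl)
    (fun R v => by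
      simp only
      rw [kv_lin_off l g j R v, Hf_con_off, Function.update_of_ne (by omega)]; ring)
    (-(γ i + (κ : ZMod M)))]
  congr 1
  refine num_congr fun R => ?_
  simp only [need, true_and]
  constructor <;> intro h <;> linear_combination h

theorem num_overflow {l G n Bud : ℕ} (γ : ℕ → ZMod M) (hB : 60 * n * G * G * 1023 ^ l ≤ Bud)
    (hB0 : 0 < Bud) :
    20 * num (l * 1024 + 2 * G) (fun R => Bud < nneed l G n γ R * M) ≤ M ^ (l * 1024 + 2 * G) := by
  have h := num_markov (nR := l * 1024 + 2 * G) (Nd l G n) (need l G γ) M Bud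
  rw [sum_mul, sum_congr rfl fun e he => num_need γ he, sum_const, smul_eq_mul] at h
  have hc : (Nd l G n).card * 20 = 60 * n * G * G * 1023 ^ l := by
    simp [Nd, card_J]; ring
  refine Nat.le_of_mul_le_mul_right ?_ hB0
  calc 20 * num (l * 1024 + 2 * G) (fun R => Bud < nneed l G n γ R * M) * Bud
      = 20 * (num (l * 1024 + 2 * G) (fun R => Bud < nneed l G n γ R * M) * Bud) := by ring
    _ ≤ 20 * ((Nd l G n).card * M ^ (l * 1024 + 2 * G)) := Nat.mul_le_mul_left _ h
    _ = M ^ (l * 1024 + 2 * G) * ((Nd l G n).card * 20) := by ring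
    _ ≤ _ := Nat.mul_le_mul_left _ (hc ▸ hB)

/-- every collision in the output of `e` has the prescribed sum -/
def clean (l h G n : ℕ) (γ : ℕ → ZMod M) (x : ℕ → ℤ) (σ : ℤ) (e : Evt) (R : ℕ → ZMod M) : Prop :=
  ∀ a < n, ∀ b < n, ∀ S ∈ (range l).powersetCard h,
    cov l G (γ a) (γ b) (e.1, e.2.1, e.2.2.1, S) R → x a + x b = σ

/-- the good event for the solution pair `ia, ib` -/
def Good (l h G n Bud : ℕ) (γ : ℕ → ZMod M) (x : ℕ → ℤ) (ia ib : ℕ) (R : ℕ → ZMod M) : Prop :=
  (∃ e ∈ Ev l h G, cov l G (γ ia) (γ ib) e R ∧ clean l h G n γ x (x ia + x ib) e R) ∧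
    nneed l G n γ R * M ≤ Bud

omit [NeZero M] in
theorem cov_total {l G : ℕ} {α β : ZMod M} {e : Evt} {R : ℕ → ZMod M} (h : cov l G α β e R) :
    α + β = kv l e.1 e.2.2.1 R + Hf l R 0 + R (l * 1024 + (G + e.2.1)) := by
  rw [← h.1, ← h.2]
  unfold kv
  linear_combination Hf_split l R e.2.2.2 e.2.2.1

open Classical in
/-- false pairs whose hash sums collide with the solution -/
noncomputable def collp (n : ℕ) (γ : ℕ → ZMod M) (x : ℕ → ℤ) (ia ib : ℕ) : Finset (ℕ × ℕ) :=
  (range n ×ˢ range n).filter fun p =>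
    x p.1 + x p.2 ≠ x ia + x ib ∧ γ p.1 + γ p.2 = γ ia + γ ib

def bad0 (n : ℕ) (γ : ℕ → ZMod M) (x : ℕ → ℤ) (ia ib : ℕ) : Prop :=
  (∃ a ∈ range n, x a ≠ x ia ∧ γ a = γ ia) ∨ (∃ b ∈ range n, x b ≠ x ib ∧ γ b = γ ib)

open Classical in
theorem num_bad {l h G n Bud : ℕ} (γ : ℕ → ZMod M) (x : ℕ → ℤ) (ia ib : ℕ) (hl : l = 2 * h)
    (hρ : 2 * G * 1023 ^ h + l.choose h ≤ M) (hμ : 100 * M ^ 2 ≤ (Ev l h G).card)
    (hB : 60 * n * G * G * 1023 ^ l ≤ Bud) (hB0 : 0 < Bud) :
    (num (l * 1024 + 2 * G) fun R => ¬ Good l h G n Bud γ x ia ib R : ℝ) ≤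
      (M : ℝ) ^ (l * 1024 + 2 * G) * ((if bad0 n γ x ia ib then 1 else 0) + 1 / 50 + 1 / 20 +
        (Ev l h G).card * l.choose h / M ^ 3 * (collp n γ x ia ib).card) := by
  have hM : (0 : ℝ) < M := by exact_mod_cast Nat.pos_of_ne_zero (NeZero.ne M)
  set Z : ℝ := (M : ℝ) ^ (l * 1024 + 2 * G) with hZ
  have hZ0 : 0 < Z := by positivity
  have p0 : (0 : ℝ) ≤ (Ev l h G).card * l.choose h / M ^ 3 * (collp n γ x ia ib).card := by
    positivity
  split_ifs with h0
  · have : (num (l * 1024 + 2 * G) fun R => ¬ Good l h G n Bud γ x ia ib R : ℝ) ≤ Z := by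
      rw [hZ]; exact_mod_cast (num_mono fun _ _ => trivial).trans num_true.le
    nlinarith
  have sub : ∀ R, ¬ Good l h G n Bud γ x ia ib R →
      ((∀ e ∈ Ev l h G, ¬ cov l G (γ ia) (γ ib) e R) ∨ Bud < nneed l G n γ R * M) ∨
      ∃ e ∈ Ev l h G, ∃ p ∈ collp n γ x ia ib, ∃ S ∈ ((range l).powersetCard h).erase e.2.2.2,
        (kv l e.1 (msk l e.2.2.2 e.2.2.1) R = γ ia ∧ kv l e.1 (msk l S e.2.2.1) R = γ p.1) ∧
          kv l (G + e.2.1) (msk l (range l \ e.2.2.2) e.2.2.1) R = γ ib := by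
    intro R hR
    by_contra hc
    simp only [not_or, not_forall, not_not, not_lt] at hc
    obtain ⟨⟨⟨e, he, hcov⟩, h3⟩, h2⟩ := hc
    refine hR ⟨⟨e, he, hcov, fun a ha b hb S hS hc' => ?_⟩, h3⟩
    by_contra hne
    by_cases hSe : S = e.2.2.2
    · subst hSe
      have ea : γ a = γ ia := hc'.1.symm.trans hcov.1
      have eb : γ b = γ ib := hc'.2.symm.trans hcov.2
      apply h0
      by_cases hx : x a = x ia
      · exact Or.inr ⟨b, mem_range.mpr hb, fun h => hne (by rw [hx, h]), eb⟩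
      · exact Or.inl ⟨a, mem_range.mpr ha, hx, ea⟩
    · refine h2 ⟨e, he, (a, b), ?_, S, mem_erase.mpr ⟨hSe, hS⟩, ⟨hcov.1, hc'.1⟩, hcov.2⟩
      simp only [collp, mem_filter, mem_product, mem_range]
      exact ⟨⟨ha, hb⟩, hne, (cov_total hc').trans (cov_total hcov).symm⟩
  have b1 := num_uncovered (γ ia) (γ ib) hl hρ hμ
  have b3 : 20 * (num (l * 1024 + 2 * G) (fun R => Bud < nneed l G n γ R * M) : ℝ) ≤ Z := by
    rw [hZ]; exact_mod_cast num_overflow γ hB hB0
  have b2 : (num (l * 1024 + 2 * G) (fun R => ∃ e ∈ Ev l h G, ∃ p ∈ collp n γ x ia ib,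
      ∃ S ∈ ((range l).powersetCard h).erase e.2.2.2,
        (kv l e.1 (msk l e.2.2.2 e.2.2.1) R = γ ia ∧ kv l e.1 (msk l S e.2.2.1) R = γ p.1) ∧
          kv l (G + e.2.1) (msk l (range l \ e.2.2.2) e.2.2.1) R = γ ib) : ℝ) ≤
      Z * ((Ev l h G).card * l.choose h / M ^ 3 * (collp n γ x ia ib).card) := by
    refine le_trans (Nat.cast_le.mpr (num_exists _ _)) ?_
    push_cast
    refine (sum_le_card_nsmul _ _ ((collp n γ x ia ib).card * (l.choose h * (Z / M ^ 3)))
      fun e he => ?_).trans (le_of_eq (by rw [nsmul_eq_mul]; ring))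
    refine le_trans (Nat.cast_le.mpr (num_exists _ _)) ?_
    push_cast
    refine (sum_le_card_nsmul _ _ (l.choose h * (Z / M ^ 3)) fun p _ => ?_).trans
      (le_of_eq (by rw [nsmul_eq_mul]))
    refine le_trans (Nat.cast_le.mpr (num_exists _ _)) ?_
    push_cast
    refine (sum_le_card_nsmul _ _ (Z / M ^ 3) fun S hS => ?_).trans ?_
    · rw [mem_Ev] at he
      have hS' := mem_erase.mp hS
      refine le_of_eq (num_le_div (num_three (by omega) (by omega) (by omega) (msk_lt _ _ _)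
        (msk_lt _ _ _) ?_ (by omega) (by omega) _ _ _ _))
      rintro ⟨-, h1⟩
      exact hS'.1 (msk_inj he.2.2.1.2 he.2.2.1.2 he.2.2.2.1 (mem_powersetCard.mp hS'.2).1 h1).symm
    · rw [nsmul_eq_mul]
      refine mul_le_mul_of_nonneg_right ?_ (by positivity)
      exact_mod_cast card_erase_le.trans (by simp)
  have := Nat.cast_le (α := ℝ).mpr ((num_mono (nR := l * 1024 + 2 * G) sub).trans
    ((num_or _ _).trans (Nat.add_le_add_right (num_or _ _) _)))
  push_cast at this
  linarith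

/-- the hash values as residues -/
def gz (M V r : ℕ) (x : ℕ → ℤ) (i : ℕ) : ZMod M := gam M V r (x i)

theorem good_count {l h G n Bud V : ℕ} (x : ℕ → ℤ) {ia ib : ℕ} (hia : ia < n) (hib : ib < n)
    (hl : l = 2 * h) (hM2 : 2 ≤ M) (hV : 0 < V) (hx : ∀ i < n, 4 * |x i| ≤ V)
    (hρ : 2 * G * 1023 ^ h + l.choose h ≤ M) (hμ : 100 * M ^ 2 ≤ (Ev l h G).card)
    (hB : 60 * n * G * G * 1023 ^ l ≤ Bud) (hB0 : 0 < Bud) (hA : 2400 * n ≤ M)
    (hC : 120 * (Ev l h G).card * l.choose h * n ^ 2 ≤ M ^ 4) :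
    2 * (M * V * M ^ (l * 1024 + 2 * G)) ≤
      3 * ∑ r ∈ range (M * V), num (l * 1024 + 2 * G) (Good l h G n Bud (gz M V r x) x ia ib) := by
  classical
  have hM : (0 : ℝ) < M := by exact_mod_cast Nat.pos_of_ne_zero (NeZero.ne M)
  have hV' : (0 : ℝ) < V := by exact_mod_cast hV
  set Z : ℝ := (M : ℝ) ^ (l * 1024 + 2 * G) with hZ
  have hZ0 : 0 < Z := by positivity
  have habs : ∀ a < n, ∀ b < n, |x a + x b - x ia - x ib| ≤ V := by
    intro a ha b hb
    have := hx a ha
    have := hx b hb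
    have := hx ia hia
    have := hx ib hib
    have := abs_le.mp (le_refl |x a|)
    have := abs_le.mp (le_refl |x b|)
    have := abs_le.mp (le_refl |x ia|)
    have := abs_le.mp (le_refl |x ib|)
    rw [abs_le]; constructor <;> linarith
  have c0 : ((range (M * V)).filter fun r => bad0 n (gz M V r x) x ia ib).card ≤ 24 * n * V := by
    have sub : ((range (M * V)).filter fun r => bad0 n (gz M V r x) x ia ib) ⊆
        (((range n).filter fun a => x a ≠ x ia).biUnion fun a => (range (M * V)).filter fun r =>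
          gz M V r x a + gz M V r x ib = gz M V r x ia + gz M V r x ib) ∪
        (((range n).filter fun b => x b ≠ x ib).biUnion fun b => (range (M * V)).filter fun r =>
          gz M V r x ia + gz M V r x b = gz M V r x ia + gz M V r x ib) := by
      intro r hr
      simp only [mem_filter, bad0] at hr
      simp only [mem_union, mem_biUnion, mem_filter]
      obtain ⟨hr, ⟨a, ha, h1, h2⟩ | ⟨b, hb, h1, h2⟩⟩ := hr
      · exact Or.inl ⟨a, ⟨ha, h1⟩, hr, by rw [h2]⟩
      · exact Or.inr ⟨b, ⟨hb, h1⟩, hr, by rw [h2]⟩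
    refine (card_le_card sub).trans ((card_union_le _ _).trans ?_)
    refine (Nat.add_le_add (card_biUnion_le_card_mul _ _ (12 * V) fun a ha => ?_)
      (card_biUnion_le_card_mul _ _ (12 * V) fun b hb => ?_)).trans ?_
    · simp only [mem_filter, mem_range] at ha
      exact gam_coll hM2 hV (fun h => ha.2 (by linarith)) (habs a ha.1 ib hib)
    · simp only [mem_filter, mem_range] at hb
      exact gam_coll hM2 hV (fun h => hb.2 (by linarith)) (habs ia hia b hb.1)
    · have h1 := card_filter_le (range n) fun a => x a ≠ x ia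
      have h2 := card_filter_le (range n) fun b => x b ≠ x ib
      rw [card_range] at h1 h2
      have h3 := Nat.mul_le_mul_right (12 * V) h1
      have h4 := Nat.mul_le_mul_right (12 * V) h2
      calc _ ≤ n * (12 * V) + n * (12 * V) := Nat.add_le_add h3 h4
        _ = _ := by ring
  have c2 : ∑ r ∈ range (M * V), (collp n (gz M V r x) x ia ib).card ≤ n ^ 2 * (12 * V) := by
    simp only [collp, card_filter]
    rw [sum_comm]
    refine (sum_le_card_nsmul _ _ (12 * V) fun p hp => ?_).trans (le_of_eq (by simp [sq]))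
    simp only [mem_product, mem_range] at hp
    by_cases h1 : x p.1 + x p.2 = x ia + x ib
    · simp [h1]
    · simp only [ne_eq, h1, not_false_eq_true, true_and]
      rw [← card_filter]
      exact gam_coll hM2 hV (fun h => h1 (by linarith)) (habs _ hp.1 _ hp.2)
  have tot : ∑ r ∈ range (M * V),
      (num (l * 1024 + 2 * G) fun R => ¬ Good l h G n Bud (gz M V r x) x ia ib R : ℝ) ≤
      Z * (M * V) / 3 := by
    refine (sum_le_sum fun r _ => num_bad (gz M V r x) x ia ib hl hρ hμ hB hB0).trans ?_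
    rw [← mul_sum, mul_div_assoc Z]
    refine mul_le_mul_of_nonneg_left ?_ hZ0.le
    simp only [sum_add_distrib, ← mul_sum, sum_const, card_range, nsmul_eq_mul, sum_boole]
    have d0 : (((range (M * V)).filter fun r => bad0 n (gz M V r x) x ia ib).card : ℝ) ≤
        M * V / 100 := by
      have h1 : (((range (M * V)).filter fun r => bad0 n (gz M V r x) x ia ib).card : ℝ) ≤
        24 * n * V := by exact_mod_cast c0
      have h2 : (2400 * n : ℝ) ≤ M := by exact_mod_cast hA
      nlinarith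
    have d2 : ((Ev l h G).card * l.choose h / M ^ 3 : ℝ) *
        ∑ r ∈ range (M * V), ((collp n (gz M V r x) x ia ib).card : ℝ) ≤ M * V / 10 := by
      have h1 : ∑ r ∈ range (M * V), ((collp n (gz M V r x) x ia ib).card : ℝ) ≤
        n ^ 2 * (12 * V) := by exact_mod_cast c2
      have h2 : (120 * (Ev l h G).card * l.choose h * n ^ 2 : ℝ) ≤ M ^ 4 := by exact_mod_cast hC
      refine (mul_le_mul_of_nonneg_left h1 (by positivity)).trans ?_
      rw [div_mul_eq_mul_div, div_le_div_iff₀ (by positivity) (by norm_num)]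
      nlinarith
    have : (0 : ℝ) < M * V := by positivity
    push_cast
    linarith
  have tot2 : ∑ r ∈ range (M * V),
      (num (l * 1024 + 2 * G) (Good l h G n Bud (gz M V r x) x ia ib) : ℝ) +
      ∑ r ∈ range (M * V),
      (num (l * 1024 + 2 * G) fun R => ¬ Good l h G n Bud (gz M V r x) x ia ib R : ℝ) =
      Z * (M * V) := by
    rw [← sum_add_distrib, sum_congr rfl (g := fun _ => Z) fun r _ => by
      rw [hZ]; exact_mod_cast num_not _]
    simp [mul_comm]
  have : (2 * (M * V * Z) : ℝ) ≤ 3 * ∑ r ∈ range (M * V),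
      (num (l * 1024 + 2 * G) (Good l h G n Bud (gz M V r x) x ia ib) : ℝ) := by linarith
  rw [hZ] at this
  exact_mod_cast this

end Pool.Agent.P.MP_8f87b2_lc
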