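import Pool.Agent.P.MP_8f87b2_lc.Digits

/-!
# Counting solutions of triangular systems of random linear forms
-/

namespace Pool.Agent.P.MP_8f87b2_lc

open Finset

variable {M : ℕ} [NeZero M] {nR : ℕ}

/-- extend a finite random vector by zero -/
def ext (ω : Fin nR → ZMod M) (i : ℕ) : ZMod M := if h : i < nR then ω ⟨i, h⟩ else 0

open Classical in
/-- the number of random vectors with a property -/
noncomputable def num (nR : ℕ) (P : (ℕ → ZMod M) → Prop) : ℕ :=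
  ((univ : Finset (Fin nR → ZMod M)).filter fun ω => P (ext ω)).card

omit [NeZero M] in
theorem ext_update (ω : Fin nR → ZMod M) {i : ℕ} (hi : i < nR) (v : ZMod M) :
    ext (Function.update ω ⟨i, hi⟩ v) = Function.update (ext ω) i v := by
  funext k
  unfold ext
  by_cases h : k = i
  · subst h; simp [hi]
  · rw [Function.update_of_ne h]
    split_ifs with hk
    · rw [Function.update_of_ne (by simpa using h)]
    · rfl

theorem num_true : num nR (fun _ : ℕ → ZMod M => True) = M ^ nR := by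
  simp [num, ZMod.card]

theorem num_mono {P Q : (ℕ → ZMod M) → Prop} (h : ∀ R, P R → Q R) : num nR P ≤ num nR Q := by
  classical
  unfold num
  refine card_le_card fun ω hω => ?_
  simp only [mem_filter, mem_univ, true_and] at hω ⊢
  exact h _ hω

theorem num_congr {P Q : (ℕ → ZMod M) → Prop} (h : ∀ R, P R ↔ Q R) : num nR P = num nR Q :=
  le_antisymm (num_mono fun R => (h R).1) (num_mono fun R => (h R).2)

theorem num_or (P Q : (ℕ → ZMod M) → Prop) :
    num nR (fun R => P R ∨ Q R) ≤ num nR P + num nR Q := by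
  classical
  unfold num
  refine le_trans (card_le_card fun ω hω => ?_) (card_union_le _ _)
  simpa using hω

theorem num_exists {ι : Type*} (s : Finset ι) (P : ι → (ℕ → ZMod M) → Prop) :
    num nR (fun R => ∃ i ∈ s, P i R) ≤ ∑ i ∈ s, num nR (P i) := by
  classical
  unfold num
  refine le_trans (card_le_card fun ω hω => ?_) card_biUnion_le
  simpa using hω

theorem num_not (P : (ℕ → ZMod M) → Prop) :
    num nR P + num nR (fun R => ¬ P R) = M ^ nR := by
  classical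
  unfold num
  rw [card_filter_add_card_filter_not]
  simp [ZMod.card]

def Indep (i : ℕ) (P : (ℕ → ZMod M) → Prop) : Prop := ∀ R v, P (Function.update R i v) ↔ P R

def Lin (i : ℕ) (φ : (ℕ → ZMod M) → ZMod M) : Prop :=
  ∀ R v, φ (Function.update R i v) = φ R + (v - R i)

def Con (i : ℕ) (φ : (ℕ → ZMod M) → ZMod M) : Prop := ∀ R v, φ (Function.update R i v) = φ R

omit [NeZero M] in
theorem Con.indep {i : ℕ} {φ : (ℕ → ZMod M) → ZMod M} (h : Con i φ) (c : ZMod M) :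
    Indep i fun R => φ R = c := fun R v => by simp only [h R v]

omit [NeZero M] in
theorem Indep.and {i : ℕ} {P Q : (ℕ → ZMod M) → Prop} (h : Indep i P) (h' : Indep i Q) :
    Indep i fun R => P R ∧ Q R := fun R v => by simp only [h R v, h' R v]

theorem num_step {i : ℕ} (hi : i < nR) {P : (ℕ → ZMod M) → Prop} {φ : (ℕ → ZMod M) → ZMod M}
    (hP : Indep i P) (hφ : Lin i φ) (c : ZMod M) :
    num nR (fun R => P R ∧ φ R = c) * M = num nR P := by
  classical
  have hext : ∀ ω : Fin nR → ZMod M, ext ω i = ω ⟨i, hi⟩ := fun ω => by simp [ext, hi]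
  have key : ∀ c', num nR (fun R => P R ∧ φ R = c') = num nR (fun R => P R ∧ φ R = c) := by
    intro c'
    unfold num
    refine card_bij' (fun ω _ => Function.update ω ⟨i, hi⟩ (ω ⟨i, hi⟩ + (c - c')))
      (fun ω _ => Function.update ω ⟨i, hi⟩ (ω ⟨i, hi⟩ - (c - c'))) ?_ ?_ ?_ ?_
    · intro ω hω
      simp only [mem_filter, mem_univ, true_and] at hω ⊢
      rw [ext_update, hP, hφ, hext, hω.2]
      exact ⟨hω.1, by ring⟩
    · intro ω hω
      simp only [mem_filter, mem_univ, true_and] at hω ⊢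
      rw [ext_update, hP, hφ, hext, hω.2]
      exact ⟨hω.1, by ring⟩
    · intro ω _; simp
    · intro ω _; simp
  have : num nR P = ∑ c' : ZMod M, num nR (fun R => P R ∧ φ R = c') := by
    unfold num
    rw [card_eq_sum_card_fiberwise (f := fun ω => φ (ext ω)) (t := univ) (fun _ _ => mem_univ _)]
    refine sum_congr rfl fun c' _ => ?_
    rw [filter_filter]
    congr
  rw [this, sum_congr rfl fun c' _ => key c']
  simp [ZMod.card, mul_comm]

/-- the random value of a digit string -/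
def Hf {α : Type*} [AddCommMonoid α] (l : ℕ) (R : ℕ → α) (p : ℕ) : α :=
  ∑ t ∈ range l, R (t * 1024 + dig t p)

/-- the random value of a key: an offset letter and a digit string -/
def kv (l : ℕ) (o p : ℕ) (R : ℕ → ZMod M) : ZMod M := R (l * 1024 + o) + Hf l R p

omit [NeZero M] in
theorem Hf_con_off (l o p : ℕ) (R : ℕ → ZMod M) (v : ZMod M) :
    Hf l (Function.update R (l * 1024 + o) v) p = Hf l R p := by
  unfold Hf
  refine sum_congr rfl fun t ht => Function.update_of_ne ?_ _ _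
  have := dig_lt t p
  have := mem_range.mp ht
  nlinarith

omit [NeZero M] in
theorem kv_lin_off (l o p : ℕ) : Lin (M := M) (l * 1024 + o) (kv l o p) := fun R v => by
  unfold kv
  rw [Function.update_self, Hf_con_off l o p R v]; ring

omit [NeZero M] in
theorem kv_con_off (l : ℕ) {o o' : ℕ} (h : o' ≠ o) (p : ℕ) :
    Con (M := M) (l * 1024 + o') (kv l o p) := fun R v => by
  unfold kv
  rw [Function.update_of_ne (by omega), Hf_con_off l o' p R v]

omit [NeZero M] in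
theorem kv_lin_dig {l t : ℕ} (ht : t < l) (o p : ℕ) :
    Lin (M := M) (t * 1024 + dig t p) (kv l o p) := fun R v => by
  unfold kv Hf
  have h1 := dig_lt t p
  rw [Function.update_of_ne (by nlinarith), ← add_sum_erase _ _ (mem_range.mpr ht),
    ← add_sum_erase _ _ (mem_range.mpr ht), Function.update_self]
  have : ∑ u ∈ (range l).erase t, Function.update R (t * 1024 + dig t p) v (u * 1024 + dig u p) =
      ∑ u ∈ (range l).erase t, R (u * 1024 + dig u p) := by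
    refine sum_congr rfl fun u hu => Function.update_of_ne ?_ _ _
    have h2 := dig_lt u p
    have h3 := ne_of_mem_erase hu
    omega
  rw [this]; ring

omit [NeZero M] in
theorem kv_con_dig {l t d : ℕ} (ht : t < l) (hd : d < 1024) (o : ℕ) {p : ℕ} (h : d ≠ dig t p) :
    Con (M := M) (t * 1024 + d) (kv l o p) := fun R v => by
  unfold kv Hf
  rw [Function.update_of_ne (by nlinarith)]
  congr 1
  refine sum_congr rfl fun u _ => Function.update_of_ne ?_ _ _
  have h2 := dig_lt u p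
  intro h3
  have : u = t := by omega
  subst this
  omega

section counts

variable {l G : ℕ}

theorem num_one {o : ℕ} (ho : o < 2 * G) (p : ℕ) (c : ZMod M) :
    num (l * 1024 + 2 * G) (fun R => kv l o p R = c) * M = M ^ (l * 1024 + 2 * G) := by
  rw [← num_true (M := M), ← num_step (i := l * 1024 + o) (by omega) (P := fun _ => True)
    (fun _ _ => Iff.rfl) (kv_lin_off l o p) c]
  simp

theorem num_two {o₁ o₂ p₁ p₂ : ℕ} (h₁ : o₁ < 2 * G) (h₂ : o₂ < 2 * G) (hp₁ : p₁ < 1024 ^ l)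
    (hp₂ : p₂ < 1024 ^ l) (hne : ¬ (o₁ = o₂ ∧ p₁ = p₂)) (c₁ c₂ : ZMod M) :
    num (l * 1024 + 2 * G) (fun R => kv l o₁ p₁ R = c₁ ∧ kv l o₂ p₂ R = c₂) * M ^ 2 =
      M ^ (l * 1024 + 2 * G) := by
  rw [← num_one (l := l) h₁ p₁ c₁, pow_two, ← mul_assoc]
  congr 1
  by_cases ho : o₂ = o₁
  · have hp : p₁ ≠ p₂ := fun h => hne ⟨ho.symm, h⟩
    obtain ⟨t, ht, hd⟩ : ∃ t < l, dig t p₂ ≠ dig t p₁ := by
      by_contra h
      push Not at h
      exact hp (dig_ext hp₂ hp₁ h).symm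
    have := dig_lt t p₂
    exact num_step (i := t * 1024 + dig t p₂) (by nlinarith)
      ((kv_con_dig ht (dig_lt _ _) o₁ hd).indep c₁) (kv_lin_dig ht o₂ p₂) c₂
  · exact num_step (i := l * 1024 + o₂) (by omega) ((kv_con_off l ho p₁).indep c₁)
      (kv_lin_off l o₂ p₂) c₂

theorem num_three {o₁ o₂ o₃ p₁ p₂ : ℕ} (h₁ : o₁ < 2 * G) (h₂ : o₂ < 2 * G) (h₃ : o₃ < 2 * G)
    (hp₁ : p₁ < 1024 ^ l) (hp₂ : p₂ < 1024 ^ l) (hne : ¬ (o₁ = o₂ ∧ p₁ = p₂))
    (h31 : o₃ ≠ o₁) (h32 : o₃ ≠ o₂) (p₃ : ℕ) (c₁ c₂ c₃ : ZMod M) :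
    num (l * 1024 + 2 * G)
      (fun R => (kv l o₁ p₁ R = c₁ ∧ kv l o₂ p₂ R = c₂) ∧ kv l o₃ p₃ R = c₃) * M ^ 3 =
      M ^ (l * 1024 + 2 * G) := by
  rw [← num_two h₁ h₂ hp₁ hp₂ hne c₁ c₂, pow_succ' M 2, ← mul_assoc]
  congr 1
  exact num_step (i := l * 1024 + o₃) (by omega)
    (((kv_con_off l h31 p₁).indep c₁).and ((kv_con_off l h32 p₂).indep c₂))
    (kv_lin_off l o₃ p₃) c₃

theorem num_four_off {o₁ o₂ o₃ o₄ p₁ p₂ : ℕ} (h₁ : o₁ < 2 * G) (h₂ : o₂ < 2 * G)
    (h₃ : o₃ < 2 * G) (h₄ : o₄ < 2 * G)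
    (hp₁ : p₁ < 1024 ^ l) (hp₂ : p₂ < 1024 ^ l) (hne : ¬ (o₁ = o₂ ∧ p₁ = p₂))
    (h31 : o₃ ≠ o₁) (h32 : o₃ ≠ o₂) (h41 : o₄ ≠ o₁) (h42 : o₄ ≠ o₂) (h43 : o₄ ≠ o₃)
    (p₃ p₄ : ℕ) (c₁ c₂ c₃ c₄ : ZMod M) :
    num (l * 1024 + 2 * G)
      (fun R => ((kv l o₁ p₁ R = c₁ ∧ kv l o₂ p₂ R = c₂) ∧ kv l o₃ p₃ R = c₃) ∧
        kv l o₄ p₄ R = c₄) * M ^ 4 = M ^ (l * 1024 + 2 * G) := by
  rw [← num_three h₁ h₂ h₃ hp₁ hp₂ hne h31 h32 p₃ c₁ c₂ c₃, pow_succ' M 3, ← mul_assoc]
  congr 1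
  exact num_step (i := l * 1024 + o₄) (by omega)
    ((((kv_con_off l h41 p₁).indep c₁).and ((kv_con_off l h42 p₂).indep c₂)).and
      ((kv_con_off l h43 p₃).indep c₃)) (kv_lin_off l o₄ p₄) c₄

theorem num_four_dig {o₁ o₂ o₃ p₁ p₂ p₃ p₄ : ℕ} (o₄ : ℕ) (h₁ : o₁ < 2 * G) (h₂ : o₂ < 2 * G)
    (h₃ : o₃ < 2 * G)
    (hp₁ : p₁ < 1024 ^ l) (hp₂ : p₂ < 1024 ^ l) (hne : ¬ (o₁ = o₂ ∧ p₁ = p₂))
    (h31 : o₃ ≠ o₁) (h32 : o₃ ≠ o₂) {t : ℕ} (ht : t < l) (h41 : dig t p₄ ≠ dig t p₁)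
    (h42 : dig t p₄ ≠ dig t p₂) (h43 : dig t p₄ ≠ dig t p₃) (c₁ c₂ c₃ c₄ : ZMod M) :
    num (l * 1024 + 2 * G)
      (fun R => ((kv l o₁ p₁ R = c₁ ∧ kv l o₂ p₂ R = c₂) ∧ kv l o₃ p₃ R = c₃) ∧
        kv l o₄ p₄ R = c₄) * M ^ 4 = M ^ (l * 1024 + 2 * G) := by
  rw [← num_three h₁ h₂ h₃ hp₁ hp₂ hne h31 h32 p₃ c₁ c₂ c₃, pow_succ' M 3, ← mul_assoc]
  congr 1
  have := dig_lt t p₄
  exact num_step (i := t * 1024 + dig t p₄) (by nlinarith)
    ((((kv_con_dig ht this o₁ h41).indep c₁).and ((kv_con_dig ht this o₂ h42).indep c₂)).and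
      ((kv_con_dig ht this o₃ h43).indep c₃)) (kv_lin_dig ht o₄ p₄) c₄

end counts

theorem Hf_split {α : Type*} [AddCommMonoid α] (l : ℕ) (R : ℕ → α) (S : Finset ℕ) (j : ℕ) :
    Hf l R (msk l S j) + Hf l R (msk l (range l \ S) j) = Hf l R j + Hf l R 0 := by
  unfold Hf
  rw [← sum_add_distrib, ← sum_add_distrib]
  refine sum_congr rfl fun t ht => ?_
  have h0 : dig t 0 = 0 := by simp [dig]
  rw [dig_msk (mem_range.mp ht), dig_msk (mem_range.mp ht), h0]
  by_cases h : t ∈ S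
  · simp [h, add_comm]
  · simp [h, mem_range.mp ht]

/-- the second moment bound on the number of samples hit by no event -/
theorem num_none {ε : Type*} (Ev : Finset ε) (A : ε → (ℕ → ZMod M) → Prop) (p K : ℝ)
    (hp : 0 < Ev.card * p) (h1 : ∀ e ∈ Ev, (num nR (A e) : ℝ) = p * M ^ nR)
    (h2 : ∀ e ∈ Ev, ∑ e' ∈ Ev, (num nR fun R => A e R ∧ A e' R : ℝ) ≤
      (K + Ev.card * p) * p * M ^ nR) :
    (num nR fun R => ∀ e ∈ Ev, ¬ A e R : ℝ) * (Ev.card * p) ≤ K * M ^ nR := by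
  classical
  set μ : ℝ := Ev.card * p with hμ
  let N : (Fin nR → ZMod M) → ℝ := fun ω => ∑ e ∈ Ev, if A e (ext ω) then 1 else 0
  have hnum : ∀ P : (ℕ → ZMod M) → Prop,
      (num nR P : ℝ) = ∑ ω : Fin nR → ZMod M, if P (ext ω) then 1 else 0 := by
    intro P; unfold num; rw [card_filter]; push_cast; rfl
  have s1 : ∑ ω, N ω = μ * M ^ nR := by
    rw [sum_comm, sum_congr rfl fun e he => (hnum (A e)).symm.trans (h1 e he)]
    simp [hμ, mul_assoc]
  have s2 : ∑ ω, N ω ^ 2 ≤ (K + μ) * μ * M ^ nR := by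
    have : ∑ ω, N ω ^ 2 = ∑ e ∈ Ev, ∑ e' ∈ Ev, (num nR fun R => A e R ∧ A e' R : ℝ) := by
      simp only [hnum, N, sq, sum_mul_sum]
      rw [sum_comm]
      refine sum_congr rfl fun e _ => ?_
      rw [sum_comm]
      refine sum_congr rfl fun e' _ => sum_congr rfl fun ω _ => ?_
      by_cases h1 : A e (ext ω) <;> by_cases h2 : A e' (ext ω) <;> simp [h1, h2]
    rw [this]
    refine (sum_le_card_nsmul _ _ _ h2).trans (le_of_eq ?_)
    rw [nsmul_eq_mul, hμ]; ring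
  have s3 : (num nR fun R => ∀ e ∈ Ev, ¬ A e R : ℝ) * μ ^ 2 ≤ ∑ ω, (N ω - μ) ^ 2 := by
    rw [hnum, sum_mul]
    refine sum_le_sum fun ω _ => ?_
    split_ifs with h
    · have : N ω = 0 := sum_eq_zero fun e he => if_neg (h e he)
      rw [this]; simp
    · rw [zero_mul]; positivity
  have s4 : ∑ ω, (N ω - μ) ^ 2 = ∑ ω, N ω ^ 2 - 2 * μ * ∑ ω, N ω + μ ^ 2 * M ^ nR := by
    simp only [sub_sq, sum_add_distrib, sum_sub_distrib, mul_sum, sum_const, card_univ,
      Fintype.card_fun, ZMod.card, Fintype.card_fin, nsmul_eq_mul]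
    push_cast
    congr 1
    · congr 1
      exact sum_congr rfl fun _ _ => by ring
    · ring
  have s5 : (num nR fun R => ∀ e ∈ Ev, ¬ A e R : ℝ) * μ * μ ≤ K * M ^ nR * μ := by
    rw [s4, s1] at s3
    nlinarith
  exact le_of_mul_le_mul_right s5 hp

open Classical in
/-- Markov's inequality for the number of events that occur -/
theorem num_markov {ε : Type*} (Ev : Finset ε) (A : ε → (ℕ → ZMod M) → Prop) (a b : ℕ) :
    num nR (fun R => b < (Ev.filter fun e => A e R).card * a) * b ≤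
      (∑ e ∈ Ev, num nR (A e)) * a := by
  have : ∑ e ∈ Ev, num nR (A e) =
      ∑ ω : Fin nR → ZMod M, (Ev.filter fun e => A e (ext ω)).card := by
    simp only [num, card_filter]
    rw [sum_comm]
  rw [this, sum_mul, num, card_filter, sum_mul]
  refine sum_le_sum fun ω _ => ?_
  split_ifs with h
  · omega
  · simp

end Pool.Agent.P.MP_8f87b2_lc
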