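import Pool.Agent.P.MP_8f87b2_lc.Defs
import Pool.Agent.P.MP_8f87b2_lc.Forms

/-!
# From random bits to random words
-/

namespace Pool.Agent.P.MP_8f87b2_lc

open Finset MeasureTheory

/-- the number written by `k` bits of the tape from position `p` on, lowest bit first -/
def bits (ω : ℕ → Bool) (p k : ℕ) : ℕ := ∑ i ∈ range k, (if ω (p + i) then 1 else 0) * 2 ^ i

theorem bits_succ (ω : ℕ → Bool) (p k : ℕ) :
    bits ω p (k + 1) = bits ω p k + (if ω (p + k) then 1 else 0) * 2 ^ k := by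
  simp [bits, sum_range_succ]

theorem bits_lt (ω : ℕ → Bool) (p k : ℕ) : bits ω p k < 2 ^ k := by
  induction k with
  | zero => simp [bits]
  | succ k ih => rw [bits_succ, pow_succ]; split_ifs <;> omega

theorem bits_eq {ω : ℕ → Bool} {p k x : ℕ} (h : ∀ i < k, ω (p + i) = x.testBit i) :
    bits ω p k = x % 2 ^ k := by
  induction k with
  | zero => simp [bits, Nat.mod_one]
  | succ k ih =>
    rw [bits_succ, ih fun i hi => h i (by omega), h k (by omega), pow_succ, Nat.mod_mul,
      Nat.testBit_eq_decide_div_mod_eq]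
    rcases Nat.mod_two_eq_zero_or_one (x / 2 ^ k) with h1 | h1 <;> simp [h1]

instance : IsProbabilityMeasure tapeLaw := by unfold tapeLaw; infer_instance

theorem tapeLaw_cyl (L : ℕ) (β : ℕ → Bool) :
    tapeLaw (Set.pi (range L : Finset ℕ) fun i => {β i}) = (2 ^ L : ENNReal)⁻¹ := by
  unfold tapeLaw
  rw [Measure.infinitePi_pi _ fun _ _ => MeasurableSet.of_discrete]
  simp only [ProbabilityTheory.uniformOn_univ]
  simp [ENNReal.inv_pow]

/-- the random words read from the tape -/
def words (M : ℕ) (nR k₁ k : ℕ) (ω : ℕ → Bool) : ℕ → ZMod M :=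
  ext fun i : Fin nR => (bits ω (k₁ + i * k) k : ZMod M)

theorem tape_bound {M : ℕ} [NeZero M] {k₁ k nR : ℕ} (hM : M = 2 ^ k)
    (Gd : ℕ → (ℕ → ZMod M) → Prop)
    (h : 2 * (2 ^ k₁ * M ^ nR) ≤ 3 * ∑ r ∈ range (2 ^ k₁), num nR (Gd r)) :
    2 / 3 ≤ tapeLaw {ω | Gd (bits ω 0 k₁) (words M nR k₁ k ω)} := by
  classical
  set S : Finset (ℕ × (Fin nR → ZMod M)) :=
    (range (2 ^ k₁) ×ˢ univ).filter fun p => Gd p.1 (ext p.2) with hS
  have hcard : S.card = ∑ r ∈ range (2 ^ k₁), num nR (Gd r) := by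
    rw [hS, card_filter, sum_product]
    refine sum_congr rfl fun r _ => ?_
    rw [num, card_filter]
  let β : ℕ × (Fin nR → ZMod M) → ℕ → Bool := fun p i =>
    if i < k₁ then p.1.testBit i else (ext p.2 ((i - k₁) / k)).val.testBit ((i - k₁) % k)
  let C : ℕ × (Fin nR → ZMod M) → Set (ℕ → Bool) := fun p =>
    Set.pi (range (k₁ + nR * k) : Finset ℕ) fun i => {β p i}
  have hdec : ∀ p ∈ S, ∀ ω ∈ C p, bits ω 0 k₁ = p.1 ∧
      (fun i : Fin nR => (bits ω (k₁ + i * k) k : ZMod M)) = p.2 := by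
    intro p hp ω hω
    simp only [hS, mem_filter, mem_product, mem_range] at hp
    simp only [C, Set.mem_pi, coe_range, Set.mem_Iio, Set.mem_singleton_iff] at hω
    constructor
    · rw [bits_eq (x := p.1), Nat.mod_eq_of_lt hp.1.1]
      intro i hi
      rw [Nat.zero_add, hω i (by omega)]
      simp [β, hi]
    · funext i
      rw [bits_eq (x := (p.2 i).val), ← hM, Nat.mod_eq_of_lt (ZMod.val_lt _), ZMod.natCast_val,
        ZMod.cast_id', id]
      intro u hu
      have hi := i.2
      rw [hω _ (by nlinarith)]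
      have e1 : (k₁ + i * k + u - k₁) = u + i * k := by omega
      simp only [β, e1]
      rw [if_neg (by omega), Nat.add_mul_div_right _ _ (by omega), Nat.div_eq_of_lt hu,
        Nat.add_mul_mod_self_right, Nat.mod_eq_of_lt hu]
      simp [ext, hi]
  have hsub : (⋃ p ∈ S, C p) ⊆ {ω | Gd (bits ω 0 k₁) (words M nR k₁ k ω)} := by
    intro ω hω
    simp only [Set.mem_iUnion] at hω
    obtain ⟨p, hp, hω⟩ := hω
    obtain ⟨h1, h2⟩ := hdec p hp ω hω
    simp only [Set.mem_ofPred_eq, words, h1, h2]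
    exact (mem_filter.mp hp).2
  refine le_trans ?_ (measure_mono hsub)
  rw [measure_biUnion_finset]
  · simp only [C, tapeLaw_cyl, sum_const, nsmul_eq_mul]
    have hp : 2 ^ k₁ * M ^ nR = 2 ^ (k₁ + nR * k) := by
      rw [pow_add, mul_comm nR, pow_mul, ← hM]
    rw [← hcard, hp] at h
    rw [← div_eq_mul_inv, ENNReal.le_div_iff_mul_le (by simp) (by simp), div_eq_mul_inv,
      mul_right_comm, ← div_eq_mul_inv]
    refine ENNReal.div_le_of_le_mul ?_
    rw [mul_comm 3] at h
    exact_mod_cast h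
  · intro p hp q hq hpq
    refine Set.disjoint_left.mpr fun ω h1 h2 => hpq ?_
    have a := hdec p hp ω h1
    have b := hdec q hq ω h2
    exact Prod.ext (a.1.symm.trans b.1) (a.2.symm.trans b.2)
  · intro p _
    exact MeasurableSet.pi (Finset.countable_toSet _) fun _ _ => MeasurableSet.of_discrete

end Pool.Agent.P.MP_8f87b2_lc
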