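import Pool.Agent.P.MP_8f87b2_lc.Lang
import Pool.Agent.P.MP_8f87b2_lc.Moebius
import Pool.Agent.P.MP_8f87b2_lc.Prob
import Pool.Agent.P.MP_8f87b2_lc.Tape

/-!
# Parameters, program text and ghost data
-/

namespace Pool.Agent.P.MP_8f87b2_lc

open Finset

attribute [simp] Expr.eval BOp.eval Expr.safe BOp.safe

def blk : List Stmt → Stmt
  | [] => .skip
  | s :: l => .seq s (blk l)

@[simp] theorem wp_blk_nil {E : Env} {Q : St → ℕ → Prop} {σ : St} {t : ℕ} :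
    WP E (blk []) Q σ t ↔ Q σ t := wp_skip

theorem wp_blk_cons {E : Env} {s : Stmt} {l : List Stmt} {Q : St → ℕ → Prop} {σ : St} {t : ℕ} :
    WP E (blk (s :: l)) Q σ t ↔ WP E s (fun σ' t' => WP E (blk l) Q σ' t') σ t := wp_seq

abbrev eadd (a b : Expr) : Expr := .bin .add a b
abbrev esub (a b : Expr) : Expr := .bin .sub a b
abbrev emul (a b : Expr) : Expr := .bin .mul a b
abbrev eand (a b : Expr) : Expr := .bin .band a b
abbrev eshr (a b : Expr) : Expr := .bin .shr a b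
abbrev elt (a b : Expr) : Expr := .bin .lt a b
abbrev radd (a b : Expr) : Expr := .bin .radd a b
abbrev rsub (a b : Expr) : Expr := .bin .rsub a b
abbrev rmul (a b : Expr) : Expr := .bin .rmul a b
abbrev einc (x : ℕ) : Expr := eadd (.v x) (.c 1)
/-- digit number `t` of `p` -/
abbrev edig (t p : ℕ) : Expr := eand (eshr (.v p) (emul (.c 10) (.v t))) (.c 1023)
/-- reduction modulo `M` -/
abbrev emodM (a : Expr) : Expr := eand a (esub (.v 6) (.c 1))
/-- the fingerprint weight -/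
abbrev ewt (a : Expr) : Expr :=
  radd (radd (.c 2) (rmul (rmul (.c 2) a) (.v 10))) (rmul (rmul a a) (rmul (.v 10) (.v 10)))
/-- the random offset of group `a` -/
abbrev eoff (a : Expr) : Expr := .ld 0 (eadd (emul (.v 14) (.c 1024)) a)
/-- nonzero iff entry `i` is not in the third class of the current instance -/
abbrev ecol (i : ℕ) : Expr := eand (eadd (.ld 7 (.v i)) (.v 40)) (.c 1)

/-! ### The program -/

def Gam : ℕ := 1378 ^ 10

def pSize : Stmt := blk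
  [.set 1 (.inp (.c 0)), .set 2 (.c 1), .set 3 (.c Gam), .set 4 (.c (2 ^ 200)),
    .set 5 (.c (2046 ^ 10)), .set 12 (.c 1024), .set 8 (.c (2 ^ 442)), .set 10 (.c (2 ^ 1200)),
    .set 11 (.c (1023 ^ 20)),
    .wh (elt (.v 3) (.v 1)) (blk
      [.set 2 (einc 2), .set 3 (emul (.v 3) (.c Gam)), .set 4 (emul (.v 4) (.c (2 ^ 200))),
        .set 5 (emul (.v 5) (.c (2046 ^ 10))), .set 12 (emul (.v 12) (.c 1024)),
        .set 8 (emul (.v 8) (.c (2 ^ 440))), .set 10 (emul (.v 10) (.c (2 ^ 1200))),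
        .set 11 (emul (.v 11) (.c (1023 ^ 20)))])]

/-- double variable `x` until `x * R[e] ≥ R[30]` -/
def pDouble (x e : ℕ) : Stmt := blk
  [.set x (.c 1), .wh (elt (emul (.v x) (.v e)) (.v 30)) (.set x (eadd (.v x) (.v x)))]

def pSetup : Stmt := blk
  [pSize, .set 13 (emul (.c 10) (.v 2)), .set 14 (emul (.c 20) (.v 2)),
    .set 9 (eadd (emul (.c 440) (.v 2)) (.c 2)),
    .set 30 (emul (emul (emul (.c 200) (.v 13)) (.v 3)) (.v 12)), .set 31 (.c 1), pDouble 6 31,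
    .set 30 (emul (emul (.c 5) (.v 13)) (.v 6)), pDouble 7 5,
    .set 15 (emul (.v 6) (.v 8)),
    .set 16 (esub (emul (emul (.v 10) (.v 10)) (.v 10)) (.c 1)),
    .set 17 (emul (emul (emul (emul (.c 60) (.v 3)) (.v 7)) (.v 7)) (.v 11)),
    .set 22 (emul (.c 2) (.v 7)), .set 18 (eadd (emul (.v 14) (.c 1024)) (.v 22)),
    .set 23 (emul (.c 2) (.v 6)), .set 24 (emul (.c 220) (.v 2)), .set 25 (.c 3)]

/-- read a random number below the power of two `R[p]` into variable `x` -/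
def pWord (x p : ℕ) : Stmt := blk
  [.set x (.c 0), .set 30 (.c 1),
    .wh (elt (.v 30) (.v p)) (blk
      [.rnd 31, .set x (eadd (.v x) (emul (.v 31) (.v 30))), .set 30 (eadd (.v 30) (.v 30))])]

def pRead : Stmt := forL 33 18 (blk [pWord 32 6, .st 0 (.v 33) (.v 32)])

def pTabIn : Stmt := blk
  [.set 38 (edig 37 33),
    .set 34 (emodM (eadd (.v 34) (.ld 0 (eadd (emul (.v 37) (.c 1024)) (.v 38))))),
    .ite (.v 38) (.ite (elt (.v 38) (.c 1023)) (.set 36 (einc 36)) .skip) (.set 35 (einc 35))]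

def pTab : Stmt := forL 33 4 (blk
  [.set 34 (.c 0), .set 35 (.c 0), .set 36 (.c 0), forL 37 14 pTabIn,
    .st 1 (.v 33) (.v 34), .st 2 (.v 33) (.v 35), .st 3 (.v 33) (.v 36)])

def pFilter (b x : ℕ) (e : Expr) : Stmt := blk
  [.set x (.c 0), forL 33 4 (.ite e (blk [.st b (.v x) (.v 33), .set x (einc x)]) .skip)]

def pL1 : Stmt := pFilter 4 20 (elt (.v 2) (eadd (.ld 2 (.v 33)) (.c 1)))

def pL2 : Stmt := pFilter 5 21
  (eand (elt (.ld 3 (.v 33)) (.c 1)) (elt (.ld 2 (.v 33)) (einc 2)))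

def pHash : Stmt := forL 33 1 (blk
  [.set 34 (.inp (einc 33)),
    .st 6 (.v 33) (eshr (eand (rmul (.v 19) (.v 34)) (esub (.v 15) (.c 1))) (.v 9)),
    .st 7 (.v 33) (elt (radd (.v 34) (.v 8)) (.v 8))])

def pListIn : Stmt := blk
  [.set 39 (einc 39),
    .set 36 (emodM (eadd (eadd (eoff (eadd (.v 7) (.v 33))) (.ld 6 (.v 34))) (.v 35))),
    .st 9 (.v 39) (.ld 8 (.v 36)), .st 8 (.v 36) (.v 39), .st 10 (.v 39) (.v 33),
    .st 11 (.v 39) (.v 34)]

def pList : Stmt := blk [.set 39 (.c 0), forL 33 7 (forL 34 1 (forL 35 25 pListIn))]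

def pZero : Stmt := forL 33 23 (.st 12 (.v 33) (.c 0))

def pAcc : Stmt := forL 33 1 (.ite (ecol 33) (blk
  [.set 34 (.inp (einc 33)),
    .set 35 (eadd (.ld 6 (.v 33))
      (emul (eand (eshr (.v 33) (eshr (.v 40) (.c 1))) (.c 1)) (.v 6))),
    .st 12 (.v 35) (radd (.ld 12 (.v 35)) (ewt (.v 34)))]) .skip)

def pFill : Stmt := forL 34 4 (.ite
  (eand (elt (.ld 2 (.v 34)) (einc 13)) (elt (.v 13) (eadd (.ld 2 (.v 34)) (.c 1))))
  (.st 13 (eadd (.v 41) (.v 34)) (.ld 12 (eadd (emodM (eadd (.v 42) (.ld 1 (.v 34)))) (.v 43))))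
  (.st 13 (eadd (.v 41) (.v 34)) (.c 0)))

def pPass : Stmt := forL 34 4 (blk
  [.set 38 (edig 35 34),
    .ite (.v 38) (.st 13 (eadd (.v 41) (.v 34)) (radd (.ld 13 (eadd (.v 41) (.v 34)))
      (.ld 13 (eadd (.v 41) (esub (.v 34) (emul (.v 38) (.v 44))))))) .skip])

def pZeta : Stmt := blk
  [.set 44 (.c 1), forL 35 14 (blk [pPass, .set 44 (emul (.v 44) (.c 1024))])]

def pEnc : Stmt := forL 33 22 (blk
  [.set 41 (emul (.v 33) (.v 4)), .set 42 (eoff (.v 33)),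
    .set 43 (emul (elt (.v 7) (einc 33)) (.v 6)), pFill, pZeta])

def pUIn : Stmt := blk
  [.set 36 (.ld 4 (.v 35)),
    .set 37 (rmul (.ld 13 (eadd (.v 41) (.v 36))) (.ld 13 (eadd (.v 42) (.v 36)))),
    .set 45 (.c 0), .set 44 (.c 1),
    .wh (eand (elt (.v 45) (.v 14)) (elt (.c 0) (edig 45 36))) (blk
      [.set 37 (rsub (.v 37) (.ld 14 (eadd (.v 43) (esub (.v 36) (emul (edig 45 36) (.v 44)))))),
        .set 45 (einc 45), .set 44 (emul (.v 44) (.c 1024))]),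
    .st 14 (eadd (.v 43) (.v 36)) (.v 37)]

def pU : Stmt := forL 33 7 (forL 34 7 (blk
  [.set 41 (emul (.v 33) (.v 4)), .set 42 (emul (eadd (.v 7) (.v 34)) (.v 4)),
    .set 43 (emul (eadd (emul (.v 33) (.v 7)) (.v 34)) (.v 4)), forL 35 20 pUIn]))

def pSumIn : Stmt := blk
  [.set 49 (.ld 5 (.v 48)), .set 50 (eand (.v 34) (.v 49)),
    .ite (elt (.ld 2 (.v 49)) (.v 2))
      (.set 51 (rmul (.ld 13 (eadd (.v 41) (.v 50))) (.ld 13 (eadd (.v 42) (.v 50)))))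
      (.set 51 (.ld 14 (eadd (.v 43) (.v 50)))),
    .ite (eand (.ld 2 (.v 49)) (.c 1)) (.set 47 (rsub (.v 47) (.v 51)))
      (.set 47 (radd (.v 47) (.v 51)))]

def pOne : Stmt := blk
  [.set 38 (.ld 10 (.v 36)), .set 41 (emul (.v 33) (.v 4)),
    .set 42 (emul (eadd (.v 7) (.v 38)) (.v 4)),
    .set 43 (emul (eadd (emul (.v 33) (.v 7)) (.v 38)) (.v 4)), .set 47 (.c 0),
    forL 48 21 pSumIn,
    .set 52 (eand (rmul (.v 47) (ewt (.inp (einc 37)))) (.v 16)),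
    .ite (eand (elt (.c 0) (.v 52)) (elt (.v 52) (.v 10))) (.set 0 (.c 1)) .skip]

def pQuery : Stmt := blk
  [.set 35 (emodM (esub (emul (.c 3) (.v 6))
      (eadd (eadd (eoff (.v 33)) (.ld 1 (.v 34))) (.ld 1 (.c 0))))),
    .set 36 (.ld 8 (.v 35)),
    .wh (eand (elt (.c 0) (.v 36)) (elt (.v 46) (.v 17))) (blk
      [.set 46 (eadd (.v 46) (.v 6)), .set 37 (.ld 11 (.v 36)), .ite (ecol 37) .skip pOne,
        .set 36 (.ld 9 (.v 36))])]

def pEval : Stmt := blk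
  [.set 46 (.c 0), forL 33 7 (forL 34 4 (.ite (.ld 2 (.v 34)) .skip pQuery))]

def pInst : Stmt := blk [pZero, pAcc, pEnc, pU, pEval]

def pMain : Stmt := blk
  [pSetup, pWord 19 15, pRead, pTab, pL1, pL2, pHash, pList, forL 40 24 pInst]

/-! ### Parameters -/

structure Ctx where
  s : ℕ
  n : ℕ
  k : ℕ
  G : ℕ
  x : ℕ → ℤ

namespace Ctx

variable (c : Ctx)

def l : ℕ := 20 * c.s
def h : ℕ := 10 * c.s
def A : ℕ := 1024 ^ c.l
def M : ℕ := 2 ^ c.k
def v : ℕ := 440 * c.s + 2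
def V : ℕ := 2 ^ c.v
def T : ℕ := 2 ^ (1200 * c.s)
def N : ℕ := Gam ^ c.s
def Bud : ℕ := 60 * c.N * c.G * c.G * 1023 ^ c.l
def nR : ℕ := c.l * 1024 + 2 * c.G

instance : NeZero c.M := ⟨by unfold M; positivity⟩

theorem M_pos : 0 < c.M := by unfold M; positivity
theorem A_pos : 0 < c.A := by unfold A; positivity
theorem V_pos : 0 < c.V := by unfold V; positivity
theorem T_pos : 0 < c.T := by unfold T; positivity

theorem and_M (a : ℕ) : a &&& (c.M - 1) = a % c.M := Nat.and_two_pow_sub_one_eq_mod _ _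

end Ctx

/-- the parameter variables hold their values -/
structure Par (c : Ctx) (σ : St) : Prop where
  n : σ.var 1 = c.n
  s : σ.var 2 = c.s
  A : σ.var 4 = c.A
  M : σ.var 6 = c.M
  G : σ.var 7 = c.G
  V : σ.var 8 = c.V
  v : σ.var 9 = c.v
  T : σ.var 10 = c.T
  h : σ.var 13 = c.h
  l : σ.var 14 = c.l
  Wd : σ.var 15 = c.M * c.V
  T3 : σ.var 16 = c.T ^ 3 - 1
  Bud : σ.var 17 = c.Bud
  nR : σ.var 18 = c.nR
  G2 : σ.var 22 = 2 * c.G
  M2 : σ.var 23 = 2 * c.M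
  nI : σ.var 24 = 220 * c.s
  three : σ.var 25 = 3

def parVars : List ℕ := [1, 2, 4, 6, 7, 8, 9, 10, 13, 14, 15, 16, 17, 18, 22, 23, 24, 25]

theorem Par.frame {c : Ctx} {σ σ' : St} {vs bs : List ℕ} {r : Bool} (h : Par c σ)
    (hF : Frame vs bs r σ σ') (hv : ∀ x ∈ parVars, x ∉ vs) : Par c σ' := by
  have e : ∀ x ∈ parVars, σ'.var x = σ.var x := fun x hx => hF.var x (hv x hx)
  exact ⟨(e 1 (by decide)).trans h.n, (e 2 (by decide)).trans h.s, (e 4 (by decide)).trans h.A,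
    (e 6 (by decide)).trans h.M, (e 7 (by decide)).trans h.G, (e 8 (by decide)).trans h.V,
    (e 9 (by decide)).trans h.v, (e 10 (by decide)).trans h.T, (e 13 (by decide)).trans h.h,
    (e 14 (by decide)).trans h.l, (e 15 (by decide)).trans h.Wd, (e 16 (by decide)).trans h.T3,
    (e 17 (by decide)).trans h.Bud, (e 18 (by decide)).trans h.nR, (e 22 (by decide)).trans h.G2,
    (e 23 (by decide)).trans h.M2, (e 24 (by decide)).trans h.nI,
    (e 25 (by decide)).trans h.three⟩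

/-- size facts relating the parameters and the environment -/
structure Bnd (c : Ctx) (E : Env) : Prop where
  s1 : 1 ≤ c.s
  G1 : 1 ≤ c.G
  n1 : E.n1 = c.n + 1
  inp : ∀ i < c.n, E.inp (i + 1) = (c.x i % E.W).toNat
  xV : ∀ i < c.n, 4 * |c.x i| ≤ c.V
  big : 2000 * E.Lim < E.W
  lA : c.A * 1024 ≤ E.Lim
  lGA : 2 * c.G * c.A ≤ E.Lim
  lGGA : c.G * c.G * c.A ≤ E.Lim
  lM : 4 * c.M ≤ E.Lim
  lE : 3 * c.G * c.n + 1 ≤ E.Lim
  ln : c.n + 1 ≤ E.Lim
  lR : c.nR ≤ E.Lim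
  ls : 1000 * c.s ≤ E.Lim
  lB : c.Bud + c.M < E.W
  lWd : 2 * (c.M * c.V) < E.W
  dWd : c.M * c.V ∣ E.W
  dT : c.T ^ 3 ∣ E.W

/-! ### Ring arithmetic modulo the word modulus -/

theorem cast_radd (W a b : ℕ) : (((a + b) % W : ℕ) : ZMod W) = a + b := by
  rw [ZMod.natCast_mod, Nat.cast_add]

theorem cast_rmul (W a b : ℕ) : (((a * b) % W : ℕ) : ZMod W) = a * b := by
  rw [ZMod.natCast_mod, Nat.cast_mul]

theorem cast_rsub {W : ℕ} (hW : 0 < W) (a b : ℕ) :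
    (((a + (W - b % W)) % W : ℕ) : ZMod W) = a - b := by
  rw [ZMod.natCast_mod, Nat.cast_add, Nat.cast_sub (Nat.mod_lt _ hW).le, ZMod.natCast_self,
    ZMod.natCast_mod]
  ring

theorem cast_inp {W : ℕ} (hW : 0 < W) (x : ℤ) : (((x % W).toNat : ℕ) : ZMod W) = x := by
  have : (((x % W).toNat : ℕ) : ℤ) = x % W :=
    Int.toNat_of_nonneg (Int.emod_nonneg _ (by exact_mod_cast hW.ne'))
  rw [← Int.cast_natCast, this, ZMod.intCast_mod]

theorem mul_add_lt {g G p A : ℕ} (hg : g < G) (hp : p < A) : g * A + p < G * A := by nlinarith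

end Pool.Agent.P.MP_8f87b2_lc
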