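import Mathlib

/-!
# The randomized word-RAM and integer 3SUM

Only the definitions used by the final statement live in this file.
-/

namespace Pool.Agent.P.MP_8f87b2_lc

/-- Binary word operations: addition, subtraction and multiplication modulo `2 ^ w`,
bitwise and, right shift, and comparison. -/
inductive Op
  | add | sub | mul | band | shr | lt

/-- The value of a word operation on words of `w` bits. -/
def Op.eval (w : ℕ) : Op → ℕ → ℕ → ℕ
  | .add, a, b => (a + b) % 2 ^ w
  | .sub, a, b => (a + (2 ^ w - b % 2 ^ w)) % 2 ^ w
  | .mul, a, b => (a * b) % 2 ^ w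
  | .band, a, b => a &&& b
  | .shr, a, b => a >>> b
  | .lt, a, b => if a < b then 1 else 0

/-- Instructions of the word-RAM. Here `d`, `a`, `b` name registers, `v` is a constant and
`l` is a position in the program. -/
inductive Instr
  /-- `R[d] := v mod 2 ^ w` -/
  | const (d v : ℕ)
  /-- `R[d] := R[a] o R[b]` -/
  | op (o : Op) (d a b : ℕ)
  /-- `R[d] := M[R[a]]` (indirect read) -/
  | load (d a : ℕ)
  /-- `M[R[a]] := R[b]` (indirect write) -/
  | store (a b : ℕ)
  /-- jump to `l` if `R[a] = 0` -/
  | jz (a l : ℕ)
  /-- jump to `l` -/
  | jmp (l : ℕ)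
  /-- `R[d] :=` next bit of the random tape -/
  | rand (d : ℕ)

/-- A configuration: program counter, registers, memory, number of random bits read so far. -/
structure Config where
  pc : ℕ
  reg : ℕ → ℕ
  mem : ℕ → ℕ
  pos : ℕ

/-- One unit-cost step of program `P` with word size `w` and random tape `ω`.
A configuration whose program counter is past the end of `P` has halted and does not change. -/
def step (w : ℕ) (P : List Instr) (ω : ℕ → Bool) (c : Config) : Config :=
  match P[c.pc]? with
  | none => c
  | some (.const d v) => { c with pc := c.pc + 1, reg := Function.update c.reg d (v % 2 ^ w) }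
  | some (.op o d a b) =>
      { c with pc := c.pc + 1, reg := Function.update c.reg d (o.eval w (c.reg a) (c.reg b)) }
  | some (.load d a) =>
      { c with pc := c.pc + 1, reg := Function.update c.reg d (c.mem (c.reg a)) }
  | some (.store a b) =>
      { c with pc := c.pc + 1, mem := Function.update c.mem (c.reg a) (c.reg b) }
  | some (.jz a l) => { c with pc := if c.reg a = 0 then l else c.pc + 1 }
  | some (.jmp l) => { c with pc := l }
  | some (.rand d) =>
      { c with pc := c.pc + 1, pos := c.pos + 1,
               reg := Function.update c.reg d (if ω c.pos then 1 else 0) }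

/-- The starting configuration on input `xs`: cell `0` holds the length `n`, cells `1, …, n` hold
the entries in binary as `w`-bit two's complement words, everything else is `0`. -/
def start (w : ℕ) (xs : List ℤ) : Config where
  pc := 0
  reg := fun _ => 0
  mem := fun a => if a = 0 then xs.length % 2 ^ w else (xs.getD (a - 1) 0 % 2 ^ w).toNat
  pos := 0

/-- The configuration after `t` steps on input `xs`. -/
def run (w : ℕ) (P : List Instr) (ω : ℕ → Bool) (xs : List ℤ) (t : ℕ) : Config :=
  (step w P ω)^[t] (start w xs)

/-- A valid instance: `n` pairwise distinct integers in `[-n ^ 4, n ^ 4]`. -/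
def Valid (xs : List ℤ) : Prop :=
  xs.Nodup ∧ ∀ x ∈ xs, |x| ≤ (xs.length : ℤ) ^ 4

/-- A yes-instance: three distinct indices whose entries sum to zero. -/
def IsYes (xs : List ℤ) : Prop :=
  ∃ i j k : Fin xs.length, i ≠ j ∧ i ≠ k ∧ j ≠ k ∧ xs[i] + xs[j] + xs[k] = 0

/-- The law of the random tape: independent fair bits. -/
noncomputable def tapeLaw : MeasureTheory.Measure (ℕ → Bool) :=
  MeasureTheory.Measure.infinitePi fun _ => ProbabilityTheory.uniformOn Set.univ

/-- Some randomized word-RAM program decides integer 3SUM in time `O(n ^ c)`: there are a program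
`P` and constants `K`, `C` such that for every valid instance with `n` entries and every word size
`w ≥ K (log₂ n + 1)` (so `w = O(log N)` suffices) there is a step count `t ≤ C (n ^ c + 1)` such
that on every tape the program has halted after `t` steps, and with probability at least `2 / 3`
its answer (yes iff register `0` is nonzero) is correct. -/
def DecidesInTime (c : ℚ) : Prop :=
  ∃ (P : List Instr) (K C : ℕ), ∀ xs : List ℤ, Valid xs →
    ∀ w : ℕ, K * (Nat.log 2 xs.length + 1) ≤ w →
      ∃ t : ℕ, (t : ℝ) ≤ C * ((xs.length : ℝ) ^ (c : ℝ) + 1) ∧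
        (∀ ω, P.length ≤ (run w P ω xs t).pc) ∧
        2 / 3 ≤ tapeLaw {ω | (run w P ω xs t).reg 0 ≠ 0 ↔ IsYes xs}

end Pool.Agent.P.MP_8f87b2_lc
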