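import Pool.Agent.P.MP_8f87b2_lc.Defs

/-!
# A small structured language with a cost semantics

Programs of this language are compiled to the word-RAM in `Compile.lean`.
-/

namespace Pool.Agent.P.MP_8f87b2_lc

/-- Binary operations of the structured language. `add`, `sub`, `mul` are exact and must not
overflow; `radd`, `rsub`, `rmul` are computed modulo the word modulus. -/
inductive BOp
  | add | sub | mul | radd | rsub | rmul | band | shr | lt
  deriving DecidableEq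

inductive Expr
  | c (v : ℕ)
  | v (x : ℕ)
  | bin (o : BOp) (a b : Expr)
  | ld (k : ℕ) (a : Expr)
  | inp (a : Expr)

inductive Stmt
  | skip
  | set (x : ℕ) (e : Expr)
  | st (k : ℕ) (a e : Expr)
  | rnd (x : ℕ)
  | seq (s₁ s₂ : Stmt)
  | ite (e : Expr) (s₁ s₂ : Stmt)
  | wh (e : Expr) (s : Stmt)

/-- The fixed environment of a run. -/
structure Env where
  W : ℕ
  Lim : ℕ
  n1 : ℕ
  inp : ℕ → ℕ
  ω : ℕ → Bool

structure St where
  var : ℕ → ℕ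
  bank : ℕ → ℕ → ℕ
  pos : ℕ

def BOp.eval (W : ℕ) : BOp → ℕ → ℕ → ℕ
  | .add, a, b => a + b
  | .sub, a, b => a - b
  | .mul, a, b => a * b
  | .radd, a, b => (a + b) % W
  | .rsub, a, b => (a + (W - b % W)) % W
  | .rmul, a, b => (a * b) % W
  | .band, a, b => a &&& b
  | .shr, a, b => a >>> b
  | .lt, a, b => if a < b then 1 else 0

def BOp.safe (W : ℕ) : BOp → ℕ → ℕ → Prop
  | .add, a, b => a + b < W
  | .sub, a, b => b ≤ a
  | .mul, a, b => a * b < W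
  | _, _, _ => True

def Expr.eval (E : Env) (σ : St) : Expr → ℕ
  | .c n => n
  | .v x => σ.var x
  | .bin o a b => o.eval E.W (a.eval E σ) (b.eval E σ)
  | .ld k a => σ.bank k (a.eval E σ)
  | .inp a => E.inp (a.eval E σ)

def Expr.safe (E : Env) (σ : St) : Expr → Prop
  | .c n => n < E.W
  | .v _ => True
  | .bin o a b => a.safe E σ ∧ b.safe E σ ∧ o.safe E.W (a.eval E σ) (b.eval E σ)
  | .ld _ a => a.safe E σ ∧ a.eval E σ < E.Lim
  | .inp a => a.safe E σ ∧ a.eval E σ < E.n1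

def St.setv (σ : St) (x v : ℕ) : St := { σ with var := Function.update σ.var x v }

def St.setm (σ : St) (k a v : ℕ) : St :=
  { σ with bank := Function.update σ.bank k (Function.update (σ.bank k) a v) }

def St.draw (σ : St) (E : Env) (x : ℕ) : St :=
  { σ with var := Function.update σ.var x (if E.ω σ.pos then 1 else 0), pos := σ.pos + 1 }

@[simp] theorem St.setv_var (σ : St) (x v y : ℕ) :
    (σ.setv x v).var y = if y = x then v else σ.var y := by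
  simp [St.setv, Function.update_apply]

@[simp] theorem St.setv_bank (σ : St) (x v : ℕ) : (σ.setv x v).bank = σ.bank := rfl
@[simp] theorem St.setv_pos (σ : St) (x v : ℕ) : (σ.setv x v).pos = σ.pos := rfl
@[simp] theorem St.setm_var (σ : St) (k a v : ℕ) : (σ.setm k a v).var = σ.var := rfl
@[simp] theorem St.setm_pos (σ : St) (k a v : ℕ) : (σ.setm k a v).pos = σ.pos := rfl

@[simp] theorem St.setm_bank (σ : St) (k a v j : ℕ) :
    (σ.setm k a v).bank j = if j = k then Function.update (σ.bank k) a v else σ.bank j := by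
  simp [St.setm, Function.update_apply]

@[simp] theorem St.draw_var (σ : St) (E : Env) (x y : ℕ) :
    (σ.draw E x).var y = if y = x then (if E.ω σ.pos then 1 else 0) else σ.var y := by
  simp [St.draw, Function.update_apply]

@[simp] theorem St.draw_bank (σ : St) (E : Env) (x : ℕ) : (σ.draw E x).bank = σ.bank := rfl
@[simp] theorem St.draw_pos (σ : St) (E : Env) (x : ℕ) : (σ.draw E x).pos = σ.pos + 1 := rfl

/-- Big-step semantics; the last index counts atomic statements and tests. -/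
inductive Exec (E : Env) : Stmt → St → St → ℕ → Prop
  | skip (σ : St) : Exec E .skip σ σ 0
  | set (σ : St) (x : ℕ) (e : Expr) (h : e.safe E σ) :
      Exec E (.set x e) σ (σ.setv x (e.eval E σ)) 1
  | st (σ : St) (k : ℕ) (a e : Expr) (ha : a.safe E σ) (he : e.safe E σ)
      (hl : a.eval E σ < E.Lim) : Exec E (.st k a e) σ (σ.setm k (a.eval E σ) (e.eval E σ)) 1
  | rnd (σ : St) (x : ℕ) : Exec E (.rnd x) σ (σ.draw E x) 1
  | seq {s₁ s₂ : Stmt} {σ σ' σ'' : St} {t₁ t₂ : ℕ} (h₁ : Exec E s₁ σ σ' t₁)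
      (h₂ : Exec E s₂ σ' σ'' t₂) : Exec E (.seq s₁ s₂) σ σ'' (t₁ + t₂)
  | iteT {e : Expr} {s₁ s₂ : Stmt} {σ σ' : St} {t : ℕ} (h : e.safe E σ) (hc : e.eval E σ ≠ 0)
      (h₁ : Exec E s₁ σ σ' t) : Exec E (.ite e s₁ s₂) σ σ' (t + 1)
  | iteF {e : Expr} {s₁ s₂ : Stmt} {σ σ' : St} {t : ℕ} (h : e.safe E σ) (hc : e.eval E σ = 0)
      (h₂ : Exec E s₂ σ σ' t) : Exec E (.ite e s₁ s₂) σ σ' (t + 1)
  | whF {e : Expr} {s : Stmt} {σ : St} (h : e.safe E σ) (hc : e.eval E σ = 0) :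
      Exec E (.wh e s) σ σ 1
  | whT {e : Expr} {s : Stmt} {σ σ' σ'' : St} {t₁ t₂ : ℕ} (h : e.safe E σ)
      (hc : e.eval E σ ≠ 0) (h₁ : Exec E s σ σ' t₁) (h₂ : Exec E (.wh e s) σ' σ'' t₂) :
      Exec E (.wh e s) σ σ'' (t₁ + t₂ + 1)

/-- Total-correctness weakest precondition; `t₀` is the time elapsed before the statement. -/
def WP (E : Env) (s : Stmt) (Q : St → ℕ → Prop) (σ : St) (t₀ : ℕ) : Prop :=
  ∃ σ' t, Exec E s σ σ' t ∧ Q σ' (t₀ + t)

variable {E : Env}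

theorem WP.mono {s : Stmt} {Q Q' : St → ℕ → Prop} {σ : St} {t₀ : ℕ} (h : WP E s Q σ t₀)
    (hq : ∀ σ' t, Q σ' t → Q' σ' t) : WP E s Q' σ t₀ := by
  obtain ⟨σ', t, h1, h2⟩ := h
  exact ⟨σ', t, h1, hq _ _ h2⟩

@[simp] theorem wp_skip {Q : St → ℕ → Prop} {σ : St} {t₀ : ℕ} :
    WP E .skip Q σ t₀ ↔ Q σ t₀ := by
  constructor
  · rintro ⟨σ', t, h1, h2⟩; cases h1; simpa using h2
  · intro h; exact ⟨σ, 0, .skip σ, by simpa using h⟩

@[simp] theorem wp_set {x : ℕ} {e : Expr} {Q : St → ℕ → Prop} {σ : St} {t₀ : ℕ} :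
    WP E (.set x e) Q σ t₀ ↔ e.safe E σ ∧ Q (σ.setv x (e.eval E σ)) (t₀ + 1) := by
  constructor
  · rintro ⟨σ', t, h1, h2⟩; cases h1; exact ⟨‹_›, h2⟩
  · rintro ⟨h1, h2⟩; exact ⟨_, 1, .set σ x e h1, h2⟩

@[simp] theorem wp_st {k : ℕ} {a e : Expr} {Q : St → ℕ → Prop} {σ : St} {t₀ : ℕ} :
    WP E (.st k a e) Q σ t₀ ↔ a.safe E σ ∧ e.safe E σ ∧ a.eval E σ < E.Lim ∧
      Q (σ.setm k (a.eval E σ) (e.eval E σ)) (t₀ + 1) := by
  constructor
  · rintro ⟨σ', t, h1, h2⟩; cases h1; exact ⟨‹_›, ‹_›, ‹_›, h2⟩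
  · rintro ⟨h1, h2, h3, h4⟩; exact ⟨_, 1, .st σ k a e h1 h2 h3, h4⟩

@[simp] theorem wp_rnd {x : ℕ} {Q : St → ℕ → Prop} {σ : St} {t₀ : ℕ} :
    WP E (.rnd x) Q σ t₀ ↔ Q (σ.draw E x) (t₀ + 1) := by
  constructor
  · rintro ⟨σ', t, h1, h2⟩; cases h1; exact h2
  · intro h; exact ⟨_, 1, .rnd σ x, h⟩

theorem wp_seq {s₁ s₂ : Stmt} {Q : St → ℕ → Prop} {σ : St} {t₀ : ℕ} :
    WP E (.seq s₁ s₂) Q σ t₀ ↔ WP E s₁ (fun σ' t => WP E s₂ Q σ' t) σ t₀ := by
  constructor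
  · rintro ⟨σ', t, h1, h2⟩
    cases h1 with
    | seq h₁ h₂ => exact ⟨_, _, h₁, _, _, h₂, by simpa [Nat.add_assoc] using h2⟩
  · rintro ⟨σ', t, h1, σ'', t', h2, h3⟩
    exact ⟨_, _, .seq h1 h2, by simpa [Nat.add_assoc] using h3⟩

theorem wp_iteT {e : Expr} {s₁ s₂ : Stmt} {Q : St → ℕ → Prop} {σ : St} {t₀ : ℕ}
    (h : e.safe E σ) (hc : e.eval E σ ≠ 0) (h₁ : WP E s₁ Q σ (t₀ + 1)) :
    WP E (.ite e s₁ s₂) Q σ t₀ := by
  obtain ⟨σ', t, h1, h2⟩ := h₁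
  exact ⟨σ', t + 1, .iteT h hc h1, by rwa [show t₀ + (t + 1) = t₀ + 1 + t by omega]⟩

theorem wp_iteF {e : Expr} {s₁ s₂ : Stmt} {Q : St → ℕ → Prop} {σ : St} {t₀ : ℕ}
    (h : e.safe E σ) (hc : e.eval E σ = 0) (h₂ : WP E s₂ Q σ (t₀ + 1)) :
    WP E (.ite e s₁ s₂) Q σ t₀ := by
  obtain ⟨σ', t, h1, h2⟩ := h₂
  exact ⟨σ', t + 1, .iteF h hc h1, by rwa [show t₀ + (t + 1) = t₀ + 1 + t by omega]⟩

theorem wp_ite {e : Expr} {s₁ s₂ : Stmt} {Q : St → ℕ → Prop} {σ : St} {t₀ : ℕ} :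
    WP E (.ite e s₁ s₂) Q σ t₀ ↔ e.safe E σ ∧
      (e.eval E σ ≠ 0 → WP E s₁ Q σ (t₀ + 1)) ∧ (e.eval E σ = 0 → WP E s₂ Q σ (t₀ + 1)) := by
  constructor
  · rintro ⟨σ', t, h1, h2⟩
    cases h1 with
    | iteT h hc h₁ =>
      refine ⟨h, fun _ => ⟨_, _, h₁, ?_⟩, fun h' => absurd h' hc⟩
      rwa [Nat.add_assoc, Nat.add_comm 1]
    | iteF h hc h₂ =>
      refine ⟨h, fun h' => absurd hc h', fun _ => ⟨_, _, h₂, ?_⟩⟩
      rwa [Nat.add_assoc, Nat.add_comm 1]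
  · rintro ⟨h, h1, h2⟩
    by_cases hc : e.eval E σ = 0
    · exact wp_iteF h hc (h2 hc)
    · exact wp_iteT h hc (h1 hc)

/-! ### Frames -/

def Stmt.wv : Stmt → List ℕ
  | .skip => []
  | .set x _ => [x]
  | .st _ _ _ => []
  | .rnd x => [x]
  | .seq s₁ s₂ => s₁.wv ++ s₂.wv
  | .ite _ s₁ s₂ => s₁.wv ++ s₂.wv
  | .wh _ s => s.wv

def Stmt.wb : Stmt → List ℕ
  | .skip => []
  | .set _ _ => []
  | .st k _ _ => [k]
  | .rnd _ => []
  | .seq s₁ s₂ => s₁.wb ++ s₂.wb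
  | .ite _ s₁ s₂ => s₁.wb ++ s₂.wb
  | .wh _ s => s.wb

def Stmt.rd : Stmt → Bool
  | .skip => false
  | .set _ _ => false
  | .st _ _ _ => false
  | .rnd _ => true
  | .seq s₁ s₂ => s₁.rd || s₂.rd
  | .ite _ s₁ s₂ => s₁.rd || s₂.rd
  | .wh _ s => s.rd

/-- `σ'` agrees with `σ` outside the variables `vs` and the banks `bs`. -/
structure Frame (vs bs : List ℕ) (r : Bool) (σ σ' : St) : Prop where
  var : ∀ x, x ∉ vs → σ'.var x = σ.var x
  bank : ∀ k, k ∉ bs → σ'.bank k = σ.bank k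
  pos : r = false → σ'.pos = σ.pos

theorem Frame.refl (vs bs : List ℕ) (r : Bool) (σ : St) : Frame vs bs r σ σ :=
  ⟨fun _ _ => rfl, fun _ _ => rfl, fun _ => rfl⟩

theorem Frame.trans {vs bs : List ℕ} {r : Bool} {σ σ' σ'' : St} (h₁ : Frame vs bs r σ σ')
    (h₂ : Frame vs bs r σ' σ'') : Frame vs bs r σ σ'' :=
  ⟨fun x hx => (h₂.var x hx).trans (h₁.var x hx), fun k hk => (h₂.bank k hk).trans (h₁.bank k hk),
    fun hr => (h₂.pos hr).trans (h₁.pos hr)⟩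

theorem Frame.weaken {vs bs vs' bs' : List ℕ} {r r' : Bool} {σ σ' : St} (h : Frame vs bs r σ σ')
    (hv : ∀ x ∈ vs, x ∈ vs') (hb : ∀ k ∈ bs, k ∈ bs') (hr : r' = false → r = false) :
    Frame vs' bs' r' σ σ' :=
  ⟨fun x hx => h.var x fun h' => hx (hv x h'), fun k hk => h.bank k fun h' => hk (hb k h'),
    fun h' => h.pos (hr h')⟩

theorem Exec.frame {s : Stmt} {σ σ' : St} {t : ℕ} (h : Exec E s σ σ' t) :
    Frame s.wv s.wb s.rd σ σ' := by
  induction h with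
  | skip σ => exact Frame.refl _ _ _ _
  | set σ x e h =>
    refine ⟨fun y hy => ?_, fun _ _ => rfl, fun _ => rfl⟩
    simp only [Stmt.wv, List.mem_singleton] at hy; simp [hy]
  | st σ k a e ha he hl =>
    refine ⟨fun _ _ => rfl, fun j hj => ?_, fun _ => rfl⟩
    simp only [Stmt.wb, List.mem_singleton] at hj; simp [hj]
  | rnd σ x =>
    refine ⟨fun y hy => ?_, fun _ _ => rfl, fun h => by simp [Stmt.rd] at h⟩
    simp only [Stmt.wv, List.mem_singleton] at hy; simp [hy]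
  | seq h₁ h₂ ih₁ ih₂ =>
    refine (ih₁.weaken ?_ ?_ ?_).trans (ih₂.weaken ?_ ?_ ?_) <;>
      simp +contextual [Stmt.wv, Stmt.wb, Stmt.rd]
  | iteT h hc h₁ ih =>
    refine ih.weaken ?_ ?_ ?_ <;> simp +contextual [Stmt.wv, Stmt.wb, Stmt.rd]
  | iteF h hc h₁ ih =>
    refine ih.weaken ?_ ?_ ?_ <;> simp +contextual [Stmt.wv, Stmt.wb, Stmt.rd]
  | whF h hc => exact Frame.refl _ _ _ _
  | whT h hc h₁ h₂ ih₁ ih₂ => exact ih₁.trans ih₂

/-- The writes of `s` are within the given lists. -/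
def Stmt.Within (s : Stmt) (vs bs : List ℕ) (r : Bool) : Prop :=
  (∀ x ∈ s.wv, x ∈ vs) ∧ (∀ k ∈ s.wb, k ∈ bs) ∧ (r = false → s.rd = false)

instance (s : Stmt) (vs bs : List ℕ) (r : Bool) : Decidable (s.Within vs bs r) := by
  unfold Stmt.Within; infer_instance

theorem WP.frame {s : Stmt} {Q : St → ℕ → Prop} {σ : St} {t₀ : ℕ} (h : WP E s Q σ t₀)
    (vs bs : List ℕ) (r : Bool) (hw : s.Within vs bs r) :
    WP E s (fun σ' t => Frame vs bs r σ σ' ∧ Q σ' t) σ t₀ := by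
  obtain ⟨σ', t, h1, h2⟩ := h
  exact ⟨σ', t, h1, h1.frame.weaken hw.1 hw.2.1 hw.2.2, h2⟩

/-- Call a verified fragment and continue with its frame and postcondition. -/
theorem WP.call {s : Stmt} {Q Q' : St → ℕ → Prop} {σ : St} {t₀ : ℕ} (h : WP E s Q σ t₀)
    (vs bs : List ℕ) (r : Bool) (hw : s.Within vs bs r)
    (hq : ∀ σ' t, Frame vs bs r σ σ' → Q σ' t → Q' σ' t) : WP E s Q' σ t₀ :=
  (h.frame vs bs r hw).mono fun _ _ h => hq _ _ h.1 h.2

/-! ### Loops -/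

/-- The general while rule: an invariant on state and time, and a variant. -/
theorem wp_while {e : Expr} {s : Stmt} (I : St → ℕ → Prop) (μ : St → ℕ)
    (vs bs : List ℕ) (r : Bool) (hw : s.Within vs bs r) {Q : St → ℕ → Prop} {σ₀ : St} {t₀ : ℕ}
    (h0 : I σ₀ t₀)
    (hstep : ∀ σ t, Frame vs bs r σ₀ σ → I σ t → e.safe E σ ∧
      (e.eval E σ ≠ 0 → WP E s (fun σ' t' => I σ' t' ∧ μ σ' < μ σ) σ (t + 1)) ∧
      (e.eval E σ = 0 → Q σ (t + 1))) :
    WP E (.wh e s) Q σ₀ t₀ := by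
  suffices H : ∀ m σ t, μ σ = m → Frame vs bs r σ₀ σ → I σ t → WP E (.wh e s) Q σ t from
    H _ _ _ rfl (Frame.refl _ _ _ _) h0
  intro m
  induction m using Nat.strong_induction_on with
  | _ m ih =>
    intro σ t hm hF hI
    obtain ⟨hs, hT, hFa⟩ := hstep σ t hF hI
    by_cases hc : e.eval E σ = 0
    · exact ⟨σ, 1, .whF hs hc, hFa hc⟩
    · obtain ⟨σ', t', hx, hI', hμ⟩ := hT hc
      have hF' : Frame vs bs r σ₀ σ' := hF.trans (hx.frame.weaken hw.1 hw.2.1 hw.2.2)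
      obtain ⟨σ'', t'', hx', hq⟩ := ih (μ σ') (hm ▸ hμ) σ' _ rfl hF' hI'
      refine ⟨σ'', t' + t'' + 1, .whT hs hc hx hx', ?_⟩
      rwa [show t + (t' + t'' + 1) = t + 1 + t' + t'' by omega]

/-- `for i in [0, R[n])`. -/
def forL (i n : ℕ) (body : Stmt) : Stmt :=
  .seq (.set i (.c 0))
    (.wh (.bin .lt (.v i) (.v n)) (.seq body (.set i (.bin .add (.v i) (.c 1)))))

/-- The general rule for counted loops, with an invariant on the counter, state and time. -/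
theorem wp_forT {i n : ℕ} {body : Stmt} (N : ℕ) (I : ℕ → St → ℕ → Prop)
    (vs bs : List ℕ) (r : Bool) (hw : body.Within vs bs r) (hi : i ∉ vs) (hn : n ∉ vs)
    (hin : n ≠ i) {Q : St → ℕ → Prop} {σ₀ : St} {t₀ : ℕ}
    (hN : σ₀.var n = N) (hW : N < E.W) (hW1 : 1 < E.W)
    (h0 : I 0 (σ₀.setv i 0) (t₀ + 1))
    (hstep : ∀ k σ t, k < N → Frame (i :: vs) bs r σ₀ σ → σ.var i = k → I k σ t →
      WP E body (fun σ' t' => I (k + 1) (σ'.setv i (k + 1)) (t' + 1)) σ (t + 1))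
    (hQ : ∀ σ t, Frame (i :: vs) bs r σ₀ σ → σ.var i = N → I N σ t → Q σ (t + 1)) :
    WP E (forL i n body) Q σ₀ t₀ := by
  unfold forL
  rw [wp_seq, wp_set]
  refine ⟨by simp [Expr.safe]; omega, ?_⟩
  have hF0 : Frame (i :: vs) bs r σ₀ (σ₀.setv i 0) :=
    ⟨fun x hx => by simp only [List.mem_cons, not_or] at hx; simp [hx.1], fun _ _ => rfl,
      fun _ => rfl⟩
  refine wp_while (fun σ t => σ.var i ≤ N ∧ I (σ.var i) σ t) (fun σ => N - σ.var i)
    (i :: vs) bs r ?_ ?_ ?_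
  · refine ⟨fun x hx => ?_, fun k hk => ?_, fun h => ?_⟩
    · simp only [Stmt.wv, List.mem_append, List.mem_singleton] at hx
      rcases hx with hx | hx
      · exact List.mem_cons_of_mem _ (hw.1 x hx)
      · simp [hx]
    · simp only [Stmt.wb, List.append_nil] at hk; exact hw.2.1 k hk
    · simp [Stmt.rd, hw.2.2 h]
  · simpa [Expr.eval] using h0
  · intro σ t hF ⟨hle, hI⟩
    have hF' : Frame (i :: vs) bs r σ₀ σ := hF0.trans hF
    have hnv : σ.var n = N := by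
      rw [hF'.var n (by simp [hin, hn]), hN]
    refine ⟨by simp [Expr.safe, BOp.safe], fun hc => ?_, fun hc => ?_⟩
    · have hlt : σ.var i < N := by
        simp only [Expr.eval, BOp.eval, hnv] at hc
        by_contra h; simp [h] at hc
      rw [wp_seq]
      refine (hstep _ σ t hlt hF' rfl hI).call vs bs r hw fun σ' t' hF2 hI' => ?_
      have hi' : σ'.var i = σ.var i := hF2.var i hi
      rw [wp_set]
      refine ⟨by simp [Expr.safe, BOp.safe, Expr.eval, hi']; omega, ?_⟩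
      simp only [Expr.eval, BOp.eval, hi', St.setv_var, if_true]
      exact ⟨⟨hlt, hI'⟩, by omega⟩
    · have heq : σ.var i = N := by
        simp only [Expr.eval, BOp.eval, hnv] at hc
        by_contra h
        have : σ.var i < N := lt_of_le_of_ne hle h
        simp [this] at hc
      exact hQ σ t hF' heq (heq ▸ hI)

/-- Counted loops whose body costs at most `c`. -/
theorem wp_for {i n : ℕ} {body : Stmt} (N c : ℕ) (I : ℕ → St → Prop)
    (vs bs : List ℕ) (r : Bool) (hw : body.Within vs bs r) (hi : i ∉ vs) (hn : n ∉ vs)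
    (hin : n ≠ i) {Q : St → ℕ → Prop} {σ₀ : St} {t₀ : ℕ}
    (hN : σ₀.var n = N) (hW : N < E.W) (hW1 : 1 < E.W)
    (h0 : I 0 (σ₀.setv i 0))
    (hstep : ∀ k σ t, k < N → Frame (i :: vs) bs r σ₀ σ → σ.var i = k → I k σ →
      WP E body (fun σ' t' => I (k + 1) (σ'.setv i (k + 1)) ∧ t' ≤ t + c) σ t)
    (hQ : ∀ σ t, Frame (i :: vs) bs r σ₀ σ → I N σ → t ≤ t₀ + N * (c + 2) + 2 → Q σ t) :
    WP E (forL i n body) Q σ₀ t₀ := by
  refine wp_forT N (fun k σ t => I k σ ∧ t ≤ t₀ + k * (c + 2) + 1) vs bs r hw hi hn hin hN hW hW1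
    ⟨h0, by omega⟩ ?_ ?_
  · intro k σ t hk hF hik ⟨hI, ht⟩
    refine (hstep k σ (t + 1) hk hF hik hI).mono fun σ' t' ⟨h1, h2⟩ => ⟨h1, ?_⟩
    rw [Nat.add_mul]; omega
  · intro σ t hF _ ⟨hI, ht⟩
    exact hQ σ _ hF hI (by omega)

end Pool.Agent.P.MP_8f87b2_lc
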