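import Pool.Agent.P.MP_8f87b2_lc.Setup
import Pool.Agent.P.MP_8f87b2_lc.Compile

/-!
# The specification of the whole program
-/

namespace Pool.Agent.P.MP_8f87b2_lc

open Finset

variable {E : Env} {c : Ctx} {γ : ℕ}

/-- the cost of the whole program -/
def Ctx.tAll (c : Ctx) (Cn : ℕ) : ℕ :=
  600 * c.s + (4 * (c.k + c.v) + 3) + (c.nR * (4 * c.k + 6) + 2) + (c.A * (c.l * 7 + 10) + 2) +
    2 * (c.A * 5 + 3) + (c.n * 5 + 2) + (c.G * (c.n * 28 + 4) + 3) +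
    (220 * c.s * (c.tInst Cn + 2) + 2)

theorem Ctx.MV (c : Ctx) : c.M * c.V = 2 ^ (c.k + c.v) := by rw [pow_add]; rfl

theorem pMain_spec (hS : Sz c γ) (hB : Bnd c E) (hin : E.inp 0 = c.n)
    (hW : 2 ^ (4000 * c.s) ≤ E.W) {Cn : ℕ} (hCn : c.Bud + c.M ≤ Cn * c.M) :
    WP E pMain (fun σ' t' => ∃ R : ℕ → ℕ,
      (∀ i < c.nR, R i = bits E.ω (c.k + c.v + i * c.k) c.k) ∧
      c.Out R (bits E.ω 0 (c.k + c.v)) 0 (σ'.var 0) ∧
      (c.cum R (bits E.ω 0 (c.k + c.v)) c.G * c.M ≤ c.Bud → ∀ u < 220 * c.s, ∀ g < c.G,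
        ∀ j ∈ J c.l, c.Hit R (bits E.ω 0 (c.k + c.v)) u g j → σ'.var 0 = 1) ∧
      t' ≤ c.tAll Cn) St.zero 0 := by
  unfold pMain
  simp only [wp_blk_cons, wp_blk_nil]
  refine (hS.setup hB.n1 hin hW).call
    [1, 2, 3, 4, 5, 6, 7, 8, 9, 10, 11, 12, 13, 14, 15, 16, 17, 18, 22, 23, 24, 25, 30, 31] []
    false (by decide) ?_
  rintro σ₁ t₁ hF₁ ⟨hP₁, a1⟩
  refine (pWord_spec (k := c.k + c.v) (by decide) (by decide) (by decide) (c.MV ▸ hP₁.Wd)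
    (c.MV ▸ hB.lWd)).call [19, 30, 31] [] true (by decide) ?_
  rintro σ₂ t₂ hF₂ ⟨b1, b2, b3⟩
  have hP₂ := hP₁.frame hF₂ (by decide)
  have p₁ : σ₁.pos = 0 := hF₁.pos rfl
  rw [p₁] at b1
  rw [p₁, zero_add] at b2
  refine (pRead_spec hB hP₂).call [33, 32, 30, 31] [0] true (by decide) ?_
  rintro σ₃ t₃ hF₃ ⟨d1, d2⟩
  have hP₃ := hP₂.frame hF₃ (by decide)
  rw [b2] at d1
  have hR : ∀ i < c.nR, σ₃.bank 0 i < c.M := fun i hi => by rw [d1 i hi]; exact bits_lt _ _ _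
  refine (pTab_spec hB hP₃ hR).call [33, 34, 35, 36, 37, 38] [1, 2, 3] false (by decide) ?_
  rintro σ₄ t₄ hF₄ ⟨e1, e2⟩
  have hP₄ := hP₃.frame hF₄ (by decide)
  refine (pL1_spec hB hP₄ fun p hp => (e1 p hp).2.1).call [33, 20] [4] false (by decide) ?_
  rintro σ₅ t₅ hF₅ ⟨f1, f2, f3⟩
  have hP₅ := hP₄.frame hF₅ (by decide)
  refine (pL2_spec hB hP₅ (fun p hp => by rw [hF₅.bank 2 (by decide)]; exact (e1 p hp).2.1)
    fun p hp => by rw [hF₅.bank 3 (by decide)]; exact (e1 p hp).2.2).call [33, 21] [5] false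
    (by decide) ?_
  rintro σ₆ t₆ hF₆ ⟨g1, g2, g3⟩
  have hP₆ := hP₅.frame hF₆ (by decide)
  refine (pHash_spec hB hP₆).call [33, 34] [6, 7] false (by decide) ?_
  rintro σ₇ t₇ hF₇ ⟨h1, h2⟩
  have hP₇ := hP₆.frame hF₇ (by decide)
  have e19 : σ₆.var 19 = bits E.ω 0 (c.k + c.v) := by
    rw [hF₆.var 19 (by decide), hF₅.var 19 (by decide), hF₄.var 19 (by decide),
      hF₃.var 19 (by decide), b1]
  rw [e19] at h1
  have e0 : σ₇.bank 0 = σ₃.bank 0 := by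
    rw [hF₇.bank 0 (by decide), hF₆.bank 0 (by decide), hF₅.bank 0 (by decide),
      hF₄.bank 0 (by decide)]
  refine (pList_spec hB hP₇ e0 hR (fun i hi => (h1 i hi).1) fun v => by
    rw [hF₇.bank 8 (by decide), hF₆.bank 8 (by decide), hF₅.bank 8 (by decide),
      hF₄.bank 8 (by decide), hF₃.bank 8 (by decide), hF₂.bank 8 (by decide),
      hF₁.bank 8 (by decide)]; rfl).call [39, 33, 34, 35, 36] [8, 9, 10, 11] false
    (by decide) ?_
  rintro σ₈ t₈ hF₈ ⟨k1, k2⟩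
  have hPre : Pre c (σ₃.bank 0) (bits E.ω 0 (c.k + c.v)) σ₈ := by
    refine ⟨hP₇.frame hF₈ (by decide), ?_, ?_, ?_, ?_, ?_, ?_, ?_, ?_, ?_, k1⟩
    · rw [hF₈.var 20 (by decide), hF₇.var 20 (by decide), hF₆.var 20 (by decide), f1]
    · rw [hF₈.var 21 (by decide), hF₇.var 21 (by decide), g1]
    · rw [hF₈.bank 0 (by decide), e0]
    · rw [hF₈.bank 1 (by decide), hF₇.bank 1 (by decide), hF₆.bank 1 (by decide),
        hF₅.bank 1 (by decide)]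
      exact fun p hp => (e1 p hp).1
    · rw [hF₈.bank 2 (by decide), hF₇.bank 2 (by decide), hF₆.bank 2 (by decide),
        hF₅.bank 2 (by decide)]
      exact fun p hp => (e1 p hp).2.1
    · rw [hF₈.bank 4 (by decide), hF₇.bank 4 (by decide), hF₆.bank 4 (by decide)]
      exact f2
    · rw [hF₈.bank 5 (by decide), hF₇.bank 5 (by decide)]
      exact g2
    · rw [hF₈.bank 6 (by decide)]
      exact fun i hi => (h1 i hi).1
    · rw [hF₈.bank 7 (by decide)]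
      exact fun i hi => (h1 i hi).2
  refine (pLoop_spec hB hPre hR hCn).mono ?_
  rintro σ₉ t₉ ⟨m1, m2, m3⟩
  refine ⟨σ₃.bank 0, d1, ?_, m2, by unfold Ctx.tAll; omega⟩
  rwa [hF₈.var 0 (by decide), hF₇.var 0 (by decide), hF₆.var 0 (by decide),
    hF₅.var 0 (by decide), hF₄.var 0 (by decide), hF₃.var 0 (by decide), hF₂.var 0 (by decide),
    hF₁.var 0 (by decide)] at m1

end Pool.Agent.P.MP_8f87b2_lc
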