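import Pool.Agent.P.MP_8f87b2_lc.Ctx

/-!
# Reading the random words and the precomputed tables
-/

namespace Pool.Agent.P.MP_8f87b2_lc

open Finset

variable {E : Env} {c : Ctx}

theorem pWord_spec {x p k : ℕ} (hx0 : x ≠ 30) (hx1 : x ≠ 31) (hp : p ∉ [31, x, 30])
    {σ : St} {t : ℕ} (hk : σ.var p = 2 ^ k) (hW : 2 * 2 ^ k < E.W) :
    WP E (pWord x p) (fun σ' t' => σ'.var x = bits E.ω σ.pos k ∧ σ'.pos = σ.pos + k ∧
      t' ≤ t + 4 * k + 3) σ t := by
  have h2 : 0 < 2 ^ k := by positivity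
  simp only [List.mem_cons, List.not_mem_nil, or_false, not_or] at hp
  unfold pWord
  simp only [wp_blk_cons, wp_set, wp_blk_nil, Expr.safe, Expr.eval]
  refine ⟨by omega, by omega, ?_⟩
  refine wp_while (fun σ' t' => ∃ i ≤ k, σ'.var 30 = 2 ^ i ∧ σ'.var x = bits E.ω σ.pos i ∧
      σ'.pos = σ.pos + i ∧ t' = t + 2 + 4 * i) (fun σ' => 2 ^ k - σ'.var 30) [31, x, 30] [] true
    (by simp [Stmt.Within, blk, Stmt.wv, Stmt.wb]) ⟨0, by simp [bits, hx0]⟩ ?_
  rintro σ' t' hF ⟨i, hi, h30, hx, hpos, ht⟩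
  have hp' : σ'.var p = 2 ^ k := by rw [hF.var p (by simp [hp])]; simp [hp, hk]
  refine ⟨by simp, fun hc => ?_, fun hc => ?_⟩
  · have hlt : i < k := by
      by_contra h
      have : i = k := by omega
      simp [h30, hp', this] at hc
    have h3 : 2 * 2 ^ i ≤ 2 ^ k := by
      rw [← pow_succ']; exact Nat.pow_le_pow_right (by norm_num) hlt
    have h4 := bits_lt E.ω σ.pos i
    have h5 : (if E.ω σ'.pos then 1 else 0) * 2 ^ i ≤ 2 ^ i := by split_ifs <;> omega
    simp only [wp_blk_cons, wp_set, wp_rnd, wp_blk_nil]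
    simp [hx0, hx1, hx0.symm, hx1.symm, h30, hx]
    refine ⟨⟨by split_ifs <;> omega, by split_ifs <;> omega⟩, by omega, ⟨i + 1, hlt, ?_⟩, ?_⟩
    · simp [bits_succ, hpos, pow_succ]; omega
    · have : 0 < 2 ^ i := by positivity
      omega
  · have : i = k := by
      by_contra h
      have h1 : i < k := by omega
      have := Nat.pow_lt_pow_right (by norm_num : 1 < 2) h1
      simp [h30, hp', this] at hc
    subst this
    exact ⟨hx, hpos, by omega⟩

theorem pRead_spec (hB : Bnd c E) {σ : St} {t : ℕ} (hP : Par c σ) :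
    WP E pRead (fun σ' t' => (∀ i < c.nR, σ'.bank 0 i = bits E.ω (σ.pos + i * c.k) c.k) ∧
      t' ≤ t + c.nR * (4 * c.k + 6) + 2) σ t := by
  have hbig := hB.big
  have hlR := hB.lR
  have hlM := hB.lM
  have hM := c.M_pos
  refine wp_for c.nR (4 * c.k + 4)
    (fun m σ' => (∀ i < m, σ'.bank 0 i = bits E.ω (σ.pos + i * c.k) c.k) ∧
      σ'.pos = σ.pos + m * c.k) [32, 30, 31] [0] true (by decide) (by decide) (by decide)
    (by decide) hP.nR (by omega) (by omega) (by simp) ?_ fun σ' t' _ hI ht => ⟨hI.1, ht⟩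
  intro m σ' t' hm hF hi ⟨hI, hpos⟩
  have hP' := hP.frame hF (by decide)
  rw [wp_blk_cons]
  refine (pWord_spec (k := c.k) (by decide) (by decide) (by decide) hP'.M
    (by change 2 * c.M < E.W; omega)).call [32, 30, 31] [] true (by decide) ?_
  rintro σ₂ t₂ hF₂ ⟨h1, h2, h3⟩
  have h33 : σ₂.var 33 = m := (hF₂.var 33 (by decide)).trans hi
  have hb : σ₂.bank 0 = σ'.bank 0 := hF₂.bank 0 (by decide)
  simp only [wp_blk_cons, wp_st, wp_blk_nil]
  simp [h33, h1, hb, h2, hpos]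
  refine ⟨by omega, ⟨fun i hi => ?_, by ring⟩, by omega⟩
  rw [Function.update_apply]
  split_ifs with h
  · rw [h]
  · exact hI i (by omega)

/-- the table of values of digit strings -/
def Hn (c : Ctx) (R : ℕ → ℕ) (p : ℕ) : ℕ := Hf c.l R p % c.M

theorem Hn_lt (c : Ctx) (R : ℕ → ℕ) (p : ℕ) : Hn c R p < c.M := Nat.mod_lt _ c.M_pos

theorem pTab_spec (hB : Bnd c E) {σ : St} {t : ℕ} (hP : Par c σ)
    (hR : ∀ i < c.nR, σ.bank 0 i < c.M) :
    WP E pTab (fun σ' t' => (∀ p < c.A, σ'.bank 1 p = Hn c (σ.bank 0) p ∧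
      σ'.bank 2 p = cnt c.l p ∧ σ'.bank 3 p = odd c.l p) ∧
      t' ≤ t + c.A * (c.l * 7 + 10) + 2) σ t := by
  have hbig := hB.big
  have hlR := hB.lR
  have hlM := hB.lM
  have hlA := hB.lA
  have hls := hB.ls
  have hM := c.M_pos
  have hl : c.l = 20 * c.s := rfl
  have hnR : c.nR = c.l * 1024 + 2 * c.G := rfl
  refine wp_for c.A (c.l * 7 + 8)
    (fun m σ' => ∀ p < m, σ'.bank 1 p = Hn c (σ.bank 0) p ∧
      σ'.bank 2 p = cnt c.l p ∧ σ'.bank 3 p = odd c.l p) [34, 35, 36, 37, 38] [1, 2, 3] false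
    (by decide) (by decide) (by decide) (by decide) hP.A (by omega) (by omega) (by simp) ?_
    fun σ' t' _ hI ht => ⟨hI, ht⟩
  intro p σ' t' hp hF hi hI
  have hP' := hP.frame hF (by decide)
  have hb0 : σ'.bank 0 = σ.bank 0 := hF.bank 0 (by decide)
  simp only [wp_blk_cons, wp_set, Expr.safe, Expr.eval]
  refine ⟨by omega, by omega, by omega, ?_⟩
  refine wp_for c.l 5
    (fun u σ₂ => σ₂.var 34 = Hf u (σ.bank 0) p % c.M ∧ σ₂.var 35 = cnt u p ∧ σ₂.var 36 = odd u p)
    [38, 34, 36, 35] [] false (by decide) (by decide) (by decide) (by decide) (by simp [hP'.l])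
    (by omega) (by omega) (by simp [Hf, cnt, odd]) ?_ ?_
  · intro u σ₂ t₂ hu hF₂ hiu ⟨h34, h35, h36⟩
    have h33 : σ₂.var 33 = p := by rw [hF₂.var 33 (by decide)]; simp [hi]
    have h6 : σ₂.var 6 = c.M := by rw [hF₂.var 6 (by decide)]; simp [hP'.M]
    have hb : σ₂.bank 0 = σ.bank 0 := by rw [hF₂.bank 0 (by decide)]; simp [hb0]
    have hd := dig_lt u p
    have h1 := hR (u * 1024 + dig u p) (by omega)
    have h2 : Hf u (σ.bank 0) p % c.M < c.M := Nat.mod_lt _ hM
    have h3 := cnt_le u p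
    have h4 : odd u p ≤ u := by
      simpa [odd] using card_filter_le (range u) fun t => dig t p ≠ 0 ∧ dig t p ≠ 1023
    have e1 : Hf (u + 1) (σ.bank 0) p = Hf u (σ.bank 0) p + σ.bank 0 (u * 1024 + dig u p) := by
      simp [Hf, sum_range_succ]
    have e2 : cnt (u + 1) p = cnt u p + if dig u p = 0 then 1 else 0 := by
      simp only [cnt, card_filter, sum_range_succ]
    have e3 : odd (u + 1) p = odd u p + if dig u p ≠ 0 ∧ dig u p ≠ 1023 then 1 else 0 := by
      simp only [odd, card_filter, sum_range_succ]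
    unfold pTabIn
    simp only [wp_blk_cons, wp_set, wp_ite, wp_skip, wp_blk_nil]
    simp [h33, h6, hb, hiu, h34, h35, h36, dig_shift, c.and_M, e1, e2, e3]
    omega
  · intro σ₂ t₂ hF₂ ⟨h34, h35, h36⟩ ht₂
    have h33 : σ₂.var 33 = p := by rw [hF₂.var 33 (by decide)]; simp [hi]
    have hb : ∀ b, σ₂.bank b = σ'.bank b := fun b => by rw [hF₂.bank b (by simp)]; simp
    simp only [wp_blk_cons, wp_st, wp_blk_nil]
    simp [h33, hb, h34, h35, h36]
    refine ⟨by omega, fun q hq => ?_, by omega⟩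
    simp only [Function.update_apply]
    split_ifs with h
    · simp [h, Hn]
    · exact hI q (by omega)

/-- the list of strings below `A` with a property -/
def flt (A : ℕ) (P : ℕ → Bool) : List ℕ := (List.range A).filter P

theorem flt_succ (A : ℕ) (P : ℕ → Bool) :
    flt (A + 1) P = if P A then flt A P ++ [A] else flt A P := by
  simp only [flt, List.range_succ, List.filter_append]
  split_ifs with h <;> simp [h]

theorem flt_length_le (A : ℕ) (P : ℕ → Bool) : (flt A P).length ≤ A := by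
  simpa [flt] using List.length_filter_le P (List.range A)

theorem pFilter_spec (hB : Bnd c E) {b x : ℕ} {e : Expr} (P : ℕ → Bool) (hx : x ≠ 33)
    (hx4 : x ≠ 4) {σ : St} {t : ℕ} (hP : Par c σ)
    (he : ∀ p < c.A, ∀ σ', Frame [33, x] [b] false σ σ' → σ'.var 33 = p →
      e.safe E σ' ∧ (e.eval E σ' ≠ 0 ↔ P p = true)) :
    WP E (pFilter b x e) (fun σ' t' => σ'.var x = (flt c.A P).length ∧
      (∀ i < (flt c.A P).length, σ'.bank b i = (flt c.A P).getD i 0) ∧
      t' ≤ t + c.A * 5 + 3) σ t := by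
  have hbig := hB.big
  have hlA := hB.lA
  have hA := c.A_pos
  unfold pFilter
  simp only [wp_blk_cons, wp_set, wp_blk_nil, Expr.safe, Expr.eval]
  refine ⟨by omega, ?_⟩
  refine wp_for c.A 3
    (fun m σ' => σ'.var x = (flt m P).length ∧
      ∀ i < (flt m P).length, σ'.bank b i = (flt m P).getD i 0) [x] [b] false
    (by simp [Stmt.Within, blk, Stmt.wv, Stmt.wb, Stmt.rd]) (by simp [hx.symm])
    (by simp [hx4.symm]) (by decide) (by simp [hx4.symm, hP.A]) (by omega) (by omega)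
    (by simp [flt, hx]) ?_ fun σ' t' _ hI ht => ⟨hI.1, hI.2, by omega⟩
  intro p σ' t' hp hF hi ⟨h1, h2⟩
  have hF' : Frame [33, x] [b] false σ σ' := by
    refine ⟨fun y hy => ?_, fun k hk => by rw [hF.bank k hk]; rfl,
      fun h => by rw [hF.pos h]; rfl⟩
    rw [hF.var y hy]
    simp only [List.mem_cons, not_or] at hy
    simp [hy.2.1]
  obtain ⟨hs, hev⟩ := he p hp σ' hF' hi
  have hlen := flt_length_le p P
  rw [wp_ite]
  refine ⟨hs, fun h => ?_, fun h => ?_⟩
  · have hPp := hev.mp h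
    simp only [wp_blk_cons, wp_set, wp_st, wp_blk_nil]
    simp [h1, hi, hx, flt_succ, hPp]
    refine ⟨by omega, by omega, fun i hi => ?_⟩
    rw [Function.update_apply]
    split_ifs with h3
    · simp [h3]
    · have h4 : i < (flt p P).length := by omega
      rw [h2 i h4, List.getElem?_append_left h4]; simp
  · have hPp : ¬ P p = true := fun h' => (hev.mpr h') h
    simp [flt_succ, hPp, hx, h1]
    simpa using h2

def Ctx.L1 (c : Ctx) : List ℕ := flt c.A fun p => decide (c.s ≤ cnt c.l p)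
def Ctx.L2 (c : Ctx) : List ℕ := flt c.A fun p => decide (odd c.l p = 0 ∧ cnt c.l p ≤ c.s)

theorem pL1_spec (hB : Bnd c E) {σ : St} {t : ℕ} (hP : Par c σ)
    (hC : ∀ p < c.A, σ.bank 2 p = cnt c.l p) :
    WP E pL1 (fun σ' t' => σ'.var 20 = c.L1.length ∧
      (∀ i < c.L1.length, σ'.bank 4 i = c.L1.getD i 0) ∧ t' ≤ t + c.A * 5 + 3) σ t := by
  refine pFilter_spec hB _ (by decide) (by decide) hP fun p hp σ' hF h33 => ?_
  have hbig := hB.big
  have hlA := hB.lA
  have hls := hB.ls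
  have hl : c.l = 20 * c.s := rfl
  have := cnt_le c.l p
  have h2 : σ'.var 2 = c.s := by rw [hF.var 2 (by decide), hP.s]
  have hb : σ'.bank 2 = σ.bank 2 := hF.bank 2 (by decide)
  simp [h33, h2, hb, hC p hp]
  omega

theorem pL2_spec (hB : Bnd c E) {σ : St} {t : ℕ} (hP : Par c σ)
    (hC : ∀ p < c.A, σ.bank 2 p = cnt c.l p) (hK : ∀ p < c.A, σ.bank 3 p = odd c.l p) :
    WP E pL2 (fun σ' t' => σ'.var 21 = c.L2.length ∧
      (∀ i < c.L2.length, σ'.bank 5 i = c.L2.getD i 0) ∧ t' ≤ t + c.A * 5 + 3) σ t := by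
  refine pFilter_spec hB _ (by decide) (by decide) hP fun p hp σ' hF h33 => ?_
  have hbig := hB.big
  have hlA := hB.lA
  have hls := hB.ls
  have h2 : σ'.var 2 = c.s := by rw [hF.var 2 (by decide), hP.s]
  have hb : σ'.bank 2 = σ.bank 2 := hF.bank 2 (by decide)
  have hb3 : σ'.bank 3 = σ.bank 3 := hF.bank 3 (by decide)
  simp [h33, h2, hb, hb3, hC p hp, hK p hp]
  refine ⟨by omega, ?_⟩
  by_cases h1 : odd c.l p = 0 <;> by_cases h2 : cnt c.l p ≤ c.s <;> simp [h1, h2]

def Ctx.γ (c : Ctx) (r i : ℕ) : ℕ := gam c.M c.V r (c.x i)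
def Ctx.neg (c : Ctx) (i : ℕ) : ℕ := if c.x i < 0 then 1 else 0

theorem Ctx.γ_lt (c : Ctx) (r i : ℕ) : c.γ r i < c.M := gam_lt c.M_pos c.V_pos _ _

theorem hash_eq (hB : Bnd c E) (r : ℕ) {i : ℕ} :
    ((r * (c.x i % E.W).toNat % E.W) &&& (c.M * c.V - 1)) >>> c.v = c.γ r i := by
  have hW : 0 < E.W := by have := hB.big; omega
  have hW' : (0 : ℤ) < E.W := by exact_mod_cast hW
  have e : c.M * c.V = 2 ^ (c.k + c.v) := by rw [pow_add]; rfl
  rw [e, Nat.and_two_pow_sub_one_eq_mod, ← e, Nat.mod_mod_of_dvd _ hB.dWd,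
    Nat.shiftRight_eq_div_pow]
  unfold Ctx.γ gam
  congr 1
  have h0 : (0 : ℤ) < (c.M * c.V : ℕ) := by rw [e]; positivity
  zify
  rw [Int.toNat_of_nonneg (Int.emod_nonneg _ hW'.ne')]
  have h1 := Int.emod_nonneg (r * c.x i) h0.ne'
  push_cast at h1 h0
  rw [Int.toNat_of_nonneg h1, Int.mul_emod, Int.emod_emod_of_dvd _ (by exact_mod_cast hB.dWd),
    ← Int.mul_emod]

theorem neg_eq (hB : Bnd c E) {i : ℕ} (hi : i < c.n) :
    (if ((c.x i % E.W).toNat + c.V) % E.W < c.V then 1 else 0) = c.neg i := by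
  have hM := c.M_pos
  have hV := c.V_pos
  have h1 : 2 * c.V < E.W := by have := hB.lWd; nlinarith
  have h2 := hB.xV i hi
  have hW' : (0 : ℤ) < E.W := by exact_mod_cast (by omega : 0 < E.W)
  have h3 : ((((c.x i % E.W).toNat + c.V) % E.W : ℕ) : ℤ) = c.x i + c.V := by
    push_cast
    rw [Int.toNat_of_nonneg (Int.emod_nonneg _ hW'.ne'), Int.emod_add_emod]
    have := abs_le.mp (le_refl |c.x i|)
    have := abs_nonneg (c.x i)
    exact Int.emod_eq_of_lt (by omega) (by omega)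
  unfold Ctx.neg
  split_ifs <;> omega

theorem pHash_spec (hB : Bnd c E) {σ : St} {t : ℕ} (hP : Par c σ) :
    WP E pHash (fun σ' t' => (∀ i < c.n, σ'.bank 6 i = c.γ (σ.var 19) i ∧
      σ'.bank 7 i = c.neg i) ∧ t' ≤ t + c.n * 5 + 2) σ t := by
  have hbig := hB.big
  have hln := hB.ln
  have hn1 := hB.n1
  have hWd : 0 < c.M * c.V := Nat.mul_pos c.M_pos c.V_pos
  refine wp_for c.n 3
    (fun m σ' => ∀ i < m, σ'.bank 6 i = c.γ (σ.var 19) i ∧ σ'.bank 7 i = c.neg i) [34] [6, 7]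
    false (by decide) (by decide) (by decide) (by decide) hP.n (by omega) (by omega) (by simp) ?_
    fun σ' t' _ hI ht => ⟨hI, ht⟩
  intro i σ' t' hi hF h33 hI
  have hP' := hP.frame hF (by decide)
  have h19 : σ'.var 19 = σ.var 19 := hF.var 19 (by decide)
  simp only [wp_blk_cons, wp_set, wp_st, wp_blk_nil]
  simp only [Expr.safe, Expr.eval, BOp.safe, BOp.eval, St.setv_var, St.setm_var, St.setv_bank,
    St.setm_bank, h33, h19, hP'.Wd, hP'.v, hP'.V, hB.inp i hi, Nat.reduceEqDiff, if_true, if_false,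
    hash_eq hB, neg_eq hB hi]
  simp only [true_and, and_true]
  refine ⟨by omega, by omega, by omega, by omega, fun q hq => ?_, by omega⟩
  simp only [Function.update_apply]
  split_ifs with h
  · simp [h]
  · exact hI q (by omega)

end Pool.Agent.P.MP_8f87b2_lc
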