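import Pool.Agent.P.MP_8f87b2_lc.PhaseA

/-!
# The linked lists of shifted hash values, and the weight table
-/

namespace Pool.Agent.P.MP_8f87b2_lc

open Finset

variable {E : Env} {c : Ctx}

theorem Frame.of_setv {vs bs : List ℕ} {r : Bool} {σ σ' : St} {x v : ℕ}
    (h : Frame vs bs r (σ.setv x v) σ') (hx : x ∈ vs) : Frame vs bs r σ σ' := by
  refine Frame.trans (σ' := σ.setv x v) ⟨fun y hy => ?_, fun _ _ => rfl, fun _ => rfl⟩ h
  rw [St.setv_var, if_neg (by rintro rfl; exact hy hx)]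

def Ctx.eg (c : Ctx) (m : ℕ) : ℕ := m / 3 / c.n
def Ctx.ei (c : Ctx) (m : ℕ) : ℕ := m / 3 % c.n
def Ctx.vn (c : Ctx) (R : ℕ → ℕ) (r m : ℕ) : ℕ :=
  (R (c.l * 1024 + (c.G + c.eg m)) + c.γ r (c.ei m) + m % 3) % c.M

def Lst (f : ℕ → ℕ) : ℕ → ℕ → List ℕ
  | 0, _ => []
  | m + 1, v => if f m = v then (m + 1) :: Lst f m v else Lst f m v

def Chain (nx : ℕ → ℕ) : ℕ → List ℕ → Prop
  | e, [] => e = 0
  | e, a :: l => e = a ∧ a ≠ 0 ∧ Chain nx (nx a) l

theorem Chain.update {nx : ℕ → ℕ} {e : ℕ} {l : List ℕ} (h : Chain nx e l) {b : ℕ} (y : ℕ)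
    (hb : ∀ a ∈ l, a ≠ b) : Chain (Function.update nx b y) e l := by
  induction l generalizing e with
  | nil => exact h
  | cons a l ih =>
    obtain ⟨h1, h2, h3⟩ := h
    refine ⟨h1, h2, ?_⟩
    rw [Function.update_of_ne (hb a (by simp))]
    exact ih h3 fun a' ha' => hb a' (by simp [ha'])

theorem mem_Lst {f : ℕ → ℕ} {m v a : ℕ} :
    a ∈ Lst f m v ↔ ∃ m' < m, a = m' + 1 ∧ f m' = v := by
  induction m with
  | zero => simp [Lst]
  | succ m ih =>
    rw [Lst]
    split_ifs with h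
    · rw [List.mem_cons, ih]
      constructor
      · rintro (rfl | ⟨m', h1, h2⟩)
        exacts [⟨m, by omega, rfl, h⟩, ⟨m', by omega, h2⟩]
      · rintro ⟨m', h1, h2, h3⟩
        by_cases h4 : m' = m
        · exact Or.inl (by omega)
        · exact Or.inr ⟨m', by omega, h2, h3⟩
    · rw [ih]
      constructor
      · rintro ⟨m', h1, h2⟩; exact ⟨m', by omega, h2⟩
      · rintro ⟨m', h1, h2, h3⟩
        exact ⟨m', lt_of_le_of_ne (by omega) (by rintro rfl; exact h h3), h2, h3⟩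

theorem length_Lst (f : ℕ → ℕ) (m v : ℕ) :
    (Lst f m v).length = ((range m).filter fun m' => f m' = v).card := by
  induction m with
  | zero => simp [Lst]
  | succ m ih =>
    rw [Lst, card_filter, sum_range_succ, ← card_filter, ← ih]
    split_ifs <;> simp

def LInv (c : Ctx) (R : ℕ → ℕ) (r m : ℕ) (σ : St) : Prop :=
  (∀ v < c.M, Chain (σ.bank 9) (σ.bank 8 v) (Lst (c.vn R r) m v)) ∧
    ∀ m' < m, σ.bank 10 (m' + 1) = c.eg m' ∧ σ.bank 11 (m' + 1) = c.ei m'

theorem pListIn_spec (hB : Bnd c E) {σ : St} {t : ℕ} (hP : Par c σ) {R : ℕ → ℕ} {r g i κ : ℕ}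
    (hR0 : σ.bank 0 = R) (hR : ∀ i < c.nR, R i < c.M) (hγ : ∀ i < c.n, σ.bank 6 i = c.γ r i)
    (hg : g < c.G) (hi : i < c.n) (hκ : κ < 3) (h33 : σ.var 33 = g) (h34 : σ.var 34 = i)
    (h35 : σ.var 35 = κ) (h39 : σ.var 39 = (g * c.n + i) * 3 + κ)
    (hI : LInv c R r ((g * c.n + i) * 3 + κ) σ) :
    WP E pListIn (fun σ' t' => σ'.var 39 = (g * c.n + i) * 3 + κ + 1 ∧
      LInv c R r ((g * c.n + i) * 3 + κ + 1) σ' ∧ t' ≤ t + 6) σ t := by
  have hbig := hB.big
  have hlE := hB.lE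
  have hlM := hB.lM
  have hlR := hB.lR
  have hM := c.M_pos
  have hnR : c.nR = c.l * 1024 + 2 * c.G := rfl
  have h1 := mul_add_lt hg hi
  have h2 : 3 * c.G * c.n = c.G * c.n * 3 := by ring
  have e1 : ((g * c.n + i) * 3 + κ) / 3 = g * c.n + i := by omega
  have eg : c.eg ((g * c.n + i) * 3 + κ) = g := by
    rw [Ctx.eg, e1, add_comm, Nat.add_mul_div_right _ _ (by omega), Nat.div_eq_of_lt hi, zero_add]
  have ei : c.ei ((g * c.n + i) * 3 + κ) = i := by
    rw [Ctx.ei, e1, add_comm, Nat.add_mul_mod_self_right, Nat.mod_eq_of_lt hi]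
  have ev : (R (c.l * 1024 + (c.G + g)) + c.γ r i + κ) % c.M =
      c.vn R r ((g * c.n + i) * 3 + κ) := by
    rw [Ctx.vn, eg, ei, show ((g * c.n + i) * 3 + κ) % 3 = κ by omega]
  have h3 := hR (c.l * 1024 + (c.G + g)) (by omega)
  have h4 := c.γ_lt r i
  have h5 : c.vn R r ((g * c.n + i) * 3 + κ) < c.M := Nat.mod_lt _ hM
  generalize (g * c.n + i) * 3 + κ = m at *
  unfold pListIn
  simp only [wp_blk_cons, wp_set, wp_st, wp_blk_nil]
  simp [h33, h34, h35, h39, hP.M, hP.l, hP.G, hR0, hγ i hi, c.and_M, ev, LInv]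
  and_intros
  any_goals omega
  · intro v hv
    rw [Lst]
    have hne : ∀ v, ∀ a ∈ Lst (c.vn R r) m v, a ≠ m + 1 := fun v a ha => by
      obtain ⟨m', h1, h2, -⟩ := mem_Lst.mp ha; omega
    split_ifs with h
    · subst h
      refine ⟨by simp, by omega, ?_⟩
      rw [Function.update_self]
      exact (hI.1 _ hv).update _ (hne _)
    · rw [Function.update_of_ne (Ne.symm h)]
      exact (hI.1 _ hv).update _ (hne _)
  · intro m' hm'
    simp only [Function.update_apply, Nat.add_right_cancel_iff]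
    split_ifs with h
    · simp [h, eg, ei]
    · exact hI.2 m' (by omega)

theorem pList_spec (hB : Bnd c E) {σ : St} {t : ℕ} (hP : Par c σ) {R : ℕ → ℕ} {r : ℕ}
    (hR0 : σ.bank 0 = R) (hR : ∀ i < c.nR, R i < c.M) (hγ : ∀ i < c.n, σ.bank 6 i = c.γ r i)
    (h8 : ∀ v, σ.bank 8 v = 0) :
    WP E pList (fun σ' t' => LInv c R r (c.G * c.n * 3) σ' ∧
      t' ≤ t + c.G * (c.n * 28 + 4) + 3) σ t := by
  have hbig := hB.big
  have hln := hB.ln
  have hlR := hB.lR
  have hnR : c.nR = c.l * 1024 + 2 * c.G := rfl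
  unfold pList
  simp only [wp_blk_cons, wp_set, wp_blk_nil, Expr.safe, Expr.eval]
  refine ⟨by omega, ?_⟩
  refine wp_for c.G (c.n * 28 + 2)
    (fun g σ' => σ'.var 39 = g * c.n * 3 ∧ LInv c R r (g * c.n * 3) σ') [34, 35, 36, 39]
    [8, 9, 10, 11] false (by decide) (by decide) (by decide) (by decide) (by simp [hP.G])
    (by omega) (by omega) (by simp [LInv, Lst, Chain, h8]) ?_
    fun σ' t' _ hI ht => ⟨hI.2, by simp only [Nat.add_assoc, Nat.reduceAdd] at ht ⊢; omega⟩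
  intro g σ₁ t₁ hg hF₁ h33 hI₁
  have hF₁' : Frame [33, 34, 35, 36, 39] [8, 9, 10, 11] false σ σ₁ :=
    hF₁.of_setv (by decide)
  have hP₁ := hP.frame hF₁' (by decide)
  refine wp_for c.n 26
    (fun i σ' => σ'.var 39 = (g * c.n + i) * 3 ∧ LInv c R r ((g * c.n + i) * 3) σ') [35, 36, 39]
    [8, 9, 10, 11] false (by decide) (by decide) (by decide) (by decide) hP₁.n
    (by omega) (by omega) (by simpa [LInv] using hI₁) ?_
    fun σ' t' _ hI ht => ⟨by simpa [LInv, Nat.succ_mul] using hI, by omega⟩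
  intro i σ₂ t₂ hi hF₂ h34 hI₂
  have hP₂ := hP₁.frame hF₂ (by decide)
  refine wp_for 3 6
    (fun κ σ' => σ'.var 39 = (g * c.n + i) * 3 + κ ∧ LInv c R r ((g * c.n + i) * 3 + κ) σ')
    [36, 39] [8, 9, 10, 11] false (by decide) (by decide) (by decide) (by decide) hP₂.three
    (by omega) (by omega) (by simpa [LInv] using hI₂) ?_
    fun σ' t' _ hI ht => ⟨by
      rw [show (g * c.n + (i + 1)) * 3 = (g * c.n + i) * 3 + 3 by ring]
      simpa [LInv] using hI, by omega⟩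
  intro κ σ₃ t₃ hκ hF₃ h35 hI₃
  refine (pListIn_spec hB (hP₂.frame hF₃ (by decide)) (R := R) (r := r) ?_ hR ?_ hg hi hκ ?_ ?_
    h35 hI₃.1 hI₃.2).mono fun σ' t' h => ⟨by simpa [LInv] using ⟨h.1, h.2.1⟩, h.2.2⟩
  · rw [hF₃.bank 0 (by decide), hF₂.bank 0 (by decide), hF₁'.bank 0 (by decide), hR0]
  · rw [hF₃.bank 6 (by decide), hF₂.bank 6 (by decide), hF₁'.bank 6 (by decide)]; exact hγ
  · rw [hF₃.var 33 (by decide), hF₂.var 33 (by decide), h33]
  · rw [hF₃.var 34 (by decide), h34]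

theorem pZero_spec (hB : Bnd c E) {σ : St} {t : ℕ} (hP : Par c σ) :
    WP E pZero (fun σ' t' => (∀ a < 2 * c.M, σ'.bank 12 a = 0) ∧
      t' ≤ t + 2 * c.M * 3 + 2) σ t := by
  have hbig := hB.big
  have hlM := hB.lM
  have hM := c.M_pos
  refine wp_for (2 * c.M) 1 (fun m σ' => ∀ a < m, σ'.bank 12 a = 0) [] [12]
    false (by decide) (by decide) (by decide) (by decide) hP.M2 (by omega) (by omega) (by simp) ?_
    fun σ' t' _ hI ht => ⟨hI, ht⟩
  intro i σ' t' hi hF h33 hI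
  simp [h33]
  refine ⟨by omega, by omega, fun a ha => ?_⟩
  rw [Function.update_apply]
  split_ifs with h
  · rfl
  · exact hI a (by omega)

/-- entry `i` lies in the third class of instance `u` -/
def Ctx.isC (c : Ctx) (u i : ℕ) : Prop := (c.neg i + u) % 2 = 0

instance (c : Ctx) (u i : ℕ) : Decidable (c.isC u i) := by unfold Ctx.isC; infer_instance

def side (u i : ℕ) : ℕ := i / 2 ^ (u / 2) % 2

/-- the weight table, accumulated over the first `m` entries -/
def Ctx.WT (c : Ctx) (r u m a : ℕ) : ℤ :=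
  ∑ i ∈ range m, if ¬ c.isC u i ∧ c.γ r i + side u i * c.M = a then wt c.T (c.x i) else 0

theorem cast_wt {W : ℕ} (a T : ℕ) (x : ℤ) (h : (a : ZMod W) = x) :
    ((((2 + 2 * a % W * T % W) % W + a * a % W * (T * T % W) % W) % W : ℕ) : ZMod W) =
      (wt T x : ℤ) := by
  simp only [cast_radd, cast_rmul, h, wt]
  push_cast; ring

theorem pAcc_spec (hB : Bnd c E) {σ : St} {t : ℕ} (hP : Par c σ) {r u : ℕ}
    (hγ : ∀ i < c.n, σ.bank 6 i = c.γ r i) (hneg : ∀ i < c.n, σ.bank 7 i = c.neg i)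
    (h40 : σ.var 40 = u) (hu : u < 220 * c.s) (h12 : ∀ a < 2 * c.M, σ.bank 12 a = 0) :
    WP E pAcc (fun σ' t' => (∀ a < 2 * c.M, (σ'.bank 12 a : ZMod E.W) = (c.WT r u c.n a : ℤ)) ∧
      t' ≤ t + c.n * 6 + 2) σ t := by
  have hbig := hB.big
  have hlM := hB.lM
  have hln := hB.ln
  have hls := hB.ls
  have hn1 := hB.n1
  have hM := c.M_pos
  refine wp_for c.n 4
    (fun m σ' => ∀ a < 2 * c.M, (σ'.bank 12 a : ZMod E.W) = (c.WT r u m a : ℤ)) [34, 35] [12]
    false (by decide) (by decide) (by decide) (by decide) hP.n (by omega) (by omega)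
    (by simp +contextual [h12, Ctx.WT]) ?_ fun σ' t' _ hI ht => ⟨hI, ht⟩
  intro i σ' t' hi hF h33 hI
  have hP' := hP.frame hF (by decide)
  have h40' : σ'.var 40 = u := (hF.var 40 (by decide)).trans h40
  have h6 : σ'.bank 6 i = c.γ r i := by rw [hF.bank 6 (by decide), hγ i hi]
  have h7 : σ'.bank 7 i = c.neg i := by rw [hF.bank 7 (by decide), hneg i hi]
  have hn : c.neg i ≤ 1 := by unfold Ctx.neg; split_ifs <;> omega
  have hγ' := c.γ_lt r i
  have hs : (i >>> (u >>> 1)) % 2 = side u i := by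
    simp [side, Nat.shiftRight_eq_div_pow]
  have hs2 : side u i * c.M ≤ c.M := by
    have : side u i ≤ 1 := by unfold side; omega
    nlinarith
  rw [wp_ite]
  refine ⟨by simp [h33, h40', h7]; omega, fun h => ?_, fun h => ?_⟩
  · have hC : ¬ c.isC u i := by simpa [h33, h40', h7, Ctx.isC] using h
    simp only [wp_blk_cons, wp_set, wp_st, wp_blk_nil]
    simp only [Expr.safe, Expr.eval, BOp.safe, BOp.eval, St.setv_var, St.setm_var, St.setv_bank,
      St.setm_bank, h33, h40', h6, hP'.M, hP'.T, hB.inp i hi, Nat.reduceEqDiff, if_true, if_false,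
      Nat.and_one_is_mod, hs, true_and, and_true]
    and_intros
    any_goals omega
    intro a ha
    rw [Function.update_apply, Ctx.WT, sum_range_succ, ← Ctx.WT]
    split_ifs with h1 h2 h2
    · rw [cast_radd, cast_wt _ _ _ (cast_inp (by omega) _), ← h1, hI a ha]; push_cast; rfl
    · exact absurd ⟨hC, h1.symm⟩ h2
    · exact absurd h2.2.symm h1
    · simpa using hI a ha
  · have hC : c.isC u i := by simpa [h33, h40', h7, Ctx.isC] using h
    simp only [wp_skip, St.setv_bank]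
    refine ⟨fun a ha => ?_, by omega⟩
    rw [Ctx.WT, sum_range_succ, ← Ctx.WT, if_neg (by simp [hC])]
    simpa using hI a ha

end Pool.Agent.P.MP_8f87b2_lc
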