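import Pool.Agent.P.MP_8f87b2_lc.PhaseC

/-!
# Evaluation of the needed outputs
-/

namespace Pool.Agent.P.MP_8f87b2_lc

open Finset

variable {E : Env} {c : Ctx}

/-- the precomputed data are in place -/
structure Pre (c : Ctx) (R : ℕ → ℕ) (r : ℕ) (σ : St) : Prop where
  par : Par c σ
  n1 : σ.var 20 = c.L1.length
  n2 : σ.var 21 = c.L2.length
  b0 : σ.bank 0 = R
  b1 : ∀ p < c.A, σ.bank 1 p = Hn c R p
  b2 : ∀ p < c.A, σ.bank 2 p = cnt c.l p
  b4 : ∀ i < c.L1.length, σ.bank 4 i = c.L1.getD i 0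
  b5 : ∀ i < c.L2.length, σ.bank 5 i = c.L2.getD i 0
  b6 : ∀ i < c.n, σ.bank 6 i = c.γ r i
  b7 : ∀ i < c.n, σ.bank 7 i = c.neg i
  lst : LInv c R r (c.G * c.n * 3) σ

theorem Pre.frame {R : ℕ → ℕ} {r : ℕ} {σ σ' : St} {vs bs : List ℕ} {z : Bool}
    (h : Pre c R r σ) (hF : Frame vs bs z σ σ') (hv : ∀ x ∈ 20 :: 21 :: parVars, x ∉ vs)
    (hb : ∀ k ∈ [0, 1, 2, 4, 5, 6, 7, 8, 9, 10, 11], k ∉ bs) : Pre c R r σ' := by
  have e : ∀ k ∈ [0, 1, 2, 4, 5, 6, 7, 8, 9, 10, 11], σ'.bank k = σ.bank k :=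
    fun k hk => hF.bank k (hb k hk)
  refine ⟨h.par.frame hF fun x hx => hv x (by simp [hx]),
    (hF.var 20 (hv 20 (by decide))).trans h.n1, (hF.var 21 (hv 21 (by decide))).trans h.n2,
    (e 0 (by decide)).trans h.b0, e 1 (by decide) ▸ h.b1, e 2 (by decide) ▸ h.b2,
    e 4 (by decide) ▸ h.b4, e 5 (by decide) ▸ h.b5, e 6 (by decide) ▸ h.b6,
    e 7 (by decide) ▸ h.b7, ?_⟩
  unfold LInv
  rw [e 8 (by decide), e 9 (by decide), e 10 (by decide), e 11 (by decide)]
  exact h.lst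

/-- the tables of instance `u` are in place -/
structure Tab (c : Ctx) (E : Env) (R : ℕ → ℕ) (r u : ℕ) (σ : St) : Prop where
  pre : Pre c R r σ
  hu : σ.var 40 = u
  F : ∀ g < 2 * c.G, ∀ p < c.A, (σ.bank 13 (g * c.A + p) : ZMod E.W) = (c.Fz R r u g p : ℤ)
  U : ∀ m < c.G * c.G, ∀ p ∈ c.L1, (σ.bank 14 (m * c.A + p) : ZMod E.W) =
    (Uv (c.Pz R r u (m / c.G) (m % c.G)) c.l p : ℤ)

theorem Tab.frame {R : ℕ → ℕ} {r u : ℕ} {σ σ' : St} {vs : List ℕ} {z : Bool}
    (h : Tab c E R r u σ) (hF : Frame vs [] z σ σ')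
    (hv : ∀ x ∈ 40 :: 20 :: 21 :: parVars, x ∉ vs) : Tab c E R r u σ' := by
  refine ⟨h.pre.frame hF (fun x hx => hv x (List.mem_cons_of_mem _ hx)) (by simp),
    (hF.var 40 (hv 40 (by decide))).trans h.hu, ?_, ?_⟩
  · rw [hF.bank 13 (by simp)]; exact h.F
  · rw [hF.bank 14 (by simp)]; exact h.U

theorem sum_flt (A : ℕ) (P : ℕ → Bool) (f : ℕ → ℤ) :
    ∑ i ∈ range (flt A P).length, f ((flt A P).getD i 0) =
      ∑ p ∈ (range A).filter (fun p => P p = true), f p := by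
  induction A with
  | zero => simp [flt]
  | succ A ih =>
    rw [flt_succ, sum_filter, sum_range_succ, ← sum_filter, ← ih]
    split_ifs with h
    · rw [List.length_append, List.length_singleton, sum_range_succ]
      congr 1
      · exact sum_congr rfl fun i hi => by
          rw [List.getD_append _ _ _ _ (mem_range.mp hi)]
      · simp
    · simp

theorem cnt_le_and (l j μ : ℕ) : cnt l μ ≤ cnt l (j &&& μ) := by
  unfold cnt
  refine card_le_card fun t ht => ?_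
  simp only [mem_filter] at ht ⊢
  exact ⟨ht.1, by rw [dig_and, ht.2]; simp⟩

def term (P : ℕ → ℤ) (l s j μ : ℕ) : ℤ :=
  (-1) ^ cnt l μ * (if cnt l μ = s then Uv P l (j &&& μ) else P (j &&& μ))

/-- the fingerprint test at output `g, g', j` for entry `i` -/
def Ctx.test (c : Ctx) (R : ℕ → ℕ) (r u g g' j i : ℕ) : Prop :=
  0 < (zval (c.Pz R r u g g') c.l c.s j * wt c.T (c.x i)) % c.T ^ 3 ∧
    (zval (c.Pz R r u g g') c.l c.s j * wt c.T (c.x i)) % c.T ^ 3 < c.T

theorem cast_mod_eq {W a T : ℕ} {z : ℤ} (h : (a : ZMod W) = z) (hT : T ∣ W) :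
    ((a % T : ℕ) : ℤ) = z % T := by
  have h1 : ((a : ℤ) : ZMod W) = z := by exact_mod_cast h
  rw [ZMod.intCast_eq_intCast_iff] at h1
  push_cast
  exact h1.of_dvd (by exact_mod_cast hT)

theorem pSumIn_spec (hB : Bnd c E) {σ : St} {t : ℕ} {R : ℕ → ℕ} {r u g g' j i : ℕ}
    (hT : Tab c E R r u σ) (hg : g < c.G) (hg' : g' < c.G) (hj : j < c.A)
    (hi : i < c.L2.length) (h34 : σ.var 34 = j) (h48 : σ.var 48 = i)
    (h41 : σ.var 41 = g * c.A) (h42 : σ.var 42 = (c.G + g') * c.A)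
    (h43 : σ.var 43 = (g * c.G + g') * c.A) {z : ℤ} (h47 : (σ.var 47 : ZMod E.W) = z) :
    WP E pSumIn (fun σ' t' => (σ'.var 47 : ZMod E.W) =
      (z + term (c.Pz R r u g g') c.l c.s j (c.L2.getD i 0) : ℤ) ∧ t' ≤ t + 6) σ t := by
  have hbig := hB.big
  have hlGA := hB.lGA
  have hlGGA := hB.lGGA
  have hlA := hB.lA
  have hlen : c.L2.length ≤ c.A := flt_length_le _ _
  have h5 := hT.pre.b5 i hi
  set μ := c.L2.getD i 0 with hμ
  have hmem : μ < c.A ∧ odd c.l μ = 0 ∧ cnt c.l μ ≤ c.s :=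
    (mem_flt.mp (getD_mem hi)).imp id fun h => of_decide_eq_true h
  have h2 := hT.pre.b2 μ hmem.1
  have ha : j &&& μ < c.A := lt_of_le_of_lt Nat.and_le_left hj
  have h1 := mul_add_lt (show g < 2 * c.G by omega) ha
  have h3 := mul_add_lt (show c.G + g' < 2 * c.G by omega) ha
  have h4 := mul_add_lt (mul_add_lt hg hg') ha
  have sg : ∀ y : ℕ, ∀ y' : ℤ, (y : ZMod E.W) = y' →
      (cnt c.l μ % 2 ≠ 0 → (((σ.var 47 + (E.W - y % E.W)) % E.W : ℕ) : ZMod E.W) =
        (z + (-1) ^ cnt c.l μ * y' : ℤ)) ∧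
      (cnt c.l μ % 2 = 0 → (((σ.var 47 + y) % E.W : ℕ) : ZMod E.W) =
        (z + (-1) ^ cnt c.l μ * y' : ℤ)) := by
    intro y y' hy
    constructor <;> intro h
    · rw [cast_rsub (by omega), h47, hy, (Nat.odd_iff.mpr (by omega)).neg_one_pow]
      push_cast; ring
    · rw [cast_radd, h47, hy, (Nat.even_iff.mpr h).neg_one_pow]
      push_cast; ring
  unfold pSumIn
  simp only [wp_blk_cons, wp_set, wp_ite, wp_blk_nil, Expr.safe, Expr.eval, BOp.safe, BOp.eval,
    St.setv_var, St.setv_bank, h34, h48, h41, h42, h43, h5, h2, hT.pre.par.s, Nat.reduceEqDiff,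
    if_true, if_false, true_and, and_true, Nat.and_one_is_mod]
  refine ⟨by omega, by omega, fun h => ?_, fun h => ?_⟩
  · have hc : cnt c.l μ ≠ c.s := by intro h'; simp [h'] at h
    have := sg (σ.bank 13 (g * c.A + (j &&& μ)) * σ.bank 13 ((c.G + g') * c.A + (j &&& μ)) % E.W)
      (c.Pz R r u g g' (j &&& μ)) (by
      rw [cast_rmul, hT.F g (by omega) _ ha, hT.F (c.G + g') (by omega) _ ha, Ctx.Pz]
      push_cast; rfl)
    rw [term, if_neg hc]
    exact ⟨by omega, by omega, fun h => ⟨this.1 h, by omega⟩, fun h => ⟨this.2 h, by omega⟩⟩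
  · have hc : cnt c.l μ = c.s := by
      by_contra h'
      rw [if_pos (by omega)] at h; omega
    have hm : j &&& μ ∈ c.L1 :=
      mem_flt.mpr ⟨ha, decide_eq_true (hc ▸ cnt_le_and c.l j μ)⟩
    have hU := hT.U _ (mul_add_lt hg hg') _ hm
    rw [add_comm (g * c.G), Nat.add_mul_div_right _ _ (by omega), Nat.div_eq_of_lt hg', zero_add,
      Nat.add_mul_mod_self_right, Nat.mod_eq_of_lt hg', add_comm g'] at hU
    have := sg _ _ hU
    rw [term, if_pos hc]
    exact ⟨by omega, by omega, fun h => ⟨this.1 h, by omega⟩, fun h => ⟨this.2 h, by omega⟩⟩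

theorem pOne_spec (hB : Bnd c E) {σ : St} {t : ℕ} {R : ℕ → ℕ} {r u g g' j i e : ℕ}
    (hT : Tab c E R r u σ) (hg : g < c.G) (hg' : g' < c.G) (hj : j < c.A) (hi : i < c.n)
    (h33 : σ.var 33 = g) (h34 : σ.var 34 = j) (h36 : σ.var 36 = e) (h37 : σ.var 37 = i)
    (he : e < E.Lim) (h10 : σ.bank 10 e = g') :
    WP E pOne (fun σ' t' => ((c.test R r u g g' j i → σ'.var 0 = 1) ∧
      (¬ c.test R r u g g' j i → σ'.var 0 = σ.var 0)) ∧ t' ≤ t + c.L2.length * 8 + 10) σ t := by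
  have hbig := hB.big
  have hlGA := hB.lGA
  have hlGGA := hB.lGGA
  have hlA := hB.lA
  have hlR := hB.lR
  have hln := hB.ln
  have hn1 := hB.n1
  have hA := c.A_pos
  have hP := hT.pre.par
  have hnR : c.nR = c.l * 1024 + 2 * c.G := rfl
  have hlen : c.L2.length ≤ c.A := flt_length_le _ _
  have h1 : g * c.A + c.A ≤ 2 * c.G * c.A := by nlinarith
  have h2 : (c.G + g') * c.A + c.A ≤ 2 * c.G * c.A := by nlinarith
  have h3 := mul_add_lt hg hg'
  have h5 : (g * c.G + g') * c.A + c.A ≤ c.G * c.G * c.A := by nlinarith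
  have h6 : c.G * c.G ≤ c.G * c.G * c.A := Nat.le_mul_of_pos_right _ hA
  unfold pOne
  simp only [wp_blk_cons, wp_set, Expr.safe, Expr.eval, BOp.safe, BOp.eval,
    St.setv_var, St.setv_bank, h33, h36, h10, hP.A, hP.G, Nat.reduceEqDiff, if_true, if_false,
    true_and, and_true]
  refine ⟨by omega, by omega, by omega, by omega, by omega, ?_⟩
  set σ₁ := ((((σ.setv 38 g').setv 41 (g * c.A)).setv 42 ((c.G + g') * c.A)).setv 43
    ((g * c.G + g') * c.A)).setv 47 0 with hσ₁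
  have hF₁ : Frame [38, 41, 42, 43, 47] [] false σ σ₁ :=
    (((((Frame.refl _ _ _ σ₁).of_setv (by decide)).of_setv (by decide)).of_setv
      (by decide)).of_setv (by decide)).of_setv (by decide)
  have hT₁ := hT.frame hF₁ (by decide)
  refine wp_for c.L2.length 6
    (fun k σ' => (σ'.var 47 : ZMod E.W) =
      (∑ a ∈ range k, term (c.Pz R r u g g') c.l c.s j (c.L2.getD a 0) : ℤ))
    [47, 49, 50, 51] [] false (by decide) (by decide) (by decide) (by decide) hT₁.pre.n2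
    (by omega) (by omega) (by simp [hσ₁]) ?_ ?_
  · intro k σ₂ t₂ hk hF₂ h48 hI
    refine (pSumIn_spec hB (hT₁.frame hF₂ (by decide)) hg hg' hj hk
      ((hF₂.var 34 (by decide)).trans (by simp [hσ₁, h34])) h48
      ((hF₂.var 41 (by decide)).trans (by simp [hσ₁]))
      ((hF₂.var 42 (by decide)).trans (by simp [hσ₁]))
      ((hF₂.var 43 (by decide)).trans (by simp [hσ₁])) hI).mono fun σ₃ t₃ h => ⟨?_, h.2⟩
    rw [sum_range_succ]; simpa using h.1
  · intro σ₂ t₂ hF₂ hI ht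
    have hP₂ := hT₁.pre.par.frame hF₂ (by decide)
    have e37 : σ₂.var 37 = i := by rw [hF₂.var 37 (by decide), hF₁.var 37 (by decide), h37]
    have e0 : σ₂.var 0 = σ.var 0 := by rw [hF₂.var 0 (by decide), hF₁.var 0 (by decide)]
    have hz : ∑ a ∈ range c.L2.length, term (c.Pz R r u g g') c.l c.s j (c.L2.getD a 0) =
        zval (c.Pz R r u g g') c.l c.s j := by
      rw [Ctx.L2, sum_flt, zval, masks]
      refine sum_congr ?_ fun _ _ => rfl
      simp [Ctx.A]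
    have hand : ∀ a : ℕ, a &&& (c.T ^ 3 - 1) = a % c.T ^ 3 := fun a => by
      rw [Ctx.T, ← pow_mul, Nat.and_two_pow_sub_one_eq_mod]
    simp only [wp_ite, wp_set, wp_skip, wp_blk_nil, Expr.safe, Expr.eval, BOp.safe, BOp.eval,
      St.setv_var, e37, e0, hP₂.T, hP₂.T3, hB.inp i hi, hand, Nat.reduceEqDiff, if_true,
      if_false, true_and, and_true]
    generalize hy : _ % c.T ^ 3 = y
    have hy' : (y : ℤ) = (zval (c.Pz R r u g g') c.l c.s j * wt c.T (c.x i)) % c.T ^ 3 := by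
      rw [← hy, cast_mod_eq (z := zval (c.Pz R r u g g') c.l c.s j * wt c.T (c.x i)) _ hB.dT]
      · push_cast; rfl
      · rw [cast_rmul, cast_wt _ _ _ (cast_inp (by omega) _), hI, hz]; push_cast; rfl
    have hte : c.test R r u g g' j i ↔ 0 < y ∧ y < c.T := by
      rw [Ctx.test, ← hy']; omega
    rw [hte]
    refine ⟨by omega, by omega, fun h => ⟨by omega, ⟨fun _ => trivial, fun h' => ?_⟩, by omega⟩,
      fun h => ⟨⟨fun h' => ?_, fun _ => trivial⟩, by omega⟩⟩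
    · exfalso; apply h'
      split_ifs at h <;> simp at h; omega
    · rw [if_pos h'.1, if_pos h'.2] at h; simp at h

/-- the list looked up at query `g, j` -/
def Ctx.qn (c : Ctx) (R : ℕ → ℕ) (g j : ℕ) : ℕ :=
  (3 * c.M - (R (c.l * 1024 + g) + Hn c R j + Hn c R 0)) % c.M

def Ctx.qlen (c : Ctx) (R : ℕ → ℕ) (r g j : ℕ) : ℕ :=
  (Lst (c.vn R r) (c.G * c.n * 3) (c.qn R g j)).length

/-- some test succeeds -/
def Ctx.Found (c : Ctx) (R : ℕ → ℕ) (r : ℕ) : Prop :=
  ∃ u g g' j i, g < c.G ∧ g' < c.G ∧ j ∈ J c.l ∧ i < c.n ∧ c.isC u i ∧ c.test R r u g g' j i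

/-- a successful test among the entries listed at query `g, j` -/
def Ctx.Hit (c : Ctx) (R : ℕ → ℕ) (r u g j : ℕ) : Prop :=
  ∃ m < c.G * c.n * 3, c.vn R r m = c.qn R g j ∧ c.isC u (c.ei m) ∧
    c.test R r u g (c.eg m) j (c.ei m)

/-- the output is unchanged, or set for a good reason -/
def Ctx.Out (c : Ctx) (R : ℕ → ℕ) (r : ℕ) (a b : ℕ) : Prop := b = a ∨ (b = 1 ∧ c.Found R r)

theorem Ctx.Out.trans {R : ℕ → ℕ} {r a b d : ℕ} (h₁ : c.Out R r a b) (h₂ : c.Out R r b d) :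
    c.Out R r a d := by
  rcases h₂ with rfl | h₂
  exacts [h₁, Or.inr h₂]

theorem Ctx.Out.one {R : ℕ → ℕ} {r a b : ℕ} (h : c.Out R r a b) (ha : a = 1) : b = 1 := by
  rcases h with rfl | h
  exacts [ha, h.1]

theorem pQuery_spec (hB : Bnd c E) {σ : St} {t : ℕ} {R : ℕ → ℕ} {r u g j cn : ℕ}
    (hT : Tab c E R r u σ) (hR : ∀ i < c.nR, R i < c.M) (hu : u < 220 * c.s) (hg : g < c.G)
    (hj : j ∈ J c.l) (h33 : σ.var 33 = g) (h34 : σ.var 34 = j) (h46 : σ.var 46 = cn * c.M)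
    (hcn : cn * c.M < c.Bud + c.M) :
    WP E pQuery (fun σ' t' => ∃ cn', σ'.var 46 = cn' * c.M ∧ cn' ≤ cn + c.qlen R r g j ∧
      cn' * c.M < c.Bud + c.M ∧ c.Out R r (σ.var 0) (σ'.var 0) ∧
      ((cn + c.qlen R r g j) * c.M ≤ c.Bud → c.Hit R r u g j → σ'.var 0 = 1) ∧
      t' + cn * (c.L2.length * 8 + 15) ≤ t + 3 + cn' * (c.L2.length * 8 + 15)) σ t := by
  have hbig := hB.big
  have hlA := hB.lA
  have hlR := hB.lR
  have hlM := hB.lM
  have hlE := hB.lE
  have hln := hB.ln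
  have hls := hB.ls
  have hlB := hB.lB
  have hA := c.A_pos
  have hM := c.M_pos
  have hP := hT.pre.par
  have hnR : c.nR = c.l * 1024 + 2 * c.G := rfl
  have hj' : j < c.A := (mem_J.mp hj).1
  have h1 := hR (c.l * 1024 + g) (by omega)
  have h2 := Hn_lt c R j
  have h3 := Hn_lt c R 0
  have h4 : c.qn R g j < c.M := Nat.mod_lt _ hM
  have h5 : 3 * c.G * c.n = c.G * c.n * 3 := by ring
  unfold pQuery
  simp only [wp_blk_cons, wp_set, wp_blk_nil, Expr.safe, Expr.eval, BOp.safe, BOp.eval,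
    St.setv_var, St.setv_bank, h33, h34, hP.M, hP.l, hT.pre.b0, hT.pre.b1 j hj', hT.pre.b1 0 hA,
    c.and_M, ← Ctx.qn.eq_1, Nat.reduceEqDiff, if_true, if_false, true_and, and_true]
  refine ⟨by omega, by omega, ?_⟩
  set L := Lst (c.vn R r) (c.G * c.n * 3) (c.qn R g j) with hL
  set K := c.L2.length * 8 + 15 with hK
  refine wp_while (fun σ' t' => ∃ dn rm : List ℕ, L = dn ++ rm ∧
      Chain (σ.bank 9) (σ'.var 36) rm ∧ σ'.var 46 = (cn + dn.length) * c.M ∧
      (cn + dn.length) * c.M < c.Bud + c.M ∧ c.Out R r (σ.var 0) (σ'.var 0) ∧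
      (∀ m, m + 1 ∈ dn → c.isC u (c.ei m) → c.test R r u g (c.eg m) j (c.ei m) → σ'.var 0 = 1) ∧
      t' ≤ t + 2 + dn.length * K)
    (fun σ' => c.Bud + c.M - σ'.var 46) [0, 36, 37, 38, 41, 42, 43, 46, 47, 48, 49, 50, 51, 52]
    [] false (by decide)
    ⟨[], L, rfl, by simpa using hT.pre.lst.1 _ h4, by simp [h46], by simpa using hcn,
      Or.inl (by simp), by simp, by simp⟩ ?_
  rintro σ₁ t₁ hF₁ ⟨dn, rm, hLe, hch, e46, hlt, hout, hhit, ht⟩
  have hF₁' : Frame [0, 35, 36, 37, 38, 41, 42, 43, 46, 47, 48, 49, 50, 51, 52] [] false σ σ₁ :=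
    ((hF₁.weaken (by decide) (by decide) id).of_setv (by decide)).of_setv (by decide)
  have hT₁ := hT.frame hF₁' (by decide)
  have hP₁ := hT₁.pre.par
  have hlen : c.qlen R r g j = dn.length + rm.length := by
    rw [Ctx.qlen, ← hL, hLe, List.length_append]
  refine ⟨by simp; omega, fun hc => ?_, fun hc => ?_⟩
  · have hc' : σ₁.var 36 ≠ 0 ∧ (cn + dn.length) * c.M < c.Bud := by
      simp only [Expr.eval, BOp.eval, e46, hP₁.Bud] at hc
      split_ifs at hc <;> simp at hc; omega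
    obtain ⟨a, rm, rfl⟩ : ∃ a rm', rm = a :: rm' := by
      cases rm with
      | nil => exact absurd hch hc'.1
      | cons a rm => exact ⟨a, rm, rfl⟩
    obtain ⟨e36, -, hch'⟩ := hch
    obtain ⟨m, hm, rfl, hv⟩ := mem_Lst.mp (show a ∈ L by simp [hLe])
    obtain ⟨b10, b11⟩ := hT₁.pre.lst.2 m hm
    have hn0 : 0 < c.n := Nat.pos_of_ne_zero fun h => by simp [h] at hm
    have hei : c.ei m < c.n := Nat.mod_lt _ hn0
    have heg : c.eg m < c.G := by
      rw [Ctx.eg, Nat.div_lt_iff_lt_mul hn0]; omega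
    have hneg : c.neg (c.ei m) ≤ 1 := by unfold Ctx.neg; split_ifs <;> omega
    have e9 : σ₁.bank 9 = σ.bank 9 := hF₁'.bank 9 (by decide)
    have fin : ∀ (σ₂ : St) (t₂ : ℕ), σ₂.var 46 = (cn + dn.length) * c.M + c.M →
        c.Out R r (σ₁.var 0) (σ₂.var 0) →
        (c.isC u (c.ei m) → c.test R r u g (c.eg m) j (c.ei m) → σ₂.var 0 = 1) →
        t₂ + 1 ≤ t₁ + K →
        (∃ dn' rm' : List ℕ, L = dn' ++ rm' ∧
          Chain (σ.bank 9) (σ.bank 9 (m + 1)) rm' ∧ σ₂.var 46 = (cn + dn'.length) * c.M ∧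
          (cn + dn'.length) * c.M < c.Bud + c.M ∧ c.Out R r (σ.var 0) (σ₂.var 0) ∧
          (∀ m, m + 1 ∈ dn' → c.isC u (c.ei m) → c.test R r u g (c.eg m) j (c.ei m) →
            σ₂.var 0 = 1) ∧ t₂ + 1 ≤ t + 2 + dn'.length * K) ∧
          c.Bud + c.M - σ₂.var 46 < c.Bud + c.M - (cn + dn.length) * c.M := by
      intro σ₂ t₂ a1 a2 a3 a4
      have a5 : (cn + (dn ++ [m + 1]).length) * c.M = (cn + dn.length) * c.M + c.M := by
        simp only [List.length_append, List.length_singleton]; ring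
      refine ⟨⟨dn ++ [m + 1], rm, by simp [hLe], hch', by rw [a5, a1], by omega, hout.trans a2,
        fun m' hm' b1 b2 => ?_, ?_⟩, by omega⟩
      · rcases List.mem_append.mp hm' with h | h
        · exact a2.one (hhit m' h b1 b2)
        · obtain rfl : m' = m := by simpa using h
          exact a3 b1 b2
      · simp only [List.length_append, List.length_singleton, Nat.add_mul]; omega
    simp only [wp_blk_cons, wp_set, wp_ite, wp_skip, wp_blk_nil, Expr.safe, Expr.eval, BOp.safe,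
      BOp.eval, St.setv_var, St.setv_bank, e36, e46, e9, b11, hP₁.M, hT₁.hu, hT₁.pre.b7 _ hei,
      Nat.and_one_is_mod, Nat.reduceEqDiff, if_true, if_false, true_and, and_true]
    refine ⟨by omega, by omega, by omega, fun h => ⟨by omega, ?_⟩, fun h => ?_⟩
    · exact fin ((σ₁.setv 46 ((cn + dn.length) * c.M + c.M)).setv 37 (c.ei m)) _ (by simp)
        (Or.inl (by simp)) (fun h' => absurd h' h) (by omega)
    · set σ₂ := (σ₁.setv 46 ((cn + dn.length) * c.M + c.M)).setv 37 (c.ei m) with hσ₂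
      have hF₂ : Frame [46, 37] [] false σ₁ σ₂ :=
        ((Frame.refl _ _ _ σ₂).of_setv (by decide)).of_setv (by decide)
      refine (pOne_spec hB (hT₁.frame hF₂ (by decide)) hg heg hj' hei (e := m + 1)
        (by rw [hF₂.var 33 (by decide), hF₁'.var 33 (by decide), h33])
        (by rw [hF₂.var 34 (by decide), hF₁'.var 34 (by decide), h34])
        (by simp [hσ₂, e36]) (by simp [hσ₂]) (by omega) (by simpa [hσ₂] using b10)).call
        [0, 38, 41, 42, 43, 47, 48, 49, 50, 51, 52] [] false (by decide) ?_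
      rintro σ₃ t₃ hF₃ ⟨⟨a1, a2⟩, a3⟩
      have f36 : σ₃.var 36 = m + 1 := by rw [hF₃.var 36 (by decide)]; simp [hσ₂, e36]
      have f46 : σ₃.var 46 = (cn + dn.length) * c.M + c.M := by
        rw [hF₃.var 46 (by decide)]; simp [hσ₂]
      have f9 : σ₃.bank 9 = σ.bank 9 := by rw [hF₃.bank 9 (by decide)]; simp [hσ₂, e9]
      rw [f36, f9]
      refine ⟨by omega, fin σ₃ _ f46 ?_ (fun _ => a1) (by omega)⟩
      by_cases hte : c.test R r u g (c.eg m) j (c.ei m)
      · exact Or.inr ⟨a1 hte, u, g, _, j, _, hg, heg, hj, hei, h, hte⟩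
      · exact Or.inl ((a2 hte).trans (by simp [hσ₂]))
  · refine ⟨cn + dn.length, e46, by omega, hlt, hout, fun h1 ⟨m, hm, b1, b2, b3⟩ => ?_, ?_⟩
    · refine hhit m ?_ b2 b3
      have hmem : m + 1 ∈ dn ++ rm := hLe ▸ mem_Lst.mpr ⟨m, hm, rfl, b1⟩
      cases rm with
      | nil => simpa using hmem
      | cons a rm =>
        exfalso
        have : (cn + dn.length) * c.M + c.M ≤ (cn + c.qlen R r g j) * c.M := by
          rw [hlen, ← Nat.succ_mul]
          exact Nat.mul_le_mul_right _ (by simp)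
        simp only [Expr.eval, BOp.eval, e46, hP₁.Bud] at hc
        rw [if_pos (by rw [hch.1]; exact Nat.pos_of_ne_zero hch.2.1), if_pos (by omega)] at hc
        simp at hc
    · rw [Nat.add_mul]; omega

end Pool.Agent.P.MP_8f87b2_lc
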