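import Pool.Agent.P.MP_8f87b2_lc.PhaseD

/-!
# One instance, and the loop over the instances
-/

namespace Pool.Agent.P.MP_8f87b2_lc

open Finset

variable {E : Env} {c : Ctx}

def Ctx.qw (c : Ctx) (R : ℕ → ℕ) (r g j : ℕ) : ℕ := if cnt c.l j = 0 then c.qlen R r g j else 0

/-- the number of list entries met at the queries of the first `g` groups -/
def Ctx.cum (c : Ctx) (R : ℕ → ℕ) (r g : ℕ) : ℕ := ∑ a ∈ range g, ∑ j ∈ range c.A, c.qw R r a j

theorem pEval_spec (hB : Bnd c E) {σ : St} {t : ℕ} {R : ℕ → ℕ} {r u Cn : ℕ}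
    (hT : Tab c E R r u σ) (hR : ∀ i < c.nR, R i < c.M) (hu : u < 220 * c.s)
    (hCn : c.Bud + c.M ≤ Cn * c.M) :
    WP E pEval (fun σ' t' => c.Out R r (σ.var 0) (σ'.var 0) ∧
      (c.cum R r c.G * c.M ≤ c.Bud → ∀ g < c.G, ∀ j ∈ J c.l, c.Hit R r u g j → σ'.var 0 = 1) ∧
      t' ≤ t + c.G * (c.A * 6 + 4) + Cn * (c.L2.length * 8 + 15) + 3) σ t := by
  have hbig := hB.big
  have hlA := hB.lA
  have hlR := hB.lR
  have hA := c.A_pos
  have hM := c.M_pos
  have hnR : c.nR = c.l * 1024 + 2 * c.G := rfl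
  set K := c.L2.length * 8 + 15 with hK
  unfold pEval
  simp only [wp_blk_cons, wp_set, wp_blk_nil, Expr.safe, Expr.eval]
  refine ⟨by omega, ?_⟩
  refine wp_forT c.G (fun g σ' t' => ∃ cn, σ'.var 46 = cn * c.M ∧ cn ≤ c.cum R r g ∧
      cn * c.M < c.Bud + c.M ∧ c.Out R r (σ.var 0) (σ'.var 0) ∧
      (c.cum R r c.G * c.M ≤ c.Bud → ∀ a < g, ∀ j ∈ J c.l, c.Hit R r u a j → σ'.var 0 = 1) ∧
      t' ≤ t + 2 + g * (c.A * 6 + 4) + cn * K)
    [0, 34, 35, 36, 37, 38, 41, 42, 43, 46, 47, 48, 49, 50, 51, 52] [] false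
    (by decide) (by decide) (by decide) (by decide) (by simp [hT.pre.par.G]) (by omega) (by omega)
    ⟨0, by simp, by simp, by simpa using Or.inr hM, Or.inl (by simp), by simp, by simp⟩ ?_ ?_
  · rintro g σ₁ t₁ hg hF₁ h33 ⟨cn₁, a1, a2, a3, a4, a5, a6⟩
    have hT₁ := hT.frame (hF₁.of_setv (by decide)) (by decide)
    refine wp_forT c.A (fun j σ' t' => ∃ cn, σ'.var 46 = cn * c.M ∧
        cn ≤ c.cum R r g + ∑ a ∈ range j, c.qw R r g a ∧
        cn * c.M < c.Bud + c.M ∧ c.Out R r (σ₁.var 0) (σ'.var 0) ∧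
        (c.cum R r c.G * c.M ≤ c.Bud → ∀ a < j, a ∈ J c.l → c.Hit R r u g a → σ'.var 0 = 1) ∧
        t' ≤ t + 4 + g * (c.A * 6 + 4) + j * 6 + cn * K)
      [0, 35, 36, 37, 38, 41, 42, 43, 46, 47, 48, 49, 50, 51, 52] [] false
      (by decide) (by decide) (by decide) (by decide) hT₁.pre.par.A (by omega) (by omega)
      ⟨cn₁, by simpa using a1, by simpa using a2, a3, Or.inl (by simp), by simp, by omega⟩ ?_ ?_
    · rintro j σ₂ t₂ hj hF₂ h34 ⟨cn₂, b1, b2, b3, b4, b5, b6⟩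
      have hT₂ := hT₁.frame hF₂ (by decide)
      have e2 := hT₂.pre.b2 j hj
      rw [wp_ite]
      refine ⟨by simp [h34]; omega, fun h => ?_, fun h => ?_⟩
      · have hc : cnt c.l j ≠ 0 := by simpa [h34, e2] using h
        rw [wp_skip]
        refine ⟨cn₂, by simpa using b1, by rw [sum_range_succ]; omega, b3, by simpa using b4,
          fun h1 a ha haJ hh => ?_, by omega⟩
        have : a ≠ j := by rintro rfl; exact hc (mem_J.mp haJ).2
        simpa using b5 h1 a (by omega) haJ hh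
      · have hc : cnt c.l j = 0 := by simpa [h34, e2] using h
        refine (pQuery_spec hB hT₂ hR hu hg (mem_J.mpr ⟨hj, hc⟩)
          ((hF₂.var 33 (by decide)).trans h33) h34 b1 b3).mono ?_
        rintro σ₃ t₃ ⟨cn₃, d1, d2, d3, d4, d5, d6⟩
        have hq : c.qw R r g j = c.qlen R r g j := if_pos hc
        refine ⟨cn₃, by simpa using d1, by rw [sum_range_succ]; omega, d3,
          by simpa using b4.trans d4, fun h1 a ha haJ hh => ?_, by rw [← hK] at d6; omega⟩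
        simp only [St.setv_var, Nat.reduceEqDiff, if_false]
        by_cases haj : a = j
        · subst haj
          refine d5 (le_trans (Nat.mul_le_mul_right _ ?_) h1) hh
          have m1 : ∑ b ∈ range (a + 1), c.qw R r g b ≤ ∑ b ∈ range c.A, c.qw R r g b :=
            sum_le_sum_of_subset (range_subset_range.mpr hj)
          have m2 : c.cum R r (g + 1) ≤ c.cum R r c.G :=
            sum_le_sum_of_subset (range_subset_range.mpr hg)
          rw [Ctx.cum, sum_range_succ, ← Ctx.cum] at m2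
          rw [sum_range_succ] at m1
          omega
        · exact d4.one (b5 h1 a (by omega) haJ hh)
    · rintro σ₂ t₂ - - ⟨cn₂, b1, b2, b3, b4, b5, b6⟩
      refine ⟨cn₂, by simpa using b1, by rw [Ctx.cum, sum_range_succ, ← Ctx.cum]; exact b2, b3,
        by simpa using a4.trans b4, fun h1 a ha j hj hh => ?_, by rw [Nat.succ_mul]; omega⟩
      simp only [St.setv_var, Nat.reduceEqDiff, if_false]
      by_cases hag : a = g
      · subst hag; exact b5 h1 j (mem_J.mp hj).1 hj hh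
      · exact b4.one (a5 h1 a (by omega) j hj hh)
  · rintro σ₁ t₁ - - ⟨cn₁, a1, a2, a3, a4, a5, a6⟩
    refine ⟨a4, a5, ?_⟩
    have : cn₁ ≤ Cn := le_of_lt (lt_of_mul_lt_mul_right (a3.trans_le hCn) (Nat.zero_le _))
    have := Nat.mul_le_mul_right K this
    omega

/-- the cost of one instance -/
def Ctx.tInst (c : Ctx) (Cn : ℕ) : ℕ :=
  (2 * c.M * 3 + 2) + (c.n * 6 + 2) + (2 * c.G * (c.A * 4 + c.l * (c.A * 5 + 5) + 10) + 2) +
    (c.G * (c.G * (c.L1.length * (c.l * 4 + 8) + 7) + 4) + 2) +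
    (c.G * (c.A * 6 + 4) + Cn * (c.L2.length * 8 + 15) + 3)

theorem pInst_spec (hB : Bnd c E) {σ : St} {t : ℕ} {R : ℕ → ℕ} {r u Cn : ℕ}
    (hP : Pre c R r σ) (hR : ∀ i < c.nR, R i < c.M) (h40 : σ.var 40 = u) (hu : u < 220 * c.s)
    (hCn : c.Bud + c.M ≤ Cn * c.M) :
    WP E pInst (fun σ' t' => c.Out R r (σ.var 0) (σ'.var 0) ∧
      (c.cum R r c.G * c.M ≤ c.Bud → ∀ g < c.G, ∀ j ∈ J c.l, c.Hit R r u g j → σ'.var 0 = 1) ∧
      t' ≤ t + c.tInst Cn) σ t := by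
  unfold pInst
  simp only [wp_blk_cons, wp_blk_nil]
  refine (pZero_spec hB hP.par).call [33] [12] false (by decide) ?_
  rintro σ₁ t₁ hF₁ ⟨a1, a2⟩
  have hP₁ := hP.frame hF₁ (by decide) (by decide)
  have e₁ := (hF₁.var 40 (by decide)).trans h40
  refine (pAcc_spec hB hP₁.par hP₁.b6 hP₁.b7 e₁ hu a1).call [33, 34, 35] [12] false
    (by decide) ?_
  rintro σ₂ t₂ hF₂ ⟨b1, b2⟩
  have hP₂ := hP₁.frame hF₂ (by decide) (by decide)
  have e₂ := (hF₂.var 40 (by decide)).trans e₁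
  refine (pEnc_spec hB hP₂.par hP₂.b0 hR hP₂.b1 hP₂.b2 b1).call
    [33, 34, 35, 38, 41, 42, 43, 44] [13] false (by decide) ?_
  rintro σ₃ t₃ hF₃ ⟨d1, d2⟩
  have hP₃ := hP₂.frame hF₃ (by decide) (by decide)
  have e₃ := (hF₃.var 40 (by decide)).trans e₂
  refine (pU_spec hB hP₃.par hP₃.n1 hP₃.b4 d1).call
    [33, 34, 35, 36, 37, 41, 42, 43, 44, 45] [14] false (by decide) ?_
  rintro σ₄ t₄ hF₄ ⟨f1, f2⟩
  have hP₄ := hP₃.frame hF₄ (by decide) (by decide)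
  have e₄ := (hF₄.var 40 (by decide)).trans e₃
  refine (pEval_spec hB ⟨hP₄, e₄, hF₄.bank 13 (by decide) ▸ d1, f1⟩ hR hu hCn).mono ?_
  rintro σ₅ t₅ ⟨g1, g2, g3⟩
  refine ⟨?_, g2, by unfold Ctx.tInst; omega⟩
  rwa [hF₄.var 0 (by decide), hF₃.var 0 (by decide), hF₂.var 0 (by decide),
    hF₁.var 0 (by decide)] at g1

theorem pLoop_spec (hB : Bnd c E) {σ : St} {t : ℕ} {R : ℕ → ℕ} {r Cn : ℕ}
    (hP : Pre c R r σ) (hR : ∀ i < c.nR, R i < c.M) (hCn : c.Bud + c.M ≤ Cn * c.M) :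
    WP E (forL 40 24 pInst) (fun σ' t' => c.Out R r (σ.var 0) (σ'.var 0) ∧
      (c.cum R r c.G * c.M ≤ c.Bud → ∀ u < 220 * c.s, ∀ g < c.G, ∀ j ∈ J c.l,
        c.Hit R r u g j → σ'.var 0 = 1) ∧ t' ≤ t + 220 * c.s * (c.tInst Cn + 2) + 2) σ t := by
  have hbig := hB.big
  have hls := hB.ls
  have hs := hB.s1
  refine wp_for (220 * c.s) (c.tInst Cn)
    (fun m σ' => c.Out R r (σ.var 0) (σ'.var 0) ∧
      (c.cum R r c.G * c.M ≤ c.Bud → ∀ u < m, ∀ g < c.G, ∀ j ∈ J c.l,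
        c.Hit R r u g j → σ'.var 0 = 1))
    [0, 33, 34, 35, 36, 37, 38, 41, 42, 43, 44, 45, 46, 47, 48, 49, 50, 51, 52] [12, 13, 14]
    false (by decide) (by decide) (by decide) (by decide) hP.par.nI (by omega) (by omega)
    ⟨Or.inl (by simp), by simp⟩ ?_ fun σ' t' _ hI ht => ⟨hI.1, hI.2, ht⟩
  intro u σ₁ t₁ hu hF₁ h40 ⟨a1, a2⟩
  refine (pInst_spec hB (hP.frame hF₁ (by decide) (by decide)) hR h40 hu hCn).mono ?_
  rintro σ₂ t₂ ⟨b1, b2, b3⟩
  refine ⟨⟨by simpa using a1.trans b1, fun h u' hu' g hg j hj hh => ?_⟩, b3⟩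
  simp only [St.setv_var, Nat.reduceEqDiff, if_false]
  by_cases h1 : u' = u
  · subst h1; exact b2 h g hg j hj hh
  · exact b1.one (a2 h u' (by omega) g hg j hj hh)

end Pool.Agent.P.MP_8f87b2_lc
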