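import Pool.Agent.P.MP_8f87b2_lc.PhaseE

/-!
# The choice of the parameters
-/

namespace Pool.Agent.P.MP_8f87b2_lc

open Finset

variable {E : Env}

theorem pSize_spec {n s : ℕ} (hn1 : E.n1 = n + 1) (hin : E.inp 0 = n) (hs : 1 ≤ s)
    (hN : n ≤ Gam ^ s) (hmin : ∀ i, 1 ≤ i → i < s → Gam ^ i < n) (hW : 2 ^ (4000 * s) ≤ E.W)
    {σ : St} {t : ℕ} :
    WP E pSize (fun σ' t' => σ'.var 1 = n ∧ σ'.var 2 = s ∧ σ'.var 3 = Gam ^ s ∧
      σ'.var 4 = (2 ^ 200) ^ s ∧ σ'.var 5 = (2046 ^ 10) ^ s ∧ σ'.var 12 = 1024 ^ s ∧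
      σ'.var 8 = 4 * (2 ^ 440) ^ s ∧ σ'.var 10 = (2 ^ 1200) ^ s ∧ σ'.var 11 = (1023 ^ 20) ^ s ∧
      t' ≤ t + 9 * s + 1) σ t := by
  have key : ∀ b i, b ≤ 2 ^ 1200 → i ≤ s → 4 * b ^ i < E.W := by
    intro b i hb hi
    calc 4 * b ^ i ≤ 2 ^ 2 * (2 ^ 1200) ^ s :=
          Nat.mul_le_mul (by norm_num) ((Nat.pow_le_pow_left hb i).trans
            (Nat.pow_le_pow_right (by positivity) hi))
      _ = 2 ^ (2 + 1200 * s) := by rw [← pow_mul, ← pow_add]
      _ < 2 ^ (4000 * s) := Nat.pow_lt_pow_right (by norm_num) (by omega)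
      _ ≤ _ := hW
  have p2 : ∀ a, a ≤ 1200 → 2 ^ a ≤ 2 ^ 1200 := fun a ha => Nat.pow_le_pow_right (by norm_num) ha
  have k3 := fun i => key Gam i (le_trans (by unfold Gam; norm_num) (p2 110 (by norm_num)))
  have k4 := fun i => key (2 ^ 200) i (p2 200 (by norm_num))
  have k5 := fun i => key (2046 ^ 10) i (le_trans (by norm_num) (p2 110 (by norm_num)))
  have k12 := fun i => key 1024 i (le_trans (by norm_num) (p2 10 (by norm_num)))
  have k8 := fun i => key (2 ^ 440) i (p2 440 (by norm_num))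
  have k10 := fun i => key (2 ^ 1200) i le_rfl
  have k11 := fun i => key (1023 ^ 20) i (le_trans (by norm_num) (p2 200 (by norm_num)))
  have ks : s < E.W := lt_of_lt_of_le Nat.lt_two_pow_self
    (le_trans (Nat.pow_le_pow_right (by norm_num) (by omega)) hW)
  unfold pSize
  rw [show (2 : ℕ) ^ 442 = 4 * 2 ^ 440 by rw [show 442 = 2 + 440 from rfl, pow_add]; rfl]
  clear key p2 hW
  generalize Gam = a3 at *
  generalize (2 : ℕ) ^ 200 = a4 at *
  generalize (2046 : ℕ) ^ 10 = a5 at *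
  generalize (2 : ℕ) ^ 440 = a8 at *
  generalize (2 : ℕ) ^ 1200 = a10 at *
  generalize (1023 : ℕ) ^ 20 = a11 at *
  have i3 := k3 1 hs
  have i4 := k4 1 hs
  have i5 := k5 1 hs
  have i12 := k12 1 hs
  have i8 := k8 1 hs
  have i10 := k10 1 hs
  have i11 := k11 1 hs
  rw [pow_one] at i3 i4 i5 i12 i8 i10 i11
  simp only [wp_blk_cons, wp_set, wp_blk_nil, Expr.safe, Expr.eval, hin]
  refine ⟨by omega, by omega, by omega, by omega, by omega, by omega, by omega, by omega,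
    by omega, ?_⟩
  refine wp_while (fun σ' t' => ∃ i, 1 ≤ i ∧ i ≤ s ∧ σ'.var 1 = n ∧ σ'.var 2 = i ∧
      σ'.var 3 = a3 ^ i ∧ σ'.var 4 = a4 ^ i ∧ σ'.var 5 = a5 ^ i ∧ σ'.var 12 = 1024 ^ i ∧
      σ'.var 8 = 4 * a8 ^ i ∧ σ'.var 10 = a10 ^ i ∧ σ'.var 11 = a11 ^ i ∧ t' = t + 9 * i)
    (fun σ' => s - σ'.var 2) [2, 3, 4, 5, 12, 8, 10, 11] [] false
    (by simp [Stmt.Within, blk, Stmt.wv, Stmt.wb, Stmt.rd]) ⟨1, by simp [hs]⟩ ?_
  rintro σ' t' - ⟨i, h1, h2, v1, v2, v3, v4, v5, v12, v8, v10, v11, ht⟩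
  refine ⟨by simp, fun hc => ?_, fun hc => ?_⟩
  · have hlt : i < s := by
      by_contra h
      have : i = s := by omega
      subst this
      simp [v1, v3, hN] at hc
    have j3 := k3 (i + 1) hlt
    have j4 := k4 (i + 1) hlt
    have j5 := k5 (i + 1) hlt
    have j12 := k12 (i + 1) hlt
    have j8 := k8 (i + 1) hlt
    have j10 := k10 (i + 1) hlt
    have j11 := k11 (i + 1) hlt
    rw [pow_succ] at j3 j4 j5 j12 j8 j10 j11
    simp only [wp_blk_cons, wp_set, wp_blk_nil, Expr.safe, Expr.eval, BOp.safe, BOp.eval,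
      St.setv_var, Nat.reduceEqDiff, if_true, if_false, true_and, v1, v2, v3, v4, v5, v12, v8,
      v10, v11, mul_assoc]
    refine ⟨by omega, by omega, by omega, by omega, by omega, by omega, by omega, by omega,
      ⟨i + 1, by omega, hlt, ?_⟩, by omega⟩
    simp only [pow_succ, true_and]
    omega
  · have : i = s := by
      by_contra h
      have := hmin i h1 (by omega)
      simp [v1, v3, this] at hc
    subst this
    exact ⟨v1, v2, v3, v4, v5, v12, v8, v10, v11, by omega⟩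

theorem pDouble_spec {x e X Y k : ℕ} (hx30 : x ≠ 30) (hxe : x ≠ e) {σ : St} {t : ℕ}
    (h30 : σ.var 30 = X) (he : σ.var e = Y) (hY : 0 < Y) (hk : X ≤ 2 ^ k * Y)
    (hmin : ∀ i < k, 2 ^ i * Y < X) (hW : 2 ^ k * Y < E.W) (hW1 : 1 < E.W) :
    WP E (pDouble x e) (fun σ' t' => σ'.var x = 2 ^ k ∧ t' ≤ t + 2 * k + 2) σ t := by
  unfold pDouble
  simp only [wp_blk_cons, wp_set, wp_blk_nil, Expr.safe, Expr.eval]
  refine ⟨hW1, ?_⟩
  refine wp_while (fun σ' t' => ∃ i ≤ k, σ'.var x = 2 ^ i ∧ t' = t + 1 + 2 * i)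
    (fun σ' => 2 ^ k - σ'.var x) [x] [] false
    (by simp [Stmt.Within, Stmt.wv, Stmt.wb, Stmt.rd]) ⟨0, by simp⟩ ?_
  rintro σ' t' hF ⟨i, hi, hx, ht⟩
  have e30 : σ'.var 30 = X := by rw [hF.var 30 (by simp [hx30.symm])]; simp [hx30.symm, h30]
  have ee : σ'.var e = Y := by rw [hF.var e (by simp [hxe.symm])]; simp [hxe.symm, he]
  have h1 : 2 ^ i * Y ≤ 2 ^ k * Y :=
    Nat.mul_le_mul_right _ (Nat.pow_le_pow_right (by norm_num) hi)
  refine ⟨by simp [hx, ee]; omega, fun hc => ?_, fun hc => ?_⟩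
  · have hlt : i < k := by
      by_contra h
      have : i = k := by omega
      subst this
      simp [hx, ee, e30] at hc
      omega
    have h3 : 2 * 2 ^ i ≤ 2 ^ k := by
      rw [← pow_succ']; exact Nat.pow_le_pow_right (by norm_num) hlt
    have h4 : 2 ^ k ≤ 2 ^ k * Y := Nat.le_mul_of_pos_right _ hY
    have h5 : 0 < 2 ^ i := by positivity
    simp only [wp_set, Expr.safe, Expr.eval, BOp.safe, BOp.eval, St.setv_var, if_true, true_and,
      hx]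
    exact ⟨by omega, ⟨i + 1, hlt, by rw [pow_succ]; omega, by omega⟩, by omega⟩
  · have : i = k := by
      by_contra h
      have := hmin i (by omega)
      simp [hx, ee, e30, this] at hc
    subst this
    exact ⟨hx, by omega⟩

/-- the parameters are the ones chosen for the input length -/
structure Sz (c : Ctx) (γ : ℕ) : Prop where
  s1 : 1 ≤ c.s
  nN : c.n ≤ c.N
  smin : ∀ i, 1 ≤ i → i < c.s → Gam ^ i < c.n
  M1 : 200 * c.h * c.N * 2 ^ c.h ≤ c.M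
  Mmin : ∀ i < c.k, 2 ^ i < 200 * c.h * c.N * 2 ^ c.h
  G : c.G = 2 ^ γ
  G1 : 5 * c.h * c.M ≤ c.G * 2046 ^ c.h
  Gmin : ∀ i < γ, 2 ^ i * 2046 ^ c.h < 5 * c.h * c.M

theorem exists_dbl (X : ℕ) {Y : ℕ} (hY : 0 < Y) :
    ∃ k, X ≤ 2 ^ k * Y ∧ ∀ i < k, 2 ^ i * Y < X := by
  have h : ∃ k, X ≤ 2 ^ k * Y :=
    ⟨X, le_trans Nat.lt_two_pow_self.le (Nat.le_mul_of_pos_right _ hY)⟩
  exact ⟨Nat.find h, Nat.find_spec h, fun i hi => not_le.mp (Nat.find_min h hi)⟩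

theorem exists_Sz (n : ℕ) (x : ℕ → ℤ) : ∃ (c : Ctx) (γ : ℕ), c.n = n ∧ c.x = x ∧ Sz c γ := by
  have h : ∃ s, 1 ≤ s ∧ n ≤ Gam ^ s := ⟨n + 1, by omega, by
    have : n + 1 < Gam ^ (n + 1) := Nat.lt_pow_self (by unfold Gam; norm_num)
    omega⟩
  obtain ⟨s, hs, hmin⟩ : ∃ s, (1 ≤ s ∧ n ≤ Gam ^ s) ∧ ∀ i, 1 ≤ i → i < s → Gam ^ i < n :=
    ⟨Nat.find h, Nat.find_spec h, fun i h1 hi => by
      have := Nat.find_min h hi
      omega⟩
  obtain ⟨k, hk1, hk2⟩ := exists_dbl (200 * (10 * s) * Gam ^ s * 2 ^ (10 * s)) Nat.one_pos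
  obtain ⟨γ, hg1, hg2⟩ := exists_dbl (5 * (10 * s) * 2 ^ k)
    (show 0 < 2046 ^ (10 * s) by positivity)
  simp only [mul_one] at hk1 hk2
  exact ⟨⟨s, n, k, 2 ^ γ, x⟩, γ, rfl, rfl, hs.1, hs.2, hmin, hk1, hk2, rfl, hg1, hg2⟩

namespace Sz

variable {c : Ctx} {γ : ℕ} (hS : Sz c γ)

include hS

theorem h10 : 10 ≤ c.h := by have := hS.s1; unfold Ctx.h; omega

omit hS in
theorem N_eq (c : Ctx) : c.N = 1378 ^ c.h := by unfold Ctx.N Ctx.h Gam; rw [pow_mul]

theorem M2 : c.M ≤ 400 * c.h * c.N * 2 ^ c.h := by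
  have h1 := hS.h10
  have h2 : 0 < c.N * 2 ^ c.h := by rw [N_eq]; positivity
  unfold Ctx.M
  rcases hk : c.k with _ | k
  · rw [mul_assoc]; nlinarith
  · have := hS.Mmin k (by omega)
    rw [pow_succ]; linarith

theorem E_le : 2046 ^ c.h ≤ c.M := by
  refine le_trans ?_ hS.M1
  rw [N_eq, mul_assoc, ← mul_pow]
  have h1 := hS.h10
  exact le_trans (Nat.pow_le_pow_left (by norm_num) _) (Nat.le_mul_of_pos_left _ (by omega))

theorem G2 : c.G * 2046 ^ c.h ≤ 10 * c.h * c.M := by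
  have h1 := hS.h10
  have h2 := hS.E_le
  rw [hS.G]
  rcases hg : γ with _ | k
  · nlinarith
  · have := hS.Gmin k (by omega)
    rw [pow_succ]; linarith

theorem G_pos : 1 ≤ c.G := by rw [hS.G]; exact Nat.one_le_two_pow

theorem G3 : c.G * 1023 ^ c.h ≤ 4000 * c.h ^ 2 * c.N := by
  have h1 := hS.G2
  have h2 := hS.M2
  rw [show 2046 = 1023 * 2 from rfl, mul_pow] at h1
  refine Nat.le_of_mul_le_mul_right ?_ (show 0 < 2 ^ c.h by positivity)
  calc c.G * 1023 ^ c.h * 2 ^ c.h ≤ 10 * c.h * c.M := by rw [mul_assoc]; exact h1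
    _ ≤ 10 * c.h * (400 * c.h * c.N * 2 ^ c.h) := Nat.mul_le_mul_left _ h2
    _ = _ := by ring

omit hS in
theorem mul_bd {a b p q s : ℕ} (ha : a ≤ 2 ^ (p * s)) (hb : b ≤ 2 ^ (q * s)) :
    a * b ≤ 2 ^ ((p + q) * s) := by
  rw [add_mul, pow_add]; exact Nat.mul_le_mul ha hb

omit hS in
theorem mono_bd {a p q s : ℕ} (ha : a ≤ 2 ^ (p * s)) (h : p ≤ q) : a ≤ 2 ^ (q * s) :=
  ha.trans (Nat.pow_le_pow_right (by norm_num) (Nat.mul_le_mul_right _ h))

theorem const_bd {a p : ℕ} (ha : a ≤ 2 ^ p) : a ≤ 2 ^ (p * c.s) :=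
  ha.trans (Nat.pow_le_pow_right (by norm_num) (Nat.le_mul_of_pos_right _ hS.s1))

omit hS in
theorem pow_bd {a p s : ℕ} (ha : a ≤ 2 ^ p) : a ^ s ≤ 2 ^ (p * s) := by
  rw [pow_mul]; exact Nat.pow_le_pow_left ha _

omit hS in
theorem s_bd (c : Ctx) : c.s ≤ 2 ^ (1 * c.s) := by rw [one_mul]; exact Nat.lt_two_pow_self.le

theorem h_bd : c.h ≤ 2 ^ (5 * c.s) := mul_bd (hS.const_bd (p := 4) (by norm_num)) (s_bd c)

omit hS in
theorem N_bd (c : Ctx) : c.N ≤ 2 ^ (105 * c.s) := pow_bd (by unfold Gam; norm_num)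

theorem n_bd : c.n ≤ 2 ^ (105 * c.s) := hS.nN.trans (N_bd c)

theorem X_bd : 400 * c.h * c.N * 2 ^ c.h ≤ 2 ^ (129 * c.s) :=
  mul_bd (p := 119) (q := 10) (mul_bd (p := 14) (mul_bd (hS.const_bd (p := 9) (by norm_num))
    hS.h_bd) (N_bd c)) le_rfl

theorem M_bd : c.M ≤ 2 ^ (129 * c.s) := hS.M2.trans hS.X_bd

theorem Y_bd : 10 * c.h * c.M ≤ 2 ^ (138 * c.s) :=
  mul_bd (p := 9) (mul_bd (hS.const_bd (p := 4) (by norm_num)) hS.h_bd) hS.M_bd

theorem G_bd : c.G ≤ 2 ^ (138 * c.s) :=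
  le_trans (Nat.le_mul_of_pos_right _ (by positivity)) (hS.G2.trans hS.Y_bd)

omit hS in
theorem A_eq (c : Ctx) : c.A = 2 ^ (200 * c.s) := by
  unfold Ctx.A Ctx.l
  rw [show 1024 = 2 ^ 10 from rfl, ← pow_mul]
  congr 1; ring

theorem V_bd : c.V ≤ 2 ^ (442 * c.s) :=
  Nat.pow_le_pow_right (by norm_num) (by have := hS.s1; unfold Ctx.v; omega)

theorem k_bd : c.k ≤ 129 * c.s := (Nat.pow_le_pow_iff_right (by norm_num)).mp hS.M_bd

theorem γ_bd : γ ≤ 138 * c.s := (Nat.pow_le_pow_iff_right (by norm_num)).mp (hS.G ▸ hS.G_bd)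

theorem Bud_bd : c.Bud ≤ 2 ^ (587 * c.s) := by
  have h : 1023 ^ c.l ≤ 2 ^ (200 * c.s) := by
    rw [← A_eq]; exact Nat.pow_le_pow_left (by norm_num) _
  exact mul_bd (p := 387) (mul_bd (p := 249) (mul_bd (p := 111)
    (mul_bd (hS.const_bd (p := 6) (by norm_num)) (N_bd c)) hS.G_bd) hS.G_bd) h

theorem lt_bd {a p q : ℕ} (ha : a ≤ 2 ^ (p * c.s)) (h : p < q) : 2 * a ≤ 2 ^ (q * c.s) :=
  mono_bd (mul_bd (hS.const_bd (p := 1) (by norm_num)) ha) (by omega)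

theorem bnd {W : ℕ} {E : Env} (hW : E.W = 2 ^ W) (hw : 4000 * c.s ≤ W)
    (hL : E.Lim = 2 ^ (1000 * c.s)) (hn : E.n1 = c.n + 1)
    (hin : ∀ i < c.n, E.inp (i + 1) = (c.x i % E.W).toNat)
    (hx : ∀ i < c.n, |c.x i| ≤ (c.n : ℤ) ^ 4) : Bnd c E := by
  have hW' : 2 ^ (4000 * c.s) ≤ E.W := hW ▸ Nat.pow_le_pow_right (by norm_num) hw
  have hA := (A_eq c).le
  have one : 1 ≤ 2 ^ (0 * c.s) := by simp
  refine ⟨hS.s1, hS.G_pos, hn, hin, fun i hi => ?_, ?_, ?_, ?_, ?_, ?_, ?_, ?_, ?_, ?_, ?_, ?_,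
    ?_, ?_⟩
  · have h1 : c.n ^ 4 ≤ 2 ^ (440 * c.s) := by
      refine (Nat.pow_le_pow_left hS.n_bd 4).trans ?_
      rw [← pow_mul]; exact Nat.pow_le_pow_right (by norm_num) (by omega)
    have h2 : c.V = 4 * 2 ^ (440 * c.s) := by unfold Ctx.V Ctx.v; rw [pow_add]; ring
    have h3 := hx i hi
    have h4 : ((c.n : ℤ)) ^ 4 ≤ 2 ^ (440 * c.s) := by exact_mod_cast h1
    rw [h2]; push_cast; linarith
  · have := hS.lt_bd (mul_bd (hS.const_bd (a := 2000) (p := 11) (by norm_num)) hL.le)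
      (show _ < 4000 by norm_num)
    have : 0 < E.Lim := by rw [hL]; positivity
    omega
  · rw [hL]; exact mono_bd (mul_bd hA (hS.const_bd (p := 10) (by norm_num))) (by norm_num)
  · rw [hL, mul_assoc]; exact hS.lt_bd (mul_bd hS.G_bd hA) (by norm_num)
  · rw [hL]; exact mono_bd (mul_bd (mul_bd hS.G_bd hS.G_bd) hA) (by norm_num)
  · rw [hL]; exact mono_bd (mul_bd (hS.const_bd (p := 2) (by norm_num)) hS.M_bd) (by norm_num)
  · have h1 := hS.lt_bd (mul_bd (mul_bd (hS.const_bd (a := 3) (p := 2) (by norm_num)) hS.G_bd)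
      hS.n_bd) (show _ < 1000 by norm_num)
    have h2 := hS.lt_bd one (show _ < 1000 by norm_num)
    omega
  · have h1 := hS.lt_bd hS.n_bd (show _ < 1000 by norm_num)
    have h2 := hS.lt_bd one (show _ < 1000 by norm_num)
    omega
  · have h1 := hS.lt_bd (mul_bd (hS.const_bd (a := 20480) (p := 15) (by norm_num)) (s_bd c))
      (show _ < 1000 by norm_num)
    have h2 := hS.lt_bd (hS.lt_bd hS.G_bd (show _ < 999 by norm_num)) (show _ < 1000 by norm_num)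
    unfold Ctx.nR Ctx.l
    omega
  · rw [hL]; exact mono_bd (mul_bd (hS.const_bd (p := 10) (by norm_num)) (s_bd c)) (by norm_num)
  · have h1 := hS.lt_bd (hS.lt_bd hS.Bud_bd (show _ < 3999 by norm_num))
      (show _ < 4000 by norm_num)
    have h2 := hS.lt_bd hS.M_bd (show _ < 4000 by norm_num)
    have := c.M_pos
    have h3 := hS.lt_bd (hS.lt_bd hS.M_bd (show _ < 3999 by norm_num))
      (show _ < 4000 by norm_num)
    omega
  · have h1 := hS.lt_bd (hS.lt_bd (mul_bd hS.M_bd hS.V_bd) (show _ < 3999 by norm_num))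
      (show _ < 4000 by norm_num)
    have := Nat.mul_pos c.M_pos c.V_pos
    omega
  · rw [hW]
    unfold Ctx.M Ctx.V
    rw [← pow_add]
    refine pow_dvd_pow _ ?_
    have := hS.k_bd
    have := hS.s1
    unfold Ctx.v
    omega
  · rw [hW]
    unfold Ctx.T
    rw [← pow_mul]
    exact pow_dvd_pow _ (by omega)

theorem setup {E : Env} (hn1 : E.n1 = c.n + 1) (hin : E.inp 0 = c.n)
    (hW : 2 ^ (4000 * c.s) ≤ E.W) {σ : St} {t : ℕ} :
    WP E pSetup (fun σ' t' => Par c σ' ∧ t' ≤ t + 600 * c.s) σ t := by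
  have lt : ∀ {a p : ℕ}, a ≤ 2 ^ (p * c.s) → p < 3999 → 2 * a < E.W := by
    intro a p ha hp
    have h1 := hS.lt_bd (hS.lt_bd ha hp) (show _ < 4000 by norm_num)
    have h2 := hS.lt_bd (a := 1) (p := 0) (by simp) (show _ < 4000 by norm_num)
    omega
  have hs := hS.s1
  have b1 := lt (mul_bd (hS.const_bd (a := 100000) (p := 17) (by norm_num)) (s_bd c))
    (by norm_num)
  have hh : c.h = 10 * c.s := rfl
  have hl : c.l = 20 * c.s := rfl
  have hN0 : 0 < c.N := by rw [N_eq]; positivity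
  have h2h : 0 < 2 ^ c.h := by positivity
  have hM0 := c.M_pos
  have hG0 := hS.G_pos
  have hT0 := c.T_pos
  have bX := lt hS.X_bd (by norm_num)
  have bX' : 200 * c.h * c.N ≤ 200 * c.h * c.N * 2 ^ c.h := Nat.le_mul_of_pos_right _ h2h
  have bM := lt hS.M_bd (by norm_num)
  have bY := lt hS.Y_bd (by norm_num)
  have bG := lt (hS.lt_bd hS.G_bd (show _ < 139 by norm_num)) (by norm_num)
  have bMV := lt (mul_bd hS.M_bd hS.V_bd) (by norm_num)
  have bT : c.T ≤ 2 ^ (1200 * c.s) := le_rfl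
  have bT2 := lt (mul_bd bT bT) (by norm_num)
  have bT3 := lt (mul_bd (mul_bd bT bT) bT) (by norm_num)
  have bB := lt hS.Bud_bd (by norm_num)
  have bB1 : 60 * c.N * c.G * c.G ≤ c.Bud := Nat.le_mul_of_pos_right _ (by positivity)
  have bB2 : 60 * c.N * c.G ≤ 60 * c.N * c.G * c.G := Nat.le_mul_of_pos_right _ hG0
  have bB3 : 60 * c.N ≤ 60 * c.N * c.G := Nat.le_mul_of_pos_right _ hG0
  have e3 : 0 < c.T * c.T * c.T := by positivity
  have hX2 : 400 * c.h * c.N * 2 ^ c.h = 2 * (200 * c.h * c.N * 2 ^ c.h) := by ring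
  have hY2 : 10 * c.h * c.M = 2 * (5 * c.h * c.M) := by ring
  unfold pSetup
  rw [wp_blk_cons]
  refine (pSize_spec hn1 hin hs hS.nN hS.smin hW).mono ?_
  rintro σ₁ t₁ ⟨v1, v2, v3, v4, v5, v12, v8, v10, v11, ht₁⟩
  rw [← pow_mul] at v4 v5 v8 v10 v11
  rw [← A_eq] at v4
  rw [show (1024 : ℕ) ^ c.s = 2 ^ c.h by rw [hh, pow_mul]; rfl] at v12
  rw [show 4 * 2 ^ (440 * c.s) = c.V by unfold Ctx.V Ctx.v; rw [pow_add]; ring] at v8
  change _ = c.N at v3
  change _ = c.T at v10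
  change _ = 2046 ^ c.h at v5
  change _ = 1023 ^ c.l at v11
  simp only [wp_blk_cons, wp_set, Expr.safe, Expr.eval, BOp.safe, BOp.eval,
    St.setv_var, Nat.reduceEqDiff, if_true, if_false, true_and, v2, v3, v12, ← hh, ← hl]
  refine ⟨by omega, by omega, by omega, by omega, by omega, ?_⟩
  refine (pDouble_spec (X := 200 * c.h * c.N * 2 ^ c.h) (Y := 1) (k := c.k) (by decide)
    (by decide) (by simp) (by simp) Nat.one_pos (by rw [mul_one]; exact hS.M1) (by simpa using hS.Mmin)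
    (by change c.M * 1 < _; omega) (by omega)).call [6] [] false (by decide) ?_
  rintro σ₂ t₂ hF₂ ⟨v6, ht₂⟩
  change _ = c.M at v6
  have w13 : σ₂.var 13 = c.h := by rw [hF₂.var 13 (by decide)]; simp
  have w5 : σ₂.var 5 = 2046 ^ c.h := by rw [hF₂.var 5 (by decide)]; simp [v5]
  simp only [v6, w13]
  refine ⟨by omega, ?_⟩
  refine (pDouble_spec (X := 5 * c.h * c.M) (Y := 2046 ^ c.h) (k := γ) (by decide)
    (by decide) (by simp) (by simp [w5]) (by positivity) (hS.G ▸ hS.G1) hS.Gmin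
    (by rw [← hS.G]; have := hS.G2; omega) (by omega)).call [7] [] false (by decide) ?_
  rintro σ₃ t₃ hF₃ ⟨v7, ht₃⟩
  rw [← hS.G] at v7
  have u : ∀ y, y ≠ 7 → y ≠ 30 → y ≠ 6 → σ₃.var y = _ := fun y h1 h2 h3 =>
    (hF₃.var y (by simp [h1])).trans (by rw [St.setv_var, if_neg h2, hF₂.var y (by simp [h3])])
  have u6 : σ₃.var 6 = c.M := by rw [hF₃.var 6 (by decide)]; simp [v6]
  have u1 : σ₃.var 1 = c.n := by rw [u 1 (by decide) (by decide) (by decide)]; simp [v1]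
  have u2 : σ₃.var 2 = c.s := by rw [u 2 (by decide) (by decide) (by decide)]; simp [v2]
  have u3 : σ₃.var 3 = c.N := by rw [u 3 (by decide) (by decide) (by decide)]; simp [v3]
  have u4 : σ₃.var 4 = c.A := by rw [u 4 (by decide) (by decide) (by decide)]; simp [v4]
  have u8 : σ₃.var 8 = c.V := by rw [u 8 (by decide) (by decide) (by decide)]; simp [v8]
  have u9 : σ₃.var 9 = c.v := by rw [u 9 (by decide) (by decide) (by decide)]; simp [Ctx.v]
  have u10 : σ₃.var 10 = c.T := by rw [u 10 (by decide) (by decide) (by decide)]; simp [v10]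
  have u11 : σ₃.var 11 = 1023 ^ c.l := by
    rw [u 11 (by decide) (by decide) (by decide)]; simp [v11]
  have u13 : σ₃.var 13 = c.h := by rw [u 13 (by decide) (by decide) (by decide)]; simp
  have u14 : σ₃.var 14 = c.l := by rw [u 14 (by decide) (by decide) (by decide)]; simp
  have eB : 60 * c.N * c.G * c.G * 1023 ^ c.l = c.Bud := rfl
  simp only [wp_blk_nil, u1, u2, u3, u4, u6, u8, u9, u10, u11, u13, u14, v7, eB]
  have hk := hS.k_bd
  have hγ := hS.γ_bd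
  refine ⟨by omega, by omega, by omega, by omega, by omega, by omega, by omega, by omega,
    ?_, by omega⟩
  constructor <;>
    simp [u1, u2, u3, u4, u6, u8, u9, u10, u11, u13, u14, v7, eB, Ctx.nR, pow_succ]

end Sz

end Pool.Agent.P.MP_8f87b2_lc
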