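import Pool.Agent.P.MP_8f87b2_lc.Main

/-!
# The running time
-/

namespace Pool.Agent.P.MP_8f87b2_lc

open Finset

variable {c : Ctx} {γ : ℕ}

theorem length_flt (A : ℕ) (P : ℕ → Bool) :
    (flt A P).length = ((range A).filter fun p => P p = true).card := by
  have h := sum_flt A P fun _ => 1
  simp only [sum_const, card_range, nsmul_eq_mul, mul_one] at h
  exact_mod_cast h

theorem L1_bd (c : Ctx) : c.L1.length * 54 ^ c.s ≤ 1077 ^ c.l := by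
  have h := sum_prod_dig (R := ℕ) (fun _ d => if d = 0 then 54 else 1) c.l
  have h2 : ∑ d ∈ range 1024, (if d = 0 then 54 else 1) = 1077 := by rw [sum_range_succ']; simp
  rw [h2, prod_const, card_range] at h
  rw [← h, Ctx.L1, length_flt, card_filter, sum_mul]
  refine sum_le_sum fun p _ => ?_
  rw [prod_ite, prod_const, prod_const_one, mul_one]
  split_ifs with hp
  · rw [one_mul]; exact Nat.pow_le_pow_right (by norm_num) (of_decide_eq_true hp)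
  · simp

theorem L2_bd (c : Ctx) : c.L2.length * 19 ^ (19 * c.s) ≤ 20 ^ c.l := by
  have h := sum_prod_dig (R := ℕ) (fun _ d => if d = 0 then 1 else if d = 1023 then 19 else 0) c.l
  have h2 : ∑ d ∈ range 1024, (if d = 0 then 1 else if d = 1023 then 19 else 0) = 20 := by
    rw [sum_range_succ', sum_range_succ, sum_eq_zero fun d hd => by
      have := mem_range.mp hd
      rw [if_neg (by omega), if_neg (by omega)]]
    simp
  rw [h2, prod_const, card_range] at h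
  rw [← h, Ctx.L2, length_flt, card_filter, sum_mul]
  refine sum_le_sum fun p _ => ?_
  split_ifs with hp
  · obtain ⟨h1, h3⟩ := of_decide_eq_true hp
    simp only [odd, card_eq_zero, filter_eq_empty_iff] at h1
    rw [one_mul, prod_congr rfl (g := fun t => if dig t p = 0 then 1 else 19) fun t ht => by
      have := h1 ht
      split_ifs <;> omega, prod_ite, prod_const_one, prod_const, one_mul]
    refine Nat.pow_le_pow_right (by norm_num) ?_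
    have h4 := card_filter_add_card_filter_not (s := range c.l) fun t => dig t p = 0
    rw [card_range] at h4
    unfold cnt at h3
    have : c.l = 20 * c.s := rfl
    omega
  · simp

def Dd : ℕ := 32 * 10 ^ 60

def Ctx.Q (c : Ctx) : ℕ := (4000 * c.h ^ 2) ^ 2 * Dd ^ c.s

namespace Sz

variable (hS : Sz c γ)

include hS

theorem q1 : 1 ≤ 4000 * c.h ^ 2 := by have := hS.h10; nlinarith

theorem GA_le : c.G * c.A ≤ c.Q := by
  have h1 := hS.G3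
  have h2 : c.N * c.A ≤ Dd ^ c.s * 1023 ^ c.h := by
    rw [A_eq, Ctx.N, Ctx.h, pow_mul, pow_mul, ← mul_pow, ← mul_pow]
    exact Nat.pow_le_pow_left (by unfold Gam Dd; norm_num) _
  have h3 : 4000 * c.h ^ 2 ≤ (4000 * c.h ^ 2) ^ 2 := Nat.le_self_pow (by norm_num) _
  refine Nat.le_of_mul_le_mul_right ?_ (show 0 < 1023 ^ c.h by positivity)
  calc c.G * c.A * 1023 ^ c.h = c.G * 1023 ^ c.h * c.A := by ring
    _ ≤ 4000 * c.h ^ 2 * c.N * c.A := Nat.mul_le_mul_right _ h1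
    _ = 4000 * c.h ^ 2 * (c.N * c.A) := by ring
    _ ≤ (4000 * c.h ^ 2) ^ 2 * (Dd ^ c.s * 1023 ^ c.h) := Nat.mul_le_mul h3 h2
    _ = _ := by rw [Ctx.Q]; ring

theorem GG_le : c.G * c.G * 1023 ^ c.l ≤ (4000 * c.h ^ 2) ^ 2 * (c.N * c.N) := by
  have h1 := Nat.mul_le_mul hS.G3 hS.G3
  have : c.l = c.h + c.h := by unfold Ctx.l Ctx.h; omega
  rw [this, pow_add]
  linarith

theorem GGL_le : c.G * c.G * c.L1.length ≤ c.Q := by
  have h2 : c.N * c.N * 1077 ^ c.l ≤ Dd ^ c.s * (1023 ^ c.l * 54 ^ c.s) := by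
    rw [Ctx.N, Ctx.l, pow_mul, pow_mul, ← mul_pow, ← mul_pow, ← mul_pow, ← mul_pow]
    exact Nat.pow_le_pow_left (by unfold Gam Dd; norm_num) _
  refine Nat.le_of_mul_le_mul_right ?_ (show 0 < 1023 ^ c.l * 54 ^ c.s by positivity)
  calc c.G * c.G * c.L1.length * (1023 ^ c.l * 54 ^ c.s)
      = c.G * c.G * 1023 ^ c.l * (c.L1.length * 54 ^ c.s) := by ring
    _ ≤ (4000 * c.h ^ 2) ^ 2 * (c.N * c.N) * 1077 ^ c.l := Nat.mul_le_mul hS.GG_le (L1_bd c)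
    _ = (4000 * c.h ^ 2) ^ 2 * (c.N * c.N * 1077 ^ c.l) := by ring
    _ ≤ (4000 * c.h ^ 2) ^ 2 * (Dd ^ c.s * (1023 ^ c.l * 54 ^ c.s)) := Nat.mul_le_mul_left _ h2
    _ = _ := by rw [Ctx.Q]; ring

theorem B_le : c.Bud / c.M * 2 ^ c.h ≤ (4000 * c.h ^ 2) ^ 2 * (c.N * c.N) := by
  have h1 : c.Bud / c.M * c.M ≤ c.Bud := Nat.div_mul_le_self _ _
  have h2 : 60 * c.N * 2 ^ c.h ≤ c.M := by
    refine le_trans ?_ hS.M1
    have := hS.h10
    gcongr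
    omega
  have h3 : 0 < 60 * c.N := by rw [N_eq]; positivity
  refine Nat.le_of_mul_le_mul_left ?_ h3
  calc 60 * c.N * (c.Bud / c.M * 2 ^ c.h) = c.Bud / c.M * (60 * c.N * 2 ^ c.h) := by ring
    _ ≤ c.Bud := (Nat.mul_le_mul_left _ h2).trans h1
    _ = 60 * c.N * (c.G * c.G * 1023 ^ c.l) := by rw [Ctx.Bud]; ring
    _ ≤ _ := Nat.mul_le_mul_left _ hS.GG_le

theorem BL_le : c.Bud / c.M * c.L2.length ≤ c.Q := by
  have h2 : c.N * c.N * 20 ^ c.l ≤ Dd ^ c.s * (2 ^ c.h * 19 ^ (19 * c.s)) := by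
    rw [Ctx.N, Ctx.l, Ctx.h, pow_mul, pow_mul, pow_mul, ← mul_pow, ← mul_pow, ← mul_pow,
      ← mul_pow]
    exact Nat.pow_le_pow_left (by unfold Gam Dd; norm_num) _
  refine Nat.le_of_mul_le_mul_right ?_ (show 0 < 2 ^ c.h * 19 ^ (19 * c.s) by positivity)
  calc c.Bud / c.M * c.L2.length * (2 ^ c.h * 19 ^ (19 * c.s))
      = c.Bud / c.M * 2 ^ c.h * (c.L2.length * 19 ^ (19 * c.s)) := by ring
    _ ≤ (4000 * c.h ^ 2) ^ 2 * (c.N * c.N) * 20 ^ c.l := Nat.mul_le_mul hS.B_le (L2_bd c)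
    _ = (4000 * c.h ^ 2) ^ 2 * (c.N * c.N * 20 ^ c.l) := by ring
    _ ≤ (4000 * c.h ^ 2) ^ 2 * (Dd ^ c.s * (2 ^ c.h * 19 ^ (19 * c.s))) :=
        Nat.mul_le_mul_left _ h2
    _ = _ := by rw [Ctx.Q]; ring

theorem Bq_le : c.Bud / c.M ≤ c.Q := by
  have h2 : c.N * c.N ≤ Dd ^ c.s * 2 ^ c.h := by
    rw [Ctx.N, Ctx.h, pow_mul, ← mul_pow, ← mul_pow]
    exact Nat.pow_le_pow_left (by unfold Gam Dd; norm_num) _
  refine Nat.le_of_mul_le_mul_right ?_ (show 0 < 2 ^ c.h by positivity)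
  calc _ ≤ (4000 * c.h ^ 2) ^ 2 * (c.N * c.N) := hS.B_le
    _ ≤ (4000 * c.h ^ 2) ^ 2 * (Dd ^ c.s * 2 ^ c.h) := Nat.mul_le_mul_left _ h2
    _ = _ := by rw [Ctx.Q]; ring

theorem tAll_le : c.tAll (c.Bud / c.M + 2) ≤ 10 ^ 8 * c.s ^ 2 * c.Q := by
  have hs := hS.s1
  have hG := hS.G_pos
  have hA := c.A_pos
  have q1 := hS.GA_le
  have q2 := hS.GGL_le
  have q3 := hS.BL_le
  have q4 := hS.Bq_le
  have hA' : c.A ≤ c.G * c.A := Nat.le_mul_of_pos_left _ hG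
  have hG' : c.G ≤ c.G * c.A := Nat.le_mul_of_pos_right _ hA
  have hMA : c.M ≤ c.A := by rw [A_eq]; exact mono_bd hS.M_bd (by norm_num)
  have hnA : c.n ≤ c.A := by rw [A_eq]; exact mono_bd hS.n_bd (by norm_num)
  have hGA : c.G ≤ c.A := by rw [A_eq]; exact mono_bd hS.G_bd (by norm_num)
  have hL2 : c.L2.length ≤ c.A := flt_length_le _ _
  have hGn : c.G * c.n ≤ c.G * c.A := Nat.mul_le_mul_left _ hnA
  have hGG : c.G * c.G ≤ c.G * c.A := Nat.mul_le_mul_left _ hGA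
  have hk := hS.k_bd
  have hQ : c.Q ≤ c.s * c.Q := Nat.le_mul_of_pos_left _ hs
  have hI : c.tInst (c.Bud / c.M + 2) + 2 ≤ 1000 * (c.s * c.Q) := by
    have a1 : c.s * (c.G * c.A) ≤ c.s * c.Q := Nat.mul_le_mul_left _ q1
    have a2 : c.s * (c.G * c.G * c.L1.length) ≤ c.s * c.Q := Nat.mul_le_mul_left _ q2
    have a3 : c.s * c.G ≤ c.s * c.Q := Nat.mul_le_mul_left _ (hG'.trans q1)
    unfold Ctx.tInst Ctx.l
    generalize c.Bud / c.M = B at *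
    linarith
  have hQ2 : c.s * c.Q ≤ c.s * (c.s * c.Q) := Nat.le_mul_of_pos_left _ hs
  have b1 : 220 * c.s * (c.tInst (c.Bud / c.M + 2) + 2) ≤ 220 * c.s * (1000 * (c.s * c.Q)) :=
    Nat.mul_le_mul_left _ hI
  have hQ1 : 1 ≤ c.Q := by omega
  have b2 : c.s ≤ c.s * c.Q := Nat.le_mul_of_pos_right _ hQ1
  have b3 : c.nR ≤ 20482 * (c.s * c.Q) := by unfold Ctx.nR Ctx.l; linarith
  have b4 : c.nR * (4 * c.k + 6) ≤ 20482 * (c.s * c.Q) * (522 * c.s) :=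
    Nat.mul_le_mul b3 (by omega)
  have b5 : c.A * (c.l * 7 + 10) ≤ c.Q * (150 * c.s) :=
    Nat.mul_le_mul (hA'.trans q1) (by unfold Ctx.l; omega)
  unfold Ctx.tAll Ctx.v
  linarith

end Sz

theorem time_real : ∃ C : ℝ, ∀ (c : Ctx) (γ : ℕ), Sz c γ →
    (c.tAll (c.Bud / c.M + 2) : ℝ) ≤ C * ((c.n : ℝ) ^ (((49 / 25 : ℚ)) : ℝ) + 1) := by
  obtain ⟨c0, hc0⟩ := (tendsto_pow_const_div_const_pow_of_one_lt 6
    (show (1 : ℝ) < 33 / 32 by norm_num)).bddAbove_range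
  have hc : ∀ s : ℕ, (s : ℝ) ^ 6 ≤ c0 * (33 / 32) ^ s := fun s => by
    have := hc0 ⟨s, rfl⟩
    rwa [div_le_iff₀ (by positivity)] at this
  have hc0' : 0 ≤ c0 := by
    have := hc 0
    simpa using this
  refine ⟨16 * 10 ^ 18 * c0 * (Gam : ℝ) ^ 2, fun c γ hS => ?_⟩
  rw [show (((49 / 25 : ℚ)) : ℝ) = 49 / 25 by norm_num]
  have hG1 : (1 : ℝ) ≤ Gam := by unfold Gam; norm_num
  have hG0 : (0 : ℝ) ≤ Gam := by linarith
  have h1 : (c.tAll (c.Bud / c.M + 2) : ℝ) ≤ 16 * 10 ^ 18 * c.s ^ 6 * (Dd : ℝ) ^ c.s := by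
    have := hS.tAll_le
    rw [show 10 ^ 8 * c.s ^ 2 * c.Q = 16 * 10 ^ 18 * c.s ^ 6 * Dd ^ c.s by
      unfold Ctx.Q Ctx.h; ring] at this
    exact_mod_cast this
  have h2 : (33 / 32 * Dd : ℝ) ≤ (Gam : ℝ) ^ (49 / 25 : ℝ) := by
    refine le_of_pow_le_pow_left₀ (n := 25) (by norm_num) (by positivity) ?_
    rw [← Real.rpow_natCast ((Gam : ℝ) ^ (49 / 25 : ℝ)), ← Real.rpow_mul hG0,
      show (49 / 25 : ℝ) * (25 : ℕ) = (49 : ℕ) by norm_num, Real.rpow_natCast]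
    unfold Gam Dd
    norm_num
  obtain ⟨s', hs'⟩ : ∃ s', c.s = s' + 1 := ⟨c.s - 1, by have := hS.s1; omega⟩
  have h3 : ((Gam : ℝ) ^ (49 / 25 : ℝ)) ^ s' ≤ (c.n : ℝ) ^ (49 / 25 : ℝ) + 1 := by
    rcases Nat.eq_zero_or_pos s' with h | h
    · rw [h, pow_zero]
      exact le_add_of_nonneg_left (by positivity)
    · have := hS.smin s' h (by omega)
      rw [← Real.rpow_natCast, ← Real.rpow_mul hG0, mul_comm, Real.rpow_mul hG0,
        Real.rpow_natCast]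
      refine le_trans (Real.rpow_le_rpow (by positivity) ?_ (by norm_num)) (le_add_of_nonneg_right
        zero_le_one)
      exact_mod_cast this.le
  have h4 : (Gam : ℝ) ^ (49 / 25 : ℝ) ≤ (Gam : ℝ) ^ 2 := by
    rw [← Real.rpow_natCast]
    exact Real.rpow_le_rpow_of_exponent_le hG1 (by norm_num)
  calc (c.tAll (c.Bud / c.M + 2) : ℝ) ≤ 16 * 10 ^ 18 * c.s ^ 6 * (Dd : ℝ) ^ c.s := h1
    _ ≤ 16 * 10 ^ 18 * (c0 * (33 / 32) ^ c.s) * (Dd : ℝ) ^ c.s := by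
        gcongr; exact hc _
    _ = 16 * 10 ^ 18 * c0 * (33 / 32 * Dd : ℝ) ^ c.s := by rw [mul_pow]; ring
    _ ≤ 16 * 10 ^ 18 * c0 * ((Gam : ℝ) ^ (49 / 25 : ℝ)) ^ c.s := by gcongr
    _ = 16 * 10 ^ 18 * c0 * (Gam : ℝ) ^ (49 / 25 : ℝ) * ((Gam : ℝ) ^ (49 / 25 : ℝ)) ^ s' := by
        rw [hs', pow_succ]; ring
    _ ≤ _ := by gcongr

end Pool.Agent.P.MP_8f87b2_lc
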